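import Pool.Agent.Helper44q.Q.Gal

/-! The key lemma: an irreducible polynomial over the field of invariants has roots in at most one
of the twists by linearly disjoint extensions. -/

set_option autoImplicit false
set_option linter.unusedSectionVars false

namespace Pool.Agent.Helper44q.Q

open IntermediateField

/-- the field of invariants -/
def inv {k K G : Type} [Field k] [Field K] [Algebra k K] [Group G] (ρ : G →* (K ≃ₐ[k] K)) :
    IntermediateField k K :=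
  fixedField ρ.range

theorem mem_inv {k K G : Type} [Field k] [Field K] [Algebra k K] [Group G]
    {ρ : G →* (K ≃ₐ[k] K)} {a : K} : a ∈ inv ρ ↔ ∀ g, ρ g a = a := by
  rw [inv, mem_fixedField_iff]
  exact ⟨fun h g => h _ ⟨g, rfl⟩, fun h f hf => by obtain ⟨g, rfl⟩ := hf; exact h g⟩

section

variable {k K G : Type} [Field k] [Field K] [Algebra k K] [Group G] [Finite G]
  (ρ : G →* (K ≃ₐ[k] K))

theorem isGalois_inv : IsGalois (inv ρ) K := by
  have : Finite ρ.range := Set.finite_range ρ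
  exact IsGalois.of_fixed_field K ρ.range

theorem finite_inv : FiniteDimensional (inv ρ) K := by
  have : Finite ρ.range := Set.finite_range ρ
  have h : FiniteDimensional (FixedPoints.subfield ρ.range K) K := inferInstance
  exact h

end

section main

variable {k K A G : Type} [Field k] [Field K] [Field A] [Algebra k K] [Algebra K A] [Algebra k A]
  [IsScalarTower k K A] [Group G] [Finite G]

/-- `σ` induces `ρ g` on `K` -/
def Over (ρ : G →* (K ≃ₐ[k] K)) (σ : A ≃ₐ[k] A) (g : G) : Prop :=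
  ∀ a : K, σ (algebraMap K A a) = algebraMap K A (ρ g a)

theorem exists_lift [IsAlgClosure K A] (ρ : G →* (K ≃ₐ[k] K)) (g : G) :
    ∃ σ : A ≃ₐ[k] A, Over ρ σ g := by
  let f : A ≃+* A := IsAlgClosure.equivOfEquiv A A (ρ g : K ≃+* K)
  have hf : ∀ a : K, f (algebraMap K A a) = algebraMap K A (ρ g a) := fun a =>
    IsAlgClosure.equivOfEquiv_algebraMap A A (ρ g : K ≃+* K) a
  refine ⟨AlgEquiv.ofRingEquiv (f := f) (fun c => ?_), hf⟩
  rw [IsScalarTower.algebraMap_apply k K A, hf, AlgEquiv.commutes]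

/-- `σ` induces `ρ g` on `K` and `φ g` on `E` for some `g` -/
def Diag (ρ : G →* (K ≃ₐ[k] K)) (E : IntermediateField k A) (φ : G ≃* (E ≃ₐ[k] E))
    (σ : A ≃ₐ[k] A) : Prop :=
  ∃ g, Over ρ σ g ∧ ∀ z : E, σ (z : A) = (φ g z : A)

theorem exists_diag [IsAlgClosure K A] [CharZero K] (ρ : G →* (K ≃ₐ[k] K))
    (hreg : ∀ a : K, IsAlgebraic k a → a ∈ Set.range (algebraMap k K))
    (E : IntermediateField k A) [FiniteDimensional k E] [IsGalois k E]
    (φ : G ≃* (E ≃ₐ[k] E)) (g : G) :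
    ∃ σ : A ≃ₐ[k] A, Over ρ σ g ∧ ∀ z : E, σ (z : A) = (φ g z : A) := by
  have hcl : IsAlgClosed A := IsAlgClosure.isAlgClosed K
  have halg : Algebra.IsAlgebraic K A := IsAlgClosure.isAlgebraic
  have : IsGalois K A := { }
  obtain ⟨σ₀, h0⟩ := exists_lift (A := A) ρ g
  have hb : ∀ z : E, ((AlgEquiv.restrictNormalHom E σ₀ z : E) : A) = σ₀ z :=
    fun z => AlgEquiv.restrictNormal_commutes σ₀ E z
  obtain ⟨γ, hγ, hγ'⟩ := exists_over_one (K := K) hreg E
    (φ g * (AlgEquiv.restrictNormalHom E σ₀)⁻¹)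
  refine ⟨γ * σ₀, fun a => ?_, fun z => ?_⟩
  · rw [AlgEquiv.mul_apply, h0, hγ]
  · rw [AlgEquiv.mul_apply, ← hb, hγ', AlgEquiv.mul_apply]
    congr 2
    exact (AlgEquiv.restrictNormalHom E σ₀).symm_apply_apply z

/-- the key lemma -/
theorem key [IsAlgClosure K A] [CharZero K] (ρ : G →* (K ≃ₐ[k] K))
    (hreg : ∀ a : K, IsAlgebraic k a → a ∈ Set.range (algebraMap k K))
    (E₁ E₂ : IntermediateField k A) [FiniteDimensional k E₁] [IsGalois k E₁]
    [FiniteDimensional k E₂] [IsGalois k E₂] (hE : E₁ ⊓ E₂ = ⊥)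
    (φ₁ : G ≃* (E₁ ≃ₐ[k] E₁)) (φ₂ : G ≃* (E₂ ≃ₐ[k] E₂)) (θ₁ θ₂ : A)
    (h1 : ∀ σ, Diag ρ E₁ φ₁ σ → σ θ₁ = θ₁) (h2 : ∀ σ, Diag ρ E₂ φ₂ σ → σ θ₂ = θ₂)
    (hconj : IsConjRoot (inv ρ) θ₁ θ₂) : ∃ a ∈ inv ρ, algebraMap K A a = θ₂ := by
  have hcl : IsAlgClosed A := IsAlgClosure.isAlgClosed K
  have halg : Algebra.IsAlgebraic K A := IsAlgClosure.isAlgebraic
  have : IsGalois K A := { }
  have := isGalois_inv ρ
  have := finite_inv ρ
  have halg' : Algebra.IsAlgebraic (inv ρ) A := Algebra.IsAlgebraic.trans (inv ρ) K A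
  have : IsAlgClosure (inv ρ) A := ⟨hcl, halg'⟩
  obtain ⟨τ, hτ⟩ := hconj.exists_algEquiv
  have htow : ∀ c : k, algebraMap (inv ρ) A (algebraMap k (inv ρ) c) = algebraMap k A c := by
    intro c
    rw [IsScalarTower.algebraMap_apply (inv ρ) K A, IsScalarTower.algebraMap_apply k K A]
    rfl
  -- `τ : A → A` maps `θ₂` to `θ₁`
  let τ' : A ≃ₐ[k] A := AlgEquiv.ofRingEquiv (f := (τ : A ≃+* A)) (fun c => by
    change τ _ = _
    rw [← htow, τ.commutes])
  have hτ' : ∀ z, τ' z = τ z := fun z => rfl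
  -- `τ'` maps `K` to `K`
  have hK : ∀ a : K, ∃ b : K, τ' (algebraMap K A a) = algebraMap K A b := by
    intro a
    exact ⟨τ.restrictNormal K a, (AlgEquiv.restrictNormal_commutes τ K a).symm⟩
  have hE1 : ∀ a ∈ E₁, τ' a ∈ E₁ := by
    intro a ha
    have h3 : ((AlgEquiv.restrictNormalHom E₁ τ' ⟨a, ha⟩ : E₁) : A) = τ' a :=
      AlgEquiv.restrictNormal_commutes τ' E₁ ⟨a, ha⟩
    rw [← h3]
    exact Subtype.mem _
  -- automorphisms over `K` and `E₁` fix `θ₂`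
  have hA1 : ∀ σ ∈ overK k K A, (∀ z ∈ E₁, σ z = z) → σ θ₂ = θ₂ := by
    intro σ hσ hσ'
    have h3 : Diag ρ E₁ φ₁ (τ' * σ * τ'⁻¹) := by
      have hK' : ∀ a : K, ∃ b : K, τ'.symm (algebraMap K A a) = algebraMap K A b := by
        intro a
        have h4 : (τ.symm.restrictNormal K a : K) = τ.symm.restrictNormal K a := rfl
        exact ⟨τ.symm.restrictNormal K a, (AlgEquiv.restrictNormal_commutes τ.symm K a).symm⟩
      have hE' : ∀ a ∈ E₁, τ'.symm a ∈ E₁ := by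
        intro a ha
        have h3 : ((AlgEquiv.restrictNormalHom E₁ τ'.symm ⟨a, ha⟩ : E₁) : A) = τ'.symm a :=
          AlgEquiv.restrictNormal_commutes τ'.symm E₁ ⟨a, ha⟩
        rw [← h3]
        exact Subtype.mem _
      refine ⟨1, fun a => ?_, fun z => ?_⟩
      · obtain ⟨b, hb⟩ := hK' a
        change τ' (σ (τ'.symm (algebraMap K A a))) = _
        rw [hb, hσ, ← hb, AlgEquiv.apply_symm_apply, map_one]
        rfl
      · change τ' (σ (τ'.symm (z : A))) = _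
        rw [hσ' _ (hE' z z.2), AlgEquiv.apply_symm_apply, map_one]
        rfl
    have h4 := h1 _ h3
    change τ' (σ (τ'.symm θ₁)) = θ₁ at h4
    have h5 : τ'.symm θ₁ = θ₂ := by
      rw [AlgEquiv.symm_apply_eq, hτ', hτ]
    rw [h5] at h4
    rw [← h5, AlgEquiv.eq_symm_apply, h5, h4]
  have hA2 : ∀ σ ∈ overK k K A, (∀ z ∈ E₂, σ z = z) → σ θ₂ = θ₂ := by
    intro σ hσ hσ'
    refine h2 σ ⟨1, fun a => ?_, fun z => ?_⟩
    · rw [hσ, map_one]; rfl
    · rw [hσ' z z.2, map_one]; rfl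
  -- `θ₂` is in `K`
  have hθK : θ₂ ∈ Set.range (algebraMap K A) := by
    refine mem_range_of_fixed (k := k) fun γ hγ => ?_
    have hb : ∀ z : E₁, ((AlgEquiv.restrictNormalHom E₁ γ z : E₁) : A) = γ z :=
      fun z => AlgEquiv.restrictNormal_commutes γ E₁ z
    obtain ⟨γ₁, h3, h4, h5⟩ := exists_over_two (K := K) hreg E₁ E₂ hE
      (AlgEquiv.restrictNormalHom E₁ γ)
    have h6 : (γ₁⁻¹ * γ) θ₂ = θ₂ := by
      refine hA1 _ (mul_mem (inv_mem h3) hγ) fun z hz => ?_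
      change γ₁.symm (γ z) = z
      rw [AlgEquiv.symm_apply_eq]
      have h7 := h4 ⟨z, hz⟩
      rw [hb] at h7
      exact h7.symm
    have h7 : γ₁ θ₂ = θ₂ := hA2 _ h3 h5
    change γ₁.symm (γ θ₂) = θ₂ at h6
    rw [AlgEquiv.symm_apply_eq, h7] at h6
    exact h6
  obtain ⟨a, rfl⟩ := hθK
  refine ⟨a, mem_inv.2 fun g => ?_, rfl⟩
  obtain ⟨σ, hσ, hσ'⟩ := exists_diag (A := A) ρ hreg E₂ φ₂ g
  have h3 := h2 σ ⟨g, hσ, hσ'⟩
  rw [hσ] at h3
  exact (algebraMap K A).injective h3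

end main

end Pool.Agent.Helper44q.Q
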