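import Pool.Agent.Helper44q.Q.Rel

/-! Closure properties of the class of groups whose quotient varieties have the Hilbert property. -/

set_option autoImplicit false

namespace Pool.Agent.Helper44q.Q

open W560.HP
open Pool.Agent.H391R2.T4 (RegSol)
open Pool.Agent.TH444.TW (Cls)
open Pool.Agent.N600.UK (Univ)

/-- For all faithful linear actions of the group `G` over `k`, the varieties with the field of
invariants as function field have the Hilbert property. -/
def NoetherHP (k G : Type) [Field k] [Group G] : Prop :=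
  ∀ (K : Type) [Field K] [Algebra k K] (ρ : G →* (K ≃ₐ[k] K)), IsLinear ρ → HilbertType k (inv ρ)

section

variable {k : Type} [Field k] [CharZero k]
  (hk : ∃ S : Finset k, IntermediateField.adjoin ℚ (S : Set k) = ⊤)

include hk in
theorem noether_iff {G : Type} [Group G] [Finite G] : NoetherHP k G ↔
    ∀ L : IntermediateField k (AlgebraicClosure k), FiniteDimensional k L →
      ∃ E : IntermediateField k (AlgebraicClosure k), FiniteDimensional k E ∧ IsGalois k E ∧
        Nonempty ((E ≃ₐ[k] E) ≃* G) ∧ E ⊓ L = ⊥ := by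
  constructor
  · intro h
    obtain ⟨n, ρ, hρ⟩ := exists_linear k G
    exact ((tfae hk ρ hρ).out 0 2).1 (h _ ρ hρ)
  · intro h K _ _ ρ hρ
    exact ((tfae hk ρ hρ).out 0 2).2 h

include hk in
theorem noether_pow {G : Type} [Group G] [Finite G] : NoetherHP k G ↔
    ∀ m : ℕ, IsGaloisGroupOver k (Fin m → G) := by
  constructor
  · intro h
    obtain ⟨n, ρ, hρ⟩ := exists_linear k G
    exact ((tfae hk ρ hρ).out 0 1).1 (h _ ρ hρ)
  · intro h K _ _ ρ hρ
    exact ((tfae hk ρ hρ).out 0 1).2 h

omit [CharZero k] in
theorem IsGaloisGroupOver.quot {H H' : Type} [Group H] [Group H'] (h : IsGaloisGroupOver k H)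
    (f : H →* H') (hf : Function.Surjective f) : IsGaloisGroupOver k H' := by
  obtain ⟨F, _, _, h1, h2, ⟨ψ⟩⟩ := h
  let g : (F ≃ₐ[k] F) →* H' := f.comp (ψ : (F ≃ₐ[k] F) →* H)
  have hg : Function.Surjective g := hf.comp ψ.surjective
  exact ⟨IntermediateField.fixedField g.ker, inferInstance, inferInstance, inferInstance,
    inferInstance, ⟨((QuotientGroup.quotientKerEquivOfSurjective g hg).symm.trans
      (IsGalois.normalAutEquivQuotient g.ker)).symm⟩⟩

include hk in
theorem noether_quot {X Y : Type} [Group X] [Group Y] [Finite X] (f : X →* Y)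
    (hf : Function.Surjective f) (h : NoetherHP k X) : NoetherHP k Y := by
  have : Finite Y := Finite.of_surjective f hf
  rw [noether_pow hk] at h ⊢
  intro m
  refine (h m).quot (MonoidHom.compLeft f (Fin m)) ?_
  intro y
  choose x hx using fun i => hf (y i)
  exact ⟨x, funext hx⟩

include hk in
theorem noether_step {W W' : Type} [Group W] [Group W'] [Finite W] [Finite W'] (p : W' →* W)
    (hp : ∀ (E : Type) [Field E] [Algebra k E] [FiniteDimensional k E] [IsGalois k E]
      (ε : (E ≃ₐ[k] E) ≃* W), RegSol k E W' (ε.symm.toMonoidHom.comp p))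
    (h : NoetherHP k W) : NoetherHP k W' := by
  rw [noether_iff hk] at h ⊢
  intro L hL
  let L' : IntermediateField k (AlgebraicClosure k) :=
    IntermediateField.normalClosure k L (AlgebraicClosure k)
  have hL'1 : FiniteDimensional k L' := normalClosure.is_finiteDimensional k L _
  have hL'2 : Normal k L' := normalClosure.normal k L _
  have hL'3 : IsGalois k L' := { }
  have hLL' : L ≤ L' := IntermediateField.le_normalClosure L
  obtain ⟨E, hE1, hE2, ⟨ε⟩, hEL⟩ := h L' hL'1
  obtain ⟨F, _, _, _, _, _, _, _, _, γ, -, hreg⟩ := hp E ε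
  have hS : FinGen k (RatFunc k) :=
    ⟨{RatFunc.X}, by rw [Finset.coe_singleton]; exact RatFunc.adjoin_X⟩
  have hHP : HilbertType k (RatFunc k) := hilbertType_of_hpf (hpf_ratFunc (hilbNR_of_fg hk))
  obtain ⟨E', h1, h2, h3, h4⟩ := disj_rel (S := RatFunc k) (K := F) γ E (fun a ha => by
    refine hreg a ?_
    exact ha.extendScalars (algebraMap k E).injective) hS (fun X _ p _ hX => (hHP X p hX).1) L' hEL
  exact ⟨E', h1, h2, h3, le_bot_iff.1 ((inf_le_inf_left E' hLL').trans h4.le)⟩

include hk in
theorem noether_cls {W W' : Type} [Group W] [Group W'] [Finite W] (p : W' →* W) (hp : Cls k p)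
    (h : NoetherHP k W) : NoetherHP k W' := by
  have : Finite W' := hp.finite
  exact noether_step hk p (fun E _ _ _ _ ε => hp.rsk k E ε) h

include hk in
theorem noether_univ {T X : Type} [Group T] [Group X] (N : Subgroup X) [N.Normal] (hT : Univ T)
    (hN : Nonempty (N ≃* T)) (hfin : Finite (X ⧸ N)) : NoetherHP k X ↔ NoetherHP k (X ⧸ N) := by
  have hTf : Finite T := hT.main.1
  obtain ⟨e⟩ := hN
  have hNf : Finite N := Finite.of_equiv _ e.symm.toEquiv
  have hX : Finite X := Finite.of_subgroup_quotient N
  refine ⟨noether_quot hk (QuotientGroup.mk' N) (QuotientGroup.mk'_surjective N), fun h => ?_⟩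
  refine noether_step hk (QuotientGroup.mk' N) (fun E _ _ _ _ ε => ?_) h
  refine hT.reg k E X _ (ε.symm.surjective.comp (QuotientGroup.mk'_surjective N)) ⟨?_⟩
  refine (MulEquiv.subgroupCongr ?_).trans e
  ext x
  rw [MonoidHom.mem_ker]
  change ε.symm (QuotientGroup.mk' N x) = 1 ↔ _
  rw [map_eq_one_iff ε.symm ε.symm.injective]
  exact QuotientGroup.eq_one_iff x

include hk in
theorem noether_unit {G : Type} [Group G] [Subsingleton G] : NoetherHP k G := by
  rw [noether_pow hk]
  intro m
  refine ⟨k, inferInstance, inferInstance, inferInstance, inferInstance, ⟨?_⟩⟩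
  have h1 : Subsingleton (k ≃ₐ[k] k) := ⟨fun σ τ => AlgEquiv.ext fun x => by
    have h1 := σ.commutes x
    have h2 := τ.commutes x
    exact h1.trans h2.symm⟩
  exact { toFun := fun _ => 1, invFun := fun _ => 1, left_inv := fun x => Subsingleton.elim _ _,
          right_inv := fun x => Subsingleton.elim _ _,
          map_mul' := fun x y => Subsingleton.elim _ _ }

end

end Pool.Agent.Helper44q.Q
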