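import Mathlib

/-! Galois descent for vector spaces, in coordinates. -/

set_option autoImplicit false

namespace Pool.Agent.Helper44q.Q

open Matrix

theorem speiser {k E G : Type} [Field k] [Field E] [Algebra k E] [Group G] [Finite G]
    (φ : G ≃* (E ≃ₐ[k] E)) (n : ℕ) (M : G → Matrix (Fin n) (Fin n) k) (h1 : M 1 = 1)
    (hmul : ∀ g h, M (g * h) = M g * M h) :
    ∃ W : Matrix (Fin n) (Fin n) E, IsUnit W ∧
      ∀ g i j, φ g (W i j) = ∑ l, algebraMap k E (M g l j) * W i l := by
  classical
  have := Fintype.ofFinite G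
  let Λ : Set (Fin n → E) := {w | ∀ g j, φ g (w j) = ∑ l, algebraMap k E (M g l j) * w l}
  -- averages
  have hav : ∀ (e : E) (i : Fin n),
      (fun j => ∑ g : G, φ g e * algebraMap k E (M g⁻¹ i j)) ∈ Λ := by
    intro e i h j
    have h2 : ∀ g : G, φ h (φ g e * algebraMap k E (M g⁻¹ i j)) =
        ∑ l, algebraMap k E (M h l j) *
          (φ (h * g) e * algebraMap k E (M (h * g)⁻¹ i l)) := by
      intro g
      have h3 : M g⁻¹ i j = ∑ l, M (h * g)⁻¹ i l * M h l j := by
        have h4 : M g⁻¹ = M (h * g)⁻¹ * M h := by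
          rw [← hmul]
          congr 1
          group
        rw [h4, Matrix.mul_apply]
      rw [map_mul, AlgEquiv.commutes, h3, map_sum, Finset.mul_sum]
      refine Finset.sum_congr rfl fun l _ => ?_
      rw [map_mul φ h g, AlgEquiv.mul_apply, map_mul]
      ring
    beta_reduce
    rw [map_sum, Finset.sum_congr rfl (fun g _ => h2 g), Finset.sum_comm]
    refine Finset.sum_congr rfl fun l _ => ?_
    rw [← Finset.mul_sum]
    congr 1
    exact Fintype.sum_equiv (Equiv.mulLeft h) _ _ fun g => rfl
  have hspan : Submodule.span E Λ = ⊤ := by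
    by_contra hne
    obtain ⟨f, hf0, hf⟩ := Submodule.exists_le_ker_of_lt_top _ (lt_top_iff_ne_top.2 hne)
    have hfe : ∀ w : Fin n → E, f w = ∑ j, w j * f (Pi.single j 1) := by
      intro w
      conv_lhs => rw [pi_eq_sum_univ' w]
      rw [map_sum]
      refine Finset.sum_congr rfl fun j _ => ?_
      rw [map_smul, smul_eq_mul]
    have hz : ∀ (e : E) (i : Fin n),
        ∑ g : G, (∑ j, algebraMap k E (M g⁻¹ i j) * f (Pi.single j 1)) * φ g e = 0 := by
      intro e i
      have h2 : f _ = 0 := hf (Submodule.subset_span (hav e i))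
      rw [hfe] at h2
      rw [← h2]
      simp only [Finset.sum_mul]
      rw [Finset.sum_comm]
      refine Finset.sum_congr rfl fun j _ => Finset.sum_congr rfl fun g _ => ?_
      ring
    have hind : LinearIndependent E (fun g : G => ((φ g : E →* E) : E → E)) := by
      have h3 := linearIndependent_monoidHom E E
      refine h3.comp (fun g : G => ((φ g : E ≃ₐ[k] E) : E →* E)) ?_
      intro g g' hgg
      apply φ.injective
      ext z
      exact DFunLike.congr_fun hgg z
    have hc : ∀ (i : Fin n) (g : G), ∑ j, algebraMap k E (M g⁻¹ i j) * f (Pi.single j 1) = 0 := by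
      intro i
      have h3 := Fintype.linearIndependent_iff.1 hind
        (fun g => ∑ j, algebraMap k E (M g⁻¹ i j) * f (Pi.single j 1)) (by
          ext e
          rw [Finset.sum_apply]
          simp only [Pi.smul_apply, smul_eq_mul, Pi.zero_apply]
          exact hz e i)
      exact h3
    apply hf0
    apply LinearMap.ext
    intro w
    rw [hfe, LinearMap.zero_apply]
    refine Finset.sum_eq_zero fun i _ => ?_
    have h4 := hc i 1
    rw [inv_one, h1] at h4
    have h5 : ∑ j, algebraMap k E ((1 : Matrix (Fin n) (Fin n) k) i j) * f (Pi.single j 1) =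
        f (Pi.single i 1) := by
      rw [Finset.sum_eq_single i]
      · rw [Matrix.one_apply_eq, map_one, one_mul]
      · intro j _ hj
        rw [Matrix.one_apply_ne (Ne.symm hj), map_zero, zero_mul]
      · intro h; exact absurd (Finset.mem_univ i) h
    rw [h5] at h4
    rw [h4, mul_zero]
  obtain ⟨b, hb, hbs, hbi⟩ := exists_linearIndependent E Λ
  rw [hspan] at hbs
  let B : Module.Basis b E (Fin n → E) := Module.Basis.mk hbi (by
    rw [Subtype.range_coe_subtype, Set.ofPred_mem_eq, hbs])
  have hbf : Finite b := Module.Finite.finite_basis B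
  have := Fintype.ofFinite b
  have hcard : Fintype.card b = Fintype.card (Fin n) := by
    rw [← Module.finrank_eq_card_basis B, Module.finrank_fin_fun, Fintype.card_fin]
  let ε : Fin n ≃ b := (Fintype.equivOfCardEq hcard).symm
  refine ⟨Matrix.of fun i => (ε i : Fin n → E), ?_, ?_⟩
  · rw [← Matrix.linearIndependent_rows_iff_isUnit]
    exact hbi.comp ε ε.injective
  · intro g i j
    exact hb (ε i).2 g j

end Pool.Agent.Helper44q.Q
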