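import Pool.Agent.Helper44q.Q.Coef
import Pool.Agent.Helper44q.Q.Spe

/-! The twists of a linear action are rational. -/

set_option autoImplicit false

namespace Pool.Agent.Helper44q.Q

open IntermediateField

section sub

variable {E : Type} [Field E] {n : ℕ}

/-- linear substitutions -/
noncomputable def sub (N : Matrix (Fin n) (Fin n) E) :
    MvPolynomial (Fin n) E →ₐ[E] MvPolynomial (Fin n) E :=
  MvPolynomial.aeval fun j => ∑ i, MvPolynomial.C (N i j) * MvPolynomial.X i

theorem sub_X (N : Matrix (Fin n) (Fin n) E) (j : Fin n) :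
    sub N (MvPolynomial.X j) = ∑ i, MvPolynomial.C (N i j) * MvPolynomial.X i := by
  rw [sub, MvPolynomial.aeval_X]

theorem sub_sub (N N' : Matrix (Fin n) (Fin n) E) (p : MvPolynomial (Fin n) E) :
    sub N (sub N' p) = sub (N * N') p := by
  have h : (sub N).comp (sub N') = sub (N * N') := by
    apply MvPolynomial.algHom_ext
    intro j
    rw [AlgHom.comp_apply, sub_X, sub_X, map_sum]
    have h1 : ∀ i, sub N (MvPolynomial.C (N' i j) * MvPolynomial.X i) =
        ∑ l, MvPolynomial.C (N l i * N' i j) * MvPolynomial.X l := by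
      intro i
      rw [map_mul, sub_X]
      have h2 : sub N (MvPolynomial.C (N' i j)) = MvPolynomial.C (N' i j) :=
        MvPolynomial.algHom_C _ _
      rw [h2, Finset.mul_sum]
      refine Finset.sum_congr rfl fun l _ => ?_
      rw [MvPolynomial.C_mul]
      ring
    rw [Finset.sum_congr rfl fun i _ => h1 i, Finset.sum_comm]
    refine Finset.sum_congr rfl fun l _ => ?_
    rw [Matrix.mul_apply, map_sum, Finset.sum_mul]
  exact AlgHom.congr_fun h p

theorem sub_one (p : MvPolynomial (Fin n) E) : sub (1 : Matrix (Fin n) (Fin n) E) p = p := by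
  have h : sub (1 : Matrix (Fin n) (Fin n) E) = AlgHom.id E _ := by
    apply MvPolynomial.algHom_ext
    intro j
    rw [sub_X, Finset.sum_eq_single j]
    · rw [Matrix.one_apply_eq, map_one, one_mul]; rfl
    · intro i _ hi
      rw [Matrix.one_apply_ne hi, map_zero, zero_mul]
    · intro h; exact absurd (Finset.mem_univ j) h
  rw [h]
  rfl

theorem sub_injective (N : Matrix (Fin n) (Fin n) E) (hN : IsUnit N) :
    Function.Injective (sub N) := by
  have h1 : N⁻¹ * N = 1 := Matrix.nonsing_inv_mul N ((Matrix.isUnit_iff_isUnit_det N).1 hN)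
  intro p q hpq
  have h2 := congrArg (sub N⁻¹) hpq
  rw [sub_sub, sub_sub, h1, sub_one, sub_one] at h2
  exact h2

/-- the images of the variables -/
noncomputable def lin (W : Matrix (Fin n) (Fin n) E) (j : Fin n) : Rat' E n :=
  ∑ i, algebraMap E (Rat' E n) (W i j) * yv E n i

theorem algInd_lin (k : Type) [Field k] [Algebra k E] (W : Matrix (Fin n) (Fin n) E)
    (hW : IsUnit W) : AlgebraicIndependent k (lin W) := by
  have h1 : AlgebraicIndependent E (lin W) := by
    have h2 : (MvPolynomial.aeval (lin W) : MvPolynomial (Fin n) E →ₐ[E] Rat' E n) =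
        (IsScalarTower.toAlgHom E (MvPolynomial (Fin n) E) (Rat' E n)).comp (sub W) := by
      apply MvPolynomial.algHom_ext
      intro j
      rw [MvPolynomial.aeval_X, AlgHom.comp_apply, sub_X, map_sum]
      refine Finset.sum_congr rfl fun i _ => ?_
      rw [map_mul]
      congr 1
    rw [algebraicIndependent_iff_injective_aeval, h2]
    exact (IsFractionRing.injective (MvPolynomial (Fin n) E) (Rat' E n)).comp (sub_injective W hW)
  exact h1.restrictScalars (algebraMap k E).injective

theorem yv_eq (W : Matrix (Fin n) (Fin n) E) (hW : IsUnit W) (l : Fin n) :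
    yv E n l = ∑ j, algebraMap E (Rat' E n) (W⁻¹ j l) * lin W j := by
  have h1 : W * W⁻¹ = 1 := Matrix.mul_nonsing_inv W ((Matrix.isUnit_iff_isUnit_det W).1 hW)
  have h2 : ∀ j, algebraMap E (Rat' E n) (W⁻¹ j l) * lin W j =
      ∑ i, algebraMap E (Rat' E n) (W i j * W⁻¹ j l) * yv E n i := by
    intro j
    rw [lin, Finset.mul_sum]
    refine Finset.sum_congr rfl fun i _ => ?_
    rw [map_mul]
    ring
  rw [Finset.sum_congr rfl fun j _ => h2 j, Finset.sum_comm]
  have h3 : ∀ i, ∑ j, algebraMap E (Rat' E n) (W i j * W⁻¹ j l) * yv E n i =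
      algebraMap E (Rat' E n) ((1 : Matrix (Fin n) (Fin n) E) i l) * yv E n i := by
    intro i
    rw [← Finset.sum_mul, ← map_sum, ← Matrix.mul_apply, h1]
  rw [Finset.sum_congr rfl fun i _ => h3 i, Finset.sum_eq_single l]
  · rw [Matrix.one_apply_eq, map_one, one_mul]
  · intro i _ hi
    rw [Matrix.one_apply_ne hi, map_zero, zero_mul]
  · intro h; exact absurd (Finset.mem_univ l) h

end sub

section main

variable {k K E G : Type} [Field k] [Field K] [Field E] [Algebra k K] [Algebra k E] [Group G]

/-- the matrices of a linear action -/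
theorem matrices (ρ : G →* (K ≃ₐ[k] K)) {n : ℕ} (t : Fin n → K) (ht : LinearIndependent k t)
    (hlin : ∀ g j, ρ g (t j) ∈ Submodule.span k (Set.range t)) :
    ∃ M : G → Matrix (Fin n) (Fin n) k, M 1 = 1 ∧ (∀ g h, M (g * h) = M g * M h) ∧
      ∀ g j, ρ g (t j) = ∑ i, algebraMap k K (M g i j) * t i := by
  have h1 : ∀ g j, ∃ c : Fin n → k, ∑ i, c i • t i = ρ g (t j) := by
    intro g j
    exact (Submodule.mem_span_range_iff_exists_fun k).1 (hlin g j)
  choose c hc using h1
  have hM : ∀ g j, ρ g (t j) = ∑ i, algebraMap k K ((Matrix.of fun i j => c g j i) i j) * t i := by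
    intro g j
    rw [← hc g j]
    refine Finset.sum_congr rfl fun i _ => ?_
    rw [Algebra.smul_def]
    rfl
  have huniq : ∀ N N' : Matrix (Fin n) (Fin n) k,
      (∀ j, ∑ i, algebraMap k K (N i j) * t i = ∑ i, algebraMap k K (N' i j) * t i) → N = N' := by
    intro N N' h
    ext i j
    have h2 := h j
    have h3 : ∑ i, (N i j - N' i j) • t i = 0 := by
      rw [← sub_eq_zero, ← Finset.sum_sub_distrib] at h2
      rw [← h2]
      refine Finset.sum_congr rfl fun i _ => ?_
      rw [Algebra.smul_def, map_sub, sub_mul]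
    exact sub_eq_zero.1 (Fintype.linearIndependent_iff.1 ht _ h3 i)
  refine ⟨fun g => Matrix.of fun i j => c g j i, huniq _ _ fun j => ?_, fun g h =>
    huniq _ _ fun j => ?_, hM⟩
  · rw [← hM 1 j, map_one, Finset.sum_eq_single j]
    · rw [Matrix.one_apply_eq, map_one, one_mul]; rfl
    · intro i _ hi
      rw [Matrix.one_apply_ne hi, map_zero, zero_mul]
    · intro h; exact absurd (Finset.mem_univ j) h
  · rw [← hM (g * h) j, map_mul, AlgEquiv.mul_apply, hM h j, map_sum]
    have h2 : ∀ i, ρ g (algebraMap k K ((Matrix.of fun i j => c h j i) i j) * t i) =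
        ∑ l, algebraMap k K ((Matrix.of fun i j => c g j i) l i * (Matrix.of fun i j => c h j i) i j)
          * t l := by
      intro i
      rw [map_mul, AlgEquiv.commutes, hM g i, Finset.mul_sum]
      refine Finset.sum_congr rfl fun l _ => ?_
      rw [map_mul]
      ring
    rw [Finset.sum_congr rfl fun i _ => h2 i, Finset.sum_comm]
    refine Finset.sum_congr rfl fun l _ => ?_
    rw [Matrix.mul_apply, map_sum, Finset.sum_mul]

/-- the twist of a linear action by `E` is rational -/
theorem linear_twist [Finite G] [CharZero k] [FiniteDimensional k E] [IsGalois k E]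
    (ρ : G →* (K ≃ₐ[k] K)) {n : ℕ} (t : Fin n → K) (ht : AlgebraicIndependent k t)
    (htop : IntermediateField.adjoin k (Set.range t) = ⊤)
    (hlin : ∀ g j, ρ g (t j) ∈ Submodule.span k (Set.range t)) (φ : G ≃* (E ≃ₐ[k] E)) :
    IsTwist ρ φ (Rat' k n) := by
  obtain ⟨M, h1, hmul, hM⟩ := matrices ρ t ht.linearIndependent hlin
  obtain ⟨W, hW, hWM⟩ := speiser φ n M h1 hmul
  obtain ⟨j, hj⟩ := Pool.Agent.W240.HP.lift k K (Rat' E n) (Fin n) t (lin W) ht
    (algInd_lin k W hW) htop
  obtain ⟨τ, hτ⟩ := Pool.Agent.W240.HP.lift k (Rat' k n) (Rat' E n) (Fin n) (yv k n) (yv E n)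
    (algInd_yv k k n) (algInd_yv k E n) (adjoin_yv k n)
  have hrange : τ.fieldRange = IntermediateField.adjoin k (Set.range (yv E n)) := by
    rw [AlgHom.fieldRange_eq_map, ← adjoin_yv k n, IntermediateField.adjoin_map]
    congr 1
    rw [← Set.range_comp]
    congr 1
    funext i
    exact hτ i
  refine ⟨Rat' E n, inferInstance, inferInstance, IsScalarTower.toAlgHom k E (Rat' E n), j, τ,
    coef n φ, ?_, fun g a => coef1_C n (φ g) a, fun g a => ?_, fun z => ⟨?_, fun hz => ?_⟩⟩
  · rw [eq_top_iff, ← gen_E (k := k) (E := E) n]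
    refine sup_le le_sup_left ?_
    rw [IntermediateField.adjoin_le_iff]
    rintro _ ⟨l, rfl⟩
    rw [yv_eq W hW l]
    refine sum_mem fun i _ => mul_mem ?_ ?_
    · exact le_sup_left (a := (IsScalarTower.toAlgHom k E (Rat' E n)).fieldRange)
        ⟨W⁻¹ i l, rfl⟩
    · rw [← hj i]
      exact le_sup_right (a := (IsScalarTower.toAlgHom k E (Rat' E n)).fieldRange)
        ⟨t i, rfl⟩
  · have h2 : (coef n φ g : Rat' E n →ₐ[k] Rat' E n).comp j =
        j.comp (ρ g : K →ₐ[k] K) := by
      refine alg_hom_ext_adjoin htop _ _ ?_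
      rintro _ ⟨l, rfl⟩
      change coef1 n (φ g) (j (t l)) = j (ρ g (t l))
      rw [hj, hM, map_sum, lin, map_sum]
      have h3 : ∀ i, coef1 n (φ g) (algebraMap E (Rat' E n) (W i l) * yv E n i) =
          ∑ m, algebraMap E (Rat' E n) (algebraMap k E (M g m l) * W i m) * yv E n i := by
        intro i
        rw [map_mul, coef1_C, coef1_yv, hWM g i l, map_sum, Finset.sum_mul]
      rw [Finset.sum_congr rfl fun i _ => h3 i, Finset.sum_comm]
      refine Finset.sum_congr rfl fun m _ => ?_
      rw [map_mul, j.commutes, hj, lin, Finset.mul_sum]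
      refine Finset.sum_congr rfl fun i _ => ?_
      rw [map_mul, ← IsScalarTower.algebraMap_apply]
      ring
    exact AlgHom.congr_fun h2 a
  · intro hz g
    rw [hrange] at hz
    have h : IntermediateField.adjoin k (Set.range (yv E n)) ≤
        eqField (coef n φ g : Rat' E n →ₐ[k] Rat' E n) (AlgHom.id k _) := by
      rw [adjoin_le_iff]
      rintro _ ⟨i, rfl⟩
      exact coef1_yv n (φ g) i
    exact h hz
  · rw [hrange]
    exact mem_of_fixed n φ z hz

/-- the Hilbert property of the field of rational functions -/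
theorem hpf_rat (k : Type) [Field k] (hk : W560.HP.HilbNR k) (n : ℕ) :
    W560.HP.HPF k (Rat' k n) := by
  have h1 := Pool.Agent.W790.HP.hpf k (Rat' k n) (Fin n) (yv k n) ⊤ hk (algInd_yv k k n)
    (adjoin_yv k n) (fun x _ => IntermediateField.mem_top)
  exact Pool.Agent.W74.HP.hpi k _ _ ⟨IntermediateField.topEquiv⟩ h1

end main

end Pool.Agent.Helper44q.Q
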