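import Pool.Agent.Helper44q.Q.Key
import Pool.Agent.TH178.HI.CritFin
import Pool.Agent.R70.HC.Defs

/-! Definitions for the theorem on quotients. -/

set_option autoImplicit false

namespace Pool.Agent.Helper44q.Q

open AlgebraicGeometry CategoryTheory W560.HP
open Pool.Agent.TH178.HI (HasFunctionField)
open Pool.Agent.R70.HC (HilbertPropertyIso)

/-- The extension `S` of `k` is finitely generated (as a field). -/
def FinGen (k S : Type) [Field k] [Field S] [Algebra k S] : Prop :=
  ∃ F : Finset S, IntermediateField.adjoin k (F : Set S) = ⊤

/-- All integral `k`-schemes, locally of finite type, with function field `S` have the Hilbert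
property (for the normal ones: with respect to all covers which are not isomorphisms). -/
def HilbertType (k S : Type) [Field k] [Field S] [Algebra k S] : Prop :=
  ∀ (X : Scheme.{0}) [IsIntegral X] (p : X ⟶ Spec (CommRingCat.of k)) [LocallyOfFiniteType p],
    HasFunctionField k X p S → HilbertProperty k X p ∧
      ((∀ x : X, IsIntegrallyClosed (X.presheaf.stalk x)) → HilbertPropertyIso k X p)

/-- The action of `G` on the field `K` is a faithful linear action: `K = k(t_1, …, t_n)` is the field
of rational functions on a vector space with the linear forms `∑ c_i t_i`, and `G` acts faithfully by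
linear transformations of these forms. -/
def IsLinear {k K G : Type} [Field k] [Field K] [Algebra k K] [Group G]
    (ρ : G →* (K ≃ₐ[k] K)) : Prop :=
  Function.Injective ρ ∧ ∃ (n : ℕ) (t : Fin n → K), AlgebraicIndependent k t ∧
    IntermediateField.adjoin k (Set.range t) = ⊤ ∧
    ∀ (g : G) (j : Fin n), ρ g (t j) ∈ Submodule.span k (Set.range t)

/-- `G` is the group of a finite Galois extension of `S` in which `k` is algebraically closed. -/
def OccursOver (k S G : Type) [Field k] [Field S] [Algebra k S] [Group G] : Prop :=
  ∃ (K : Type) (_ : Field K) (_ : Algebra k K) (_ : Algebra S K) (_ : IsScalarTower k S K),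
    FiniteDimensional S K ∧ IsGalois S K ∧ Nonempty ((K ≃ₐ[S] K) ≃* G) ∧
    ∀ a : K, IsAlgebraic k a → a ∈ Set.range (algebraMap k K)

end Pool.Agent.Helper44q.Q
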