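import Pool.Agent.Helper44q.Q.Reg
import Pool.Agent.Helper44q.Q.Defs
import Pool.Agent.W376.HP.NRM
import Pool.Agent.W405.HP.Hit
import Pool.Agent.W583.HP.FG

/-! Models of function fields with the Hilbert property. -/

set_option autoImplicit false

namespace Pool.Agent.Helper44q.Q

open AlgebraicGeometry CategoryTheory W560.HP
open Pool.Agent.TH178.HI (HasFunctionField)
open Pool.Agent.R70.HC (HilbertPropertyIso)

theorem hilbertType_of_hpf {k S : Type} [Field k] [Field S] [Algebra k S] (h : HPF k S) :
    HilbertType k S := by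
  intro X _ p _ hX
  obtain ⟨e, he⟩ := hX
  have h1 : HilbertProperty k X p := Pool.Agent.W253.HP.sch k X p S e he h
  refine ⟨h1, fun hn q Y π hY h2 h3 h4 => ?_⟩
  refine h1 q Y π hY h2 h3 fun i hs => ?_
  have := hY i
  exact h4 i (Pool.Agent.W376.HP.nrm X (Y i) (π i) hn (h2 i) (h3 i) hs)

theorem hilbNR_of_fg {k : Type} [Field k] [CharZero k]
    (hk : ∃ S : Finset k, IntermediateField.adjoin ℚ (S : Set k) = ⊤) : HilbNR k := by
  obtain ⟨S, hS⟩ := hk
  exact Pool.Agent.W405.HP.hit k (Pool.Agent.W583.HP.fg k S hS)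

/-- the Hilbert property of a purely transcendental extension -/
theorem hpf_pure {k K ι : Type} [Field k] [Field K] [Algebra k K] [Finite ι] (hk : HilbNR k)
    (t : ι → K) (ht : AlgebraicIndependent k t) (htop : IntermediateField.adjoin k (Set.range t) = ⊤) :
    HPF k K := by
  have h1 := Pool.Agent.W790.HP.hpf k K ι t ⊤ hk ht htop (fun x _ => IntermediateField.mem_top)
  exact Pool.Agent.W74.HP.hpi k _ _ ⟨IntermediateField.topEquiv⟩ h1

theorem hpf_ratFunc {k : Type} [Field k] (hk : HilbNR k) : HPF k (RatFunc k) := by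
  refine hpf_pure hk (fun _ : Unit => (RatFunc.X : RatFunc k)) ?_ ?_
  · exact algebraicIndependent_unique_type_iff.2 (RatFunc.transcendental_X)
  · rw [Set.range_const]
    exact RatFunc.adjoin_X

theorem finGen_pure {k K : Type} {n : ℕ} [Field k] [Field K] [Algebra k K] 
    (t : Fin n → K) (htop : IntermediateField.adjoin k (Set.range t) = ⊤) : FinGen k K := by
  classical
  exact ⟨Finset.univ.image t, by rw [Finset.coe_image, Finset.coe_univ, Set.image_univ, htop]⟩

theorem finGen_iff {k S : Type} [Field k] [Field S] [Algebra k S] :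
    FinGen k S ↔ Algebra.EssFiniteType k S :=
  Iff.trans Iff.rfl IntermediateField.fg_top_iff

theorem finGen_sub {k K : Type} [Field k] [Field K] [Algebra k K] (h : FinGen k K)
    (S : IntermediateField k K) : FinGen k S := by
  have h1 : Algebra.EssFiniteType k K := finGen_iff.1 h
  rw [finGen_iff, IntermediateField.essFiniteType_iff]
  exact Pool.Agent.N136.IS.fg_sub S

end Pool.Agent.Helper44q.Q
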