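import Pool.Agent.Helper44q.Q.Gen

/-! The Hilbert property of quotients. -/

set_option autoImplicit false
set_option linter.unusedSectionVars false

namespace Pool.Agent.Helper44q.Q

open IntermediateField Polynomial

section

variable {k K G : Type} [Field k] [Field K] [Algebra k K] [Group G]

/-- two twists by linearly disjoint extensions -/
theorem two_twists [Finite G] [CharZero k] (ρ : G →* (K ≃ₐ[k] K))
    (hreg : ∀ a : K, IsAlgebraic k a → a ∈ Set.range (algebraMap k K))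
    (E₁ E₂ : IntermediateField k (AlgebraicClosure k)) [FiniteDimensional k E₁] [IsGalois k E₁]
    [FiniteDimensional k E₂] [IsGalois k E₂] (hE : E₁ ⊓ E₂ = ⊥)
    (φ₁ : G ≃* (E₁ ≃ₐ[k] E₁)) (φ₂ : G ≃* (E₂ ≃ₐ[k] E₂)) (T₁ T₂ : Type) [Field T₁] [Field T₂]
    [Algebra k T₁] [Algebra k T₂]
    (e₁ : E₁ →ₐ[k] AlgebraicClosure K) (v₁ : T₁ →ₐ[k] AlgebraicClosure K)
    (ι₁ : inv ρ →ₐ[k] T₁) (h1 : ∀ s : inv ρ, v₁ (ι₁ s) = algebraMap K (AlgebraicClosure K) s)
    (h1' : ∀ σ : AlgebraicClosure K ≃ₐ[k] AlgebraicClosure K, ∀ g, Over ρ σ g →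
      (∀ a : E₁, σ (e₁ a) = e₁ (φ₁ g a)) → ∀ z, σ (v₁ z) = v₁ z)
    (e₂ : E₂ →ₐ[k] AlgebraicClosure K) (v₂ : T₂ →ₐ[k] AlgebraicClosure K)
    (ι₂ : inv ρ →ₐ[k] T₂) (h2 : ∀ s : inv ρ, v₂ (ι₂ s) = algebraMap K (AlgebraicClosure K) s)
    (h2' : ∀ σ : AlgebraicClosure K ≃ₐ[k] AlgebraicClosure K, ∀ g, Over ρ σ g →
      (∀ a : E₂, σ (e₂ a) = e₂ (φ₂ g a)) → ∀ z, σ (v₂ z) = v₂ z)
    (Q : (inv ρ)[X]) (hQ : Irreducible Q) (hm : Q.Monic) (x₁ : T₁) (x₂ : T₂)
    (hx₁ : (Q.map (ι₁ : inv ρ →+* T₁)).eval x₁ = 0)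
    (hx₂ : (Q.map (ι₂ : inv ρ →+* T₂)).eval x₂ = 0) : ∃ a : inv ρ, Q.eval a = 0 := by
  have hcK : CharZero K := charZero_of_injective_algebraMap (algebraMap k K).injective
  let J : AlgebraicClosure k →ₐ[k] AlgebraicClosure K := IsAlgClosed.lift
  have e1 : e₁.fieldRange = (J.comp E₁.val).fieldRange := range_eq _ _
  have e2 : e₂.fieldRange = (J.comp E₂.val).fieldRange := range_eq _ _
  have hinf : e₁.fieldRange ⊓ e₂.fieldRange = ⊥ := by
    rw [e1, e2, eq_bot_iff]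
    rintro z ⟨⟨a, ha⟩, ⟨b, hb⟩⟩
    have h3 : (a : AlgebraicClosure k) = b := J.injective (ha.trans hb.symm)
    have h4 : (a : AlgebraicClosure k) ∈ E₁ ⊓ E₂ := ⟨a.2, h3 ▸ b.2⟩
    rw [hE, IntermediateField.mem_bot] at h4
    obtain ⟨c, hc⟩ := h4
    rw [IntermediateField.mem_bot]
    refine ⟨c, ?_⟩
    rw [← ha]
    change _ = J a
    rw [← hc, J.commutes]
  let ε₁ : E₁ ≃ₐ[k] e₁.fieldRange := AlgEquiv.ofInjectiveField e₁
  let ε₂ : E₂ ≃ₐ[k] e₂.fieldRange := AlgEquiv.ofInjectiveField e₂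
  have hε₁ : ∀ a, (ε₁ a : AlgebraicClosure K) = e₁ a := fun a => rfl
  have hε₂ : ∀ a, (ε₂ a : AlgebraicClosure K) = e₂ a := fun a => rfl
  have : FiniteDimensional k e₁.fieldRange := ε₁.toLinearEquiv.finiteDimensional
  have : FiniteDimensional k e₂.fieldRange := ε₂.toLinearEquiv.finiteDimensional
  have : IsGalois k e₁.fieldRange := IsGalois.of_algEquiv ε₁
  have : IsGalois k e₂.fieldRange := IsGalois.of_algEquiv ε₂
  let ψ₁ : G ≃* (e₁.fieldRange ≃ₐ[k] e₁.fieldRange) := φ₁.trans (AlgEquiv.autCongr ε₁)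
  let ψ₂ : G ≃* (e₂.fieldRange ≃ₐ[k] e₂.fieldRange) := φ₂.trans (AlgEquiv.autCongr ε₂)
  have hψ₁ : ∀ g a, ψ₁ g (ε₁ a) = ε₁ (φ₁ g a) := fun g a => by
    change ε₁ (φ₁ g (ε₁.symm (ε₁ a))) = _
    rw [AlgEquiv.symm_apply_apply]
  have hψ₂ : ∀ g a, ψ₂ g (ε₂ a) = ε₂ (φ₂ g a) := fun g a => by
    change ε₂ (φ₂ g (ε₂.symm (ε₂ a))) = _
    rw [AlgEquiv.symm_apply_apply]
  have key1 : ∀ σ, Diag ρ e₁.fieldRange ψ₁ σ → σ (v₁ x₁) = v₁ x₁ := by
    rintro σ ⟨g, hσ, hσ'⟩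
    refine h1' σ g hσ (fun a => ?_) x₁
    have h3 := hσ' (ε₁ a)
    rw [hψ₁] at h3
    exact h3
  have key2 : ∀ σ, Diag ρ e₂.fieldRange ψ₂ σ → σ (v₂ x₂) = v₂ x₂ := by
    rintro σ ⟨g, hσ, hσ'⟩
    refine h2' σ g hσ (fun a => ?_) x₂
    have h3 := hσ' (ε₂ a)
    rw [hψ₂] at h3
    exact h3
  have root1 : aeval (v₁ x₁) Q = 0 := by
    have h3 : (v₁ : T₁ →+* AlgebraicClosure K).comp (ι₁ : inv ρ →+* T₁) =
        algebraMap (inv ρ) (AlgebraicClosure K) := by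
      ext s
      exact h1 s
    have h4 := hom_eval₂ Q (ι₁ : inv ρ →+* T₁) (v₁ : T₁ →+* AlgebraicClosure K) x₁
    rw [← eval_map, hx₁, map_zero] at h4
    rw [aeval_def, ← h3]
    exact h4.symm
  have root2 : aeval (v₂ x₂) Q = 0 := by
    have h3 : (v₂ : T₂ →+* AlgebraicClosure K).comp (ι₂ : inv ρ →+* T₂) =
        algebraMap (inv ρ) (AlgebraicClosure K) := by
      ext s
      exact h2 s
    have h4 := hom_eval₂ Q (ι₂ : inv ρ →+* T₂) (v₂ : T₂ →+* AlgebraicClosure K) x₂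
    rw [← eval_map, hx₂, map_zero] at h4
    rw [aeval_def, ← h3]
    exact h4.symm
  have hconj : IsConjRoot (inv ρ) (v₁ x₁) (v₂ x₂) := by
    rw [isConjRoot_def, ← minpoly.eq_of_irreducible_of_monic hQ root1 hm,
      ← minpoly.eq_of_irreducible_of_monic hQ root2 hm]
  obtain ⟨a, ha, ha'⟩ := key (A := AlgebraicClosure K) ρ hreg _ _ hinf ψ₁ ψ₂ _ _ key1 key2 hconj
  refine ⟨⟨a, ha⟩, ?_⟩
  rw [← ha'] at root2
  have h5 : algebraMap (inv ρ) (AlgebraicClosure K) (Q.eval ⟨a, ha⟩) = 0 := by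
    rw [← root2, aeval_def]
    exact (eval₂_at_apply (algebraMap (inv ρ) (AlgebraicClosure K)) (⟨a, ha⟩ : inv ρ)).symm
  exact (map_eq_zero _).1 h5

/-- the data of the theorem on quotients: pairwise linearly disjoint Galois extensions of `k` with
group `G` whose twists have the Hilbert property -/
theorem quot [Finite G] [CharZero k] (ρ : G →* (K ≃ₐ[k] K))
    (hreg : ∀ a : K, IsAlgebraic k a → a ∈ Set.range (algebraMap k K))
    (H : ∀ r : ℕ, ∃ (E : Fin r → IntermediateField k (AlgebraicClosure k))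
      (φ : ∀ i, G ≃* (E i ≃ₐ[k] E i)), (∀ i, FiniteDimensional k (E i)) ∧
      (∀ i, IsGalois k (E i)) ∧ (∀ i j, i ≠ j → E i ⊓ E j = ⊥) ∧
      ∀ i, ∃ (T : Type) (_ : Field T) (_ : Algebra k T), IsTwist ρ (φ i) T ∧ W560.HP.HPF k T) :
    W560.HP.HPF k (inv ρ) := by
  classical
  have hcK : CharZero K := charZero_of_injective_algebraMap (algebraMap k K).injective
  intro q P hP S₀
  have hP0 : ∀ j, P j ≠ 0 := fun j h => hP j 0 (by rw [h, eval_zero])
  obtain ⟨L, hL⟩ : ∃ L : Finset (inv ρ)[X], ∀ Q, Q ∈ L ↔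
      ∃ j, Q ∈ UniqueFactorizationMonoid.normalizedFactors (P j) := by
    refine ⟨Finset.univ.biUnion fun j : Fin q =>
      (UniqueFactorizationMonoid.normalizedFactors (P j)).toFinset, fun Q => ?_⟩
    rw [Finset.mem_biUnion]
    simp only [Finset.mem_univ, true_and, Multiset.mem_toFinset]
  have hLi : ∀ Q ∈ L, Irreducible Q ∧ Q.Monic ∧ ∀ a : inv ρ, Q.eval a ≠ 0 := by
    intro Q hQ
    obtain ⟨j, hj⟩ := (hL Q).1 hQ
    have h1 := UniqueFactorizationMonoid.irreducible_of_normalized_factor Q hj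
    refine ⟨h1, ?_, fun a ha => ?_⟩
    · have h2 := UniqueFactorizationMonoid.normalize_normalized_factor Q hj
      rw [← h2]
      exact monic_normalize h1.ne_zero
    · obtain ⟨R, hR⟩ := UniqueFactorizationMonoid.dvd_of_mem_normalizedFactors hj
      exact hP j a (by rw [hR, eval_mul, ha, zero_mul])
  obtain ⟨E, φ, hfin, hgal, hdis, hT⟩ := H (L.card + 1)
  choose T iT1 iT2 hT1 hT2 using hT
  choose e v ι hι hv using fun i => by
    have := hfin i
    have := hgal i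
    exact twist_embed (A := AlgebraicClosure K) ρ (φ i) (T i) (hT1 i)
  -- one of the twists has no roots
  obtain ⟨i, hi⟩ : ∃ i, ∀ Q ∈ L, ∀ x : T i, (Q.map (ι i : inv ρ →+* T i)).eval x ≠ 0 := by
    by_contra hcon
    push Not at hcon
    choose Q hQ x hx using hcon
    obtain ⟨i, i', hne, heq⟩ := Fintype.exists_ne_map_eq_of_card_lt
      (fun i => (⟨Q i, hQ i⟩ : L)) (by simp)
    have heq' : Q i = Q i' := congrArg Subtype.val heq
    have := hfin i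
    have := hgal i
    have := hfin i'
    have := hgal i'
    obtain ⟨a, ha⟩ := two_twists ρ hreg (E i) (E i') (hdis i i' hne) (φ i) (φ i') (T i) (T i')
      (e i) (v i) (ι i) (hι i) (hv i) (e i') (v i') (ι i') (hι i') (hv i') (Q i)
      (hLi _ (hQ i)).1 (hLi _ (hQ i)).2.1 (x i) (x i') (hx i) (by rw [heq']; exact hx i')
    exact (hLi _ (hQ i)).2.2 a ha
  refine hpf_restrict (ι i) (hT2 i) q P (fun j x hx => ?_) S₀
  have h1 : (UniqueFactorizationMonoid.normalizedFactors (P j)).prod ∣ P j :=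
    (UniqueFactorizationMonoid.prod_normalizedFactors (hP0 j)).dvd
  have h2 : P j = C (P j).leadingCoeff *
      (UniqueFactorizationMonoid.normalizedFactors (P j)).prod :=
    (leadingCoeff_mul_prod_normalizedFactors (P j)).symm
  rw [h2, Polynomial.map_mul, eval_mul, Polynomial.map_C, eval_C] at hx
  rcases mul_eq_zero.1 hx with h3 | h3
  · rw [map_eq_zero, leadingCoeff_eq_zero] at h3
    exact hP0 j h3
  · rw [← coe_mapRingHom, map_multiset_prod, ← coe_evalRingHom, map_multiset_prod,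
      Multiset.map_map, Multiset.prod_eq_zero_iff, Multiset.mem_map] at h3
    obtain ⟨Q, hQ, hQ'⟩ := h3
    exact hi Q ((hL Q).2 ⟨j, hQ⟩) x hQ'

end

end Pool.Agent.Helper44q.Q
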