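import Pool.Agent.Helper44q.Q.Repr

/-! The theorem on quotients. -/

set_option autoImplicit false

namespace Pool.Agent.Helper44q.Q

open AlgebraicGeometry CategoryTheory W560.HP
open Pool.Agent.TH178.HI (HasFunctionField)

/-- the general criterion -/
theorem crit {k : Type} [Field k] [CharZero k] {G K : Type} [Group G] [Finite G] [Field K]
    [Algebra k K] (ρ : G →* (K ≃ₐ[k] K)) (hK : FinGen k K)
    (hreg : ∀ a : K, IsAlgebraic k a → a ∈ Set.range (algebraMap k K))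
    (H : ∀ r : ℕ, ∃ (E : Fin r → IntermediateField k (AlgebraicClosure k))
      (φ : ∀ i, G ≃* (E i ≃ₐ[k] E i)), (∀ i, FiniteDimensional k (E i) ∧ IsGalois k (E i)) ∧
      (∀ i j, i ≠ j → E i ⊓ E j = ⊥) ∧
      ∀ i, ∃ (T : Type) (_ : Field T) (_ : Algebra k T), IsTwist ρ (φ i) T ∧ HilbertType k T) :
    HilbertType k (inv ρ) := by
  refine hilbertType_of_hpf (quot ρ hreg fun r => ?_)
  obtain ⟨E, φ, h1, h2, h3⟩ := H r
  refine ⟨E, φ, fun i => (h1 i).1, fun i => (h1 i).2, h2, fun i => ?_⟩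
  obtain ⟨T, _, _, hT, hT'⟩ := h3 i
  have := (h1 i).1
  exact ⟨T, _, _, hT, hpf_of_hilbertType (finGen_twist ρ (φ i) T hK hT) hT'⟩

theorem hilbertType_of_pow {k : Type} [Field k] [CharZero k] (hk : HilbNR k) {G K : Type} [Group G]
    [Finite G] [Field K] [Algebra k K] (ρ : G →* (K ≃ₐ[k] K)) (hρ : IsLinear ρ)
    (H : ∀ m : ℕ, IsGaloisGroupOver k (Fin m → G)) : HilbertType k (inv ρ) := by
  obtain ⟨-, n, t, ht, htop, hlin⟩ := hρ
  have hreg : ∀ a : K, IsAlgebraic k a → a ∈ Set.range (algebraMap k K) :=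
    fun a ha => reg_of_hpf (hpf_pure hk t ht htop) a ha
  refine hilbertType_of_hpf (quot ρ hreg fun r => ?_)
  obtain ⟨F, hF1, hF2, ⟨ψ⟩⟩ := (H r).inside
  obtain ⟨E, φ, h1, h2, h3⟩ := disjoint_of_pow F ψ
  refine ⟨E, φ, h1, h2, h3, fun i => ⟨Rat' k n, inferInstance, inferInstance, ?_, hpf_rat k hk n⟩⟩
  have := h1 i
  have := h2 i
  exact linear_twist ρ t ht htop hlin (φ i)

theorem occurs_inv {k : Type} [Field k] [CharZero k] (hk : HilbNR k) {G K : Type} [Group G]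
    [Finite G] [Field K] [Algebra k K] (ρ : G →* (K ≃ₐ[k] K)) (hρ : IsLinear ρ) :
    FinGen k (inv ρ) ∧ OccursOver k (inv ρ) G := by
  obtain ⟨hinj, n, t, ht, htop, hlin⟩ := hρ
  have hreg : ∀ a : K, IsAlgebraic k a → a ∈ Set.range (algebraMap k K) :=
    fun a ha => reg_of_hpf (hpf_pure hk t ht htop) a ha
  obtain ⟨θ, -⟩ := exists_autG ρ hinj
  exact ⟨finGen_sub (finGen_pure t htop) _, K, inferInstance, inferInstance, inferInstance,
    IsScalarTower.of_algebraMap_eq fun _ => rfl, finite_inv ρ, isGalois_inv ρ, ⟨θ⟩, hreg⟩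

theorem tfae {k : Type} [Field k] [CharZero k]
    (hk : ∃ S : Finset k, IntermediateField.adjoin ℚ (S : Set k) = ⊤) {G K : Type} [Group G]
    [Finite G] [Field K] [Algebra k K] (ρ : G →* (K ≃ₐ[k] K)) (hρ : IsLinear ρ) :
    [HilbertType k (inv ρ),
      ∀ m : ℕ, IsGaloisGroupOver k (Fin m → G),
      ∀ L : IntermediateField k (AlgebraicClosure k), FiniteDimensional k L →
        ∃ E : IntermediateField k (AlgebraicClosure k), FiniteDimensional k E ∧ IsGalois k E ∧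
          Nonempty ((E ≃ₐ[k] E) ≃* G) ∧ E ⊓ L = ⊥,
      ∃ (S : Type) (_ : Field S) (_ : Algebra k S), FinGen k S ∧ HilbertType k S ∧
        OccursOver k S G].TFAE := by
  have hk' := hilbNR_of_fg hk
  tfae_have 1 → 4 := fun h =>
    ⟨inv ρ, inferInstance, inferInstance, (occurs_inv hk' ρ hρ).1, h, (occurs_inv hk' ρ hρ).2⟩
  tfae_have 4 → 3 := by
    rintro ⟨S, _, _, hS, hHT, K', _, _, _, _, h1, h2, ⟨θ⟩, h3⟩ L hL
    exact disj_abs θ h3 hS (fun X _ p _ hX => (hHT X p hX).1) L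
  tfae_have 3 → 2 := fun h m => pow_of_disjoint h m
  tfae_have 2 → 1 := fun h => hilbertType_of_pow hk' ρ hρ h
  tfae_finish

theorem igp {k : Type} [Field k] [CharZero k]
    (hk : ∃ S : Finset k, IntermediateField.adjoin ℚ (S : Set k) = ⊤) :
    (∀ (G : Type) [Group G] [Finite G], IsGaloisGroupOver k G) ↔
      ∀ (G K : Type) [Group G] [Finite G] [Field K] [Algebra k K] (ρ : G →* (K ≃ₐ[k] K)),
        IsLinear ρ → HilbertType k (inv ρ) := by
  constructor
  · intro h G K _ _ _ _ ρ hρ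
    exact hilbertType_of_pow (hilbNR_of_fg hk) ρ hρ (fun m => h _)
  · intro h G _ _
    obtain ⟨n, ρ, hρ⟩ := exists_linear k G
    have h1 : ∀ m : ℕ, IsGaloisGroupOver k (Fin m → G) :=
      ((tfae hk ρ hρ).out 0 1).1 (h G _ ρ hρ)
    obtain ⟨F, _, _, h2, h3, ⟨ψ⟩⟩ := h1 1
    exact ⟨F, _, _, h2, h3, ⟨ψ.trans (MulEquiv.funUnique (Fin 1) G)⟩⟩

theorem regular {k : Type} [Field k] [CharZero k]
    (hk : ∃ S : Finset k, IntermediateField.adjoin ℚ (S : Set k) = ⊤) {G K : Type} [Group G]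
    [Finite G] [Field K] [Algebra k K] (ρ : G →* (K ≃ₐ[k] K)) (hρ : IsLinear ρ)
    (h : OccursOver k (RatFunc k) G) : HilbertType k (inv ρ) := by
  have h1 : FinGen k (RatFunc k) :=
    ⟨{RatFunc.X}, by rw [Finset.coe_singleton]; exact RatFunc.adjoin_X⟩
  have h2 : ∃ (S : Type) (_ : Field S) (_ : Algebra k S), FinGen k S ∧ HilbertType k S ∧
      OccursOver k S G :=
    ⟨RatFunc k, inferInstance, inferInstance, h1,
      hilbertType_of_hpf (hpf_ratFunc (hilbNR_of_fg hk)), h⟩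
  exact ((tfae hk ρ hρ).out 0 3).2 h2

end Pool.Agent.Helper44q.Q
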