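import Pool.Agent.W253.HP.Sch
import Pool.Agent.TH178.HI.CritFin

/-! Points of affine schemes with the Hilbert property. -/

set_option autoImplicit false

namespace Pool.Agent.Helper44q.Q

open AlgebraicGeometry CategoryTheory W560.HP
open Pool.Agent.TH178.HI (HasFunctionField)

/-- the affine scheme of a `k`-algebra -/
noncomputable abbrev XB (B : Type) [CommRing B] : Scheme.{0} := Spec (CommRingCat.of B)

/-- its structure morphism -/
noncomputable abbrev fB (k B : Type) [Field k] [CommRing B] [Algebra k B] :
    XB B ⟶ Spec (CommRingCat.of k) := Spec.map (CommRingCat.ofHom (algebraMap k B))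

theorem hasFF_spec (k B S : Type) [Field k] [CommRing B] [IsDomain B] [Algebra k B] [Field S]
    [Algebra B S] [Algebra k S] [IsScalarTower k B S] [IsFractionRing B S] :
    HasFunctionField k (XB B) (fB k B) S := by
  let _ : Algebra B (XB B).functionField := instAlgebraCarrierFunctionFieldSpec (CommRingCat.of B)
  have h1 : IsFractionRing B (XB B).functionField :=
    functionField_isFractionRing_of_affine (CommRingCat.of B)
  let e : (XB B).functionField ≃ₐ[B] S := IsLocalization.algEquiv (nonZeroDivisors B) _ _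
  refine ⟨e.toRingEquiv, fun a => ?_⟩
  have h2 : toFF k (XB B) (fB k B) a = algebraMap B (XB B).functionField (algebraMap k B a) := by
    have h3 := Scheme.ΓSpecIso_inv_naturality (CommRingCat.ofHom (algebraMap k B))
    have h4 := congrArg (fun f => f.hom a) h3
    change ((XB B).presheaf.germ ⊤ (genericPoint (XB B)) trivial).hom
      ((fB k B).appTop.hom ((Scheme.ΓSpecIso (CommRingCat.of k)).inv.hom a)) = _
    have h5 : (fB k B).appTop.hom ((Scheme.ΓSpecIso (CommRingCat.of k)).inv.hom a) =
      (Scheme.ΓSpecIso (CommRingCat.of B)).inv.hom (algebraMap k B a) := h4.symm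
    rw [h5]
    rfl
  rw [h2]
  change e (algebraMap B _ (algebraMap k B a)) = _
  rw [e.commutes, IsScalarTower.algebraMap_apply k B S]

theorem not_surj {B C : Type} [CommRing B] [IsDomain B] [CommRing C] [IsDomain C] (ι : B →+* C)
    (hc : ∃ c : C, ∀ a b : B, b ≠ 0 → ι b * c ≠ ι a) :
    ¬ Function.Surjective
      ((Spec.map (CommRingCat.ofHom ι)).stalkMap (genericPoint (XB C))).hom := by
  intro hs
  obtain ⟨c, hc⟩ := hc
  let x : PrimeSpectrum C := genericPoint (XB C)
  let tC : C →+* (XB C).presheaf.stalk (genericPoint (XB C)) :=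
    (StructureSheaf.toStalk (CommRingCat.of C) x).hom
  let y : PrimeSpectrum B := PrimeSpectrum.comap ι x
  let tB : B →+* (XB B).presheaf.stalk ((Spec.map (CommRingCat.ofHom ι)) (genericPoint (XB C))) :=
    (StructureSheaf.toStalk (CommRingCat.of B) y).hom
  have hcomm : ∀ b : B, ((Spec.map (CommRingCat.ofHom ι)).stalkMap (genericPoint (XB C))).hom
      (tB b) = tC (ι b) := by
    intro b
    have h1 := stalkMap_toStalk (R := CommRingCat.of B) (S := CommRingCat.of C)
      (CommRingCat.ofHom ι) x
    exact congrArg (fun f => f.hom b) h1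
  obtain ⟨g, hg⟩ := hs (tC c)
  let _ : Algebra B ((XB B).presheaf.stalk
    ((Spec.map (CommRingCat.ofHom ι)) (genericPoint (XB C)))) := tB.toAlgebra
  have hlocB : IsLocalization.AtPrime ((XB B).presheaf.stalk
      ((Spec.map (CommRingCat.ofHom ι)) (genericPoint (XB C)))) y.asIdeal :=
    StructureSheaf.IsLocalization.to_stalk (CommRingCat.of B) y
  let _ : Algebra C ((XB C).presheaf.stalk (genericPoint (XB C))) := tC.toAlgebra
  have hlocC : IsLocalization.AtPrime ((XB C).presheaf.stalk (genericPoint (XB C))) x.asIdeal :=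
    StructureSheaf.IsLocalization.to_stalk (CommRingCat.of C) x
  obtain ⟨⟨a, b⟩, hab⟩ := IsLocalization.surj y.asIdeal.primeCompl g
  have hab' : g * tB b = tB a := hab
  have h1 : tC (ι b * c) = tC (ι a) := by
    rw [map_mul, ← hcomm a, ← hab']
    refine Eq.trans ?_ (map_mul _ g (tB b)).symm
    rw [hcomm, hg, mul_comm]
  have h2 : Function.Injective tC :=
    IsLocalization.injective _ (Ideal.primeCompl_le_nonZeroDivisors x.asIdeal)
  refine hc a b (fun hb => ?_) (h2 h1)
  apply b.2
  rw [hb]
  exact Ideal.zero_mem _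

/-- an affine variety with the Hilbert property has a point which does not lift to any of finitely
many finite covers of degree `> 1` -/
theorem exists_point (k B : Type) [Field k] [CommRing B] [IsDomain B] [Algebra k B]
    (h : HilbertProperty k (XB B) (fB k B)) (q : ℕ) (C : Fin q → Type) [∀ j, CommRing (C j)]
    [∀ j, IsDomain (C j)] (ι : ∀ j, B →+* C j) (hfin : ∀ j, (ι j).Finite)
    (hinj : ∀ j, Function.Injective (ι j))
    (hc : ∀ j, ∃ c : C j, ∀ a b : B, b ≠ 0 → ι j b * c ≠ ι j a) :
    ∃ y : B →ₐ[k] k, ∀ j (z : C j →+* k), z.comp (ι j) ≠ (y : B →+* k) := by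
  have h1 := h q (fun j => XB (C j)) (fun j => Spec.map (CommRingCat.ofHom (ι j)))
    (fun j => inferInstance) (fun j => IsFinite.SpecMap_iff _ |>.2 (hfin j)) (fun j => ⟨?_⟩)
    (fun j => not_surj (ι j) (hc j))
  · obtain ⟨x, s, hs, -, hs'⟩ := h1.nonempty
    obtain ⟨σ, rfl⟩ := Spec.map_surjective s
    have h2 : CommRingCat.ofHom (algebraMap k B) ≫ σ = 𝟙 _ := by
      apply Spec.map_injective
      rw [Spec.map_comp, Spec.map_id]
      exact hs
    refine ⟨{ σ.hom with commutes' := fun a => congrArg (fun f => f.hom a) h2 }, ?_⟩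
    intro j z hz
    refine hs' j (Spec.map (CommRingCat.ofHom z)) ?_
    rw [← Spec.map_comp]
    congr 1
    ext b
    exact RingHom.congr_fun hz b
  · exact RingHom.IsIntegral.comap_surjective (hfin j).to_isIntegral (hinj j)

end Pool.Agent.Helper44q.Q
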