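import Pool.Agent.Helper44q.Q.Res
import Pool.Agent.Helper44q.Q.Sch

/-! Specialisation of Galois extensions of a function field with the Hilbert property. -/

set_option autoImplicit false

namespace Pool.Agent.Helper44q.Q

open AlgebraicGeometry CategoryTheory W560.HP
open Pool.Agent.TH178.HI (HasFunctionField)

section

variable {k S N : Type} [Field k] [Field S] [Field N] [Algebra k S] [Algebra S N] [Algebra k N]
  [IsScalarTower k S N] [FiniteDimensional S N] [IsGalois S N]

variable (k) in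
/-- a finitely generated stable subalgebra with the field of fractions `N`, unramified over its
invariants -/
theorem exists_stable (hS : ∃ F : Finset S, IntermediateField.adjoin k (F : Set S) = ⊤)
    (T : Finset N) :
    ∃ C : Subalgebra k N, (∀ (σ : N ≃ₐ[S] N), ∀ c ∈ C, σ c ∈ C) ∧ (∀ t ∈ T, t ∈ C) ∧
      Algebra.FiniteType k C ∧ (∀ z : N, ∃ b ∈ C, b ≠ 0 ∧ z * b ∈ C) ∧
      ∀ σ : N ≃ₐ[S] N, σ ≠ 1 → ∃ c ∈ C, ∃ d ∈ C, (σ c - c) * d = 1 := by
  classical
  obtain ⟨F, hF⟩ := hS
  obtain ⟨θ, hθ⟩ := Field.exists_primitive_element S N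
  let F₀ : Finset N := T ∪ F.image (algebraMap S N) ∪ {θ} ∪
    Finset.univ.image (fun σ : N ≃ₐ[S] N => (σ θ - θ)⁻¹)
  let F₁ : Finset N := Finset.univ.biUnion fun τ : N ≃ₐ[S] N => F₀.image τ
  have h01 : ∀ x ∈ F₀, x ∈ F₁ := fun x hx =>
    Finset.mem_biUnion.2 ⟨1, Finset.mem_univ _, Finset.mem_image.2 ⟨x, hx, rfl⟩⟩
  have h1 : ∀ x ∈ F₀, x ∈ Algebra.adjoin k (F₁ : Set N) := fun x hx =>
    Algebra.subset_adjoin (by exact_mod_cast h01 x hx)
  have hT0 : ∀ t ∈ T, t ∈ F₀ := fun t ht => by simp [F₀, ht]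
  have hF0 : ∀ t ∈ F, algebraMap S N t ∈ F₀ := fun t ht => by
    have : algebraMap S N t ∈ F.image (algebraMap S N) := Finset.mem_image_of_mem _ ht
    simp only [F₀, Finset.mem_union]
    exact Or.inl (Or.inl (Or.inr this))
  have hθ0 : θ ∈ F₀ := by simp [F₀]
  have hi0 : ∀ σ : N ≃ₐ[S] N, (σ θ - θ)⁻¹ ∈ F₀ := fun σ => by
    have : (σ θ - θ)⁻¹ ∈ Finset.univ.image (fun σ : N ≃ₐ[S] N => (σ θ - θ)⁻¹) :=
      Finset.mem_image_of_mem _ (Finset.mem_univ _)
    simp only [F₀, Finset.mem_union]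
    exact Or.inr this
  have hmem : ∀ z : N, z ∈ IntermediateField.adjoin k (F₁ : Set N) := by
    let W := IntermediateField.adjoin k (F₁ : Set N)
    have hW : ∀ x ∈ F₀, x ∈ W := fun x hx =>
      IntermediateField.subset_adjoin k _ (by exact_mod_cast h01 x hx)
    have hSW : ∀ s : S, algebraMap S N s ∈ W := by
      intro s
      have h2 : s ∈ IntermediateField.adjoin k (F : Set S) := by
        rw [hF]; exact IntermediateField.mem_top
      have h3 : IntermediateField.adjoin k (F : Set S) ≤ W.comap (IsScalarTower.toAlgHom k S N) := by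
        rw [IntermediateField.adjoin_le_iff]
        intro t ht
        exact hW _ (hF0 t ht)
      exact h3 h2
    let W' : IntermediateField S N :=
      { W with algebraMap_mem' := hSW }
    have h4 : IntermediateField.adjoin S {θ} ≤ W' := by
      rw [IntermediateField.adjoin_le_iff]
      intro x hx
      rw [Set.mem_singleton_iff.1 hx]
      exact hW _ hθ0
    intro z
    exact h4 (by rw [hθ]; exact IntermediateField.mem_top)
  refine ⟨Algebra.adjoin k (F₁ : Set N), ?_, fun t ht => h1 t (hT0 t ht), ?_, ?_, ?_⟩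
  · intro σ
    have h2 : Algebra.adjoin k (F₁ : Set N) ≤ (Algebra.adjoin k (F₁ : Set N)).comap
        ((σ.restrictScalars k : N ≃ₐ[k] N) : N →ₐ[k] N) := by
      rw [Algebra.adjoin_le_iff]
      intro x hx
      obtain ⟨τ, -, hτ⟩ := Finset.mem_biUnion.1 (Finset.mem_coe.1 hx)
      obtain ⟨x₀, hx₀, rfl⟩ := Finset.mem_image.1 hτ
      refine Algebra.subset_adjoin ?_
      exact Finset.mem_coe.2 (Finset.mem_biUnion.2 ⟨σ * τ, Finset.mem_univ _,
        Finset.mem_image.2 ⟨x₀, hx₀, rfl⟩⟩)
    exact fun c hc => h2 hc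
  · exact (Subalgebra.fg_iff_finiteType _).1 (Subalgebra.fg_adjoin_finset F₁)
  · intro z
    obtain ⟨r, hr, s, hs, rfl⟩ := IntermediateField.mem_adjoin_iff_div.1 (hmem z)
    by_cases h0 : s = 0
    · exact ⟨1, one_mem _, one_ne_zero, by rw [h0, div_zero, zero_mul]; exact zero_mem _⟩
    · exact ⟨s, hs, h0, by rw [div_mul_cancel₀ _ h0]; exact hr⟩
  · intro σ hσ
    refine ⟨θ, h1 θ hθ0, (σ θ - θ)⁻¹, h1 _ (hi0 σ), mul_inv_cancel₀ ?_⟩
    intro h0
    apply hσ
    have h2 : σ θ = θ := sub_eq_zero.1 h0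
    have h3 : (IntermediateField.adjoin S {θ}) ≤ IntermediateField.fixedField
        (Subgroup.zpowers σ) := by
      rw [IntermediateField.adjoin_le_iff]
      intro x hx
      rw [Set.mem_singleton_iff.1 hx, SetLike.mem_coe, IntermediateField.mem_fixedField_iff]
      intro τ hτ
      have h4 : σ ∈ MulAction.stabilizer (N ≃ₐ[S] N) θ := h2
      exact (Subgroup.zpowers_le.2 h4) hτ
    apply AlgEquiv.ext
    intro z
    have h5 : z ∈ IntermediateField.fixedField (Subgroup.zpowers σ) :=
      h3 (by rw [hθ]; exact IntermediateField.mem_top)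
    exact (IntermediateField.mem_fixedField_iff _ _).1 h5 σ (Subgroup.mem_zpowers σ)

attribute [local instance] Ideal.Quotient.field in
/-- specialisation of the Galois extension `N` of a function field `S` with the Hilbert property -/
theorem spec [CharZero k]
    (hS : ∃ F : Finset S, IntermediateField.adjoin k (F : Set S) = ⊤)
    (HP : ∀ (X : Scheme.{0}) [IsIntegral X] (p : X ⟶ Spec (CommRingCat.of k))
      [LocallyOfFiniteType p], HasFunctionField k X p S → HilbertProperty k X p)
    (T : Finset N) :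
    ∃ (C : Subalgebra k N) (hC : ∀ (σ : N ≃ₐ[S] N), ∀ c ∈ C, σ c ∈ C) (κ : Type) (_ : Field κ)
      (_ : Algebra k κ) (ψ : C →ₐ[k] κ) (Φ : (N ≃ₐ[S] N) ≃* (κ ≃ₐ[k] κ)),
      (∀ t ∈ T, t ∈ C) ∧ FiniteDimensional k κ ∧ IsGalois k κ ∧
      ∀ σ c, Φ σ (ψ c) = ψ (actE C hC σ c) := by
  classical
  obtain ⟨C, hC, hT, hfg, hN, hu⟩ := exists_stable k hS T
  have hfrac : IsFractionRing (bs S C) S := frac_bs C hC hN
  have hff : HasFunctionField k (XB (bs S C)) (fB k (bs S C)) S := hasFF_spec k (bs S C) S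
  have hft : LocallyOfFiniteType (fB k (bs S C)) := by
    rw [HasRingHomProperty.Spec_iff (P := @LocallyOfFiniteType)]
    have h0 : (algebraMap k (bs S C)).FiniteType :=
      RingHom.finiteType_algebraMap.2 (fg_bs C hfg hC)
    exact h0
  have h1 := HP (XB (bs S C)) (fB k (bs S C)) hff
  obtain ⟨q, ⟨e⟩⟩ := Finite.exists_equiv_fin {H : Subgroup (N ≃ₐ[S] N) // H ≠ ⊤}
  obtain ⟨y, hy⟩ := exists_point k (bs S C) h1 q (fun j => fx C (e.symm j).1)
    (fun j => bsTo C (e.symm j).1) (fun j => finite_fx C hfg hC (e.symm j).1)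
    (fun j a b hab => Subtype.ext ((algebraMap S N).injective (congrArg Subtype.val hab)))
    (fun j => by
      obtain ⟨c, hc⟩ := exists_fx C hC hN (e.symm j).1 (e.symm j).2
      refine ⟨c, fun a b hb hab => hc ⟨a / b, ?_⟩⟩
      have h2 : algebraMap S N b * c = algebraMap S N a := congrArg Subtype.val hab
      have h3 : algebraMap S N b ≠ 0 := (map_ne_zero _).2 (fun h => hb (Subtype.ext h))
      rw [map_div₀, ← h2, mul_div_cancel_left₀ _ h3])
  let _ : Algebra (bs S C) C := (bsC C).toAlgebra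
  have hfin : Module.Finite (bs S C) C := finite_C C hfg hC
  have hmax : (RingHom.ker (y : bs S C →+* k)).IsMaximal :=
    RingHom.ker_isMaximal_of_surjective _ (fun a => ⟨algebraMap k _ a, y.commutes a⟩)
  obtain ⟨Q, hQ, hQP⟩ := Ideal.exists_ideal_over_maximal_of_isIntegral (S := C)
    (RingHom.ker (y : bs S C →+* k)) (by
      intro b hb
      have h2 : b = 0 := by
        apply Subtype.ext
        apply (algebraMap S N).injective
        have h3 : bsC C b = 0 := hb
        have h4 := congrArg (fun c : C => (c : N)) h3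
        exact h4.trans (map_zero _).symm
      rw [h2]
      exact Ideal.zero_mem _)
  have hy' : ∀ b : bs S C, bsC C b - algebraMap k C (y b) ∈ Q := by
    intro b
    have h2 : b - algebraMap k (bs S C) (y b) ∈ RingHom.ker (y : bs S C →+* k) := by
      rw [RingHom.mem_ker]
      change y (b - algebraMap k (bs S C) (y b)) = 0
      rw [map_sub, y.commutes]
      exact sub_self _
    rw [← hQP, Ideal.mem_comap] at h2
    have h3 : algebraMap (bs S C) C (b - algebraMap k (bs S C) (y b)) =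
        bsC C b - algebraMap k C (y b) := by
      rw [map_sub]
      congr 1
      apply Subtype.ext
      exact (IsScalarTower.algebraMap_apply k S N (y b)).symm
    rw [← h3]
    exact h2
  obtain ⟨h5, h6, Φ, hΦ⟩ := residue C hC hfg Q y hy' (fun H hH z => by
    have h2 := hy (e ⟨H, hH⟩)
    rw [Equiv.symm_apply_apply] at h2
    exact h2 z) hu
  exact ⟨C, hC, C ⧸ Q, inferInstance, inferInstance, Ideal.Quotient.mkₐ k Q, Φ, hT, h5, h6, hΦ⟩

end

end Pool.Agent.Helper44q.Q
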