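import Pool.Agent.Helper44q.Q.Key
import Pool.Agent.W560.HP.Stm

/-! The Hilbert property of a quotient from the Hilbert property of its twists. -/

set_option autoImplicit false
set_option linter.unusedSectionVars false

namespace Pool.Agent.Helper44q.Q

open IntermediateField Polynomial

/-- the elements on which two homomorphisms agree -/
def eqField {k Ω A : Type} [Field k] [Field Ω] [Field A] [Algebra k Ω] [Algebra k A]
    (f g : Ω →ₐ[k] A) : IntermediateField k Ω :=
  (AlgHom.equalizer f g).toIntermediateField fun x hx => by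
    have h1 : f x = g x := hx
    change f x⁻¹ = g x⁻¹
    rw [map_inv₀, map_inv₀, h1]

theorem hom_ext_sup {k Ω A : Type} [Field k] [Field Ω] [Field A] [Algebra k Ω] [Algebra k A]
    {F₁ F₂ : IntermediateField k Ω} (h : F₁ ⊔ F₂ = ⊤) (f g : Ω →ₐ[k] A)
    (h1 : ∀ z ∈ F₁, f z = g z) (h2 : ∀ z ∈ F₂, f z = g z) (z : Ω) : f z = g z := by
  have h3 : F₁ ⊔ F₂ ≤ eqField f g := sup_le (fun z hz => h1 z hz) (fun z hz => h2 z hz)
  rw [h] at h3
  exact h3 (IntermediateField.mem_top (x := z))

/-- `T` is the field of functions of the twist, by the Galois extension `E / k` with group `G`, of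
the variety with function field `K` on which `G` acts: there is a compositum `Ω` of `E` and `K` and
an action of `G` on it, through the Galois group of `E` and the given action on `K`, such that `T`
is the field of the elements of `Ω` fixed by `G`. -/
def IsTwist {k K E G : Type} [Field k] [Field K] [Field E] [Algebra k K] [Algebra k E] [Group G]
    (ρ : G →* (K ≃ₐ[k] K)) (φ : G ≃* (E ≃ₐ[k] E)) (T : Type) [Field T] [Algebra k T] : Prop :=
  ∃ (Ω : Type) (_ : Field Ω) (_ : Algebra k Ω) (i : E →ₐ[k] Ω) (j : K →ₐ[k] Ω) (t : T →ₐ[k] Ω)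
    (α : G →* (Ω ≃ₐ[k] Ω)), i.fieldRange ⊔ j.fieldRange = ⊤ ∧ (∀ g a, α g (i a) = i (φ g a)) ∧
    (∀ g a, α g (j a) = j (ρ g a)) ∧ ∀ z : Ω, z ∈ t.fieldRange ↔ ∀ g, α g z = z

section

variable {k K G : Type} [Field k] [Field K] [Algebra k K] [Group G]

/-- The twist, embedded in an algebraic closure of `K`. -/
theorem twist_embed {A : Type} [Field A] [Algebra K A] [Algebra k A] [IsScalarTower k K A]
    [IsAlgClosure K A] [CharZero K] {E : Type} [Field E] [Algebra k E] [FiniteDimensional k E]
    [IsGalois k E] (ρ : G →* (K ≃ₐ[k] K)) (φ : G ≃* (E ≃ₐ[k] E)) (T : Type) [Field T] [Algebra k T]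
    (h : IsTwist ρ φ T) :
    ∃ (e : E →ₐ[k] A) (v : T →ₐ[k] A) (ι : inv ρ →ₐ[k] T),
      (∀ s : inv ρ, v (ι s) = algebraMap K A s) ∧
      ∀ σ : A ≃ₐ[k] A, ∀ g, Over ρ σ g → (∀ a : E, σ (e a) = e (φ g a)) → ∀ z, σ (v z) = v z := by
  obtain ⟨Ω, _, _, i, j, t, α, htop, hi, hj, ht⟩ := h
  let _ : Algebra K Ω := (j : K →+* Ω).toAlgebra
  have hjK : ∀ a, algebraMap K Ω a = j a := fun a => rfl
  have : IsScalarTower k K Ω := IsScalarTower.of_algebraMap_eq fun c => (j.commutes c).symm
  have hcl : IsAlgClosed A := IsAlgClosure.isAlgClosed K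
  have halg : Algebra.IsAlgebraic K Ω := by
    have h1 : i.fieldRange ⊔ j.fieldRange ≤ (algebraicClosure K Ω).restrictScalars k := by
      refine sup_le ?_ ?_
      · rintro z ⟨a, rfl⟩
        have h2 : IsAlgebraic k (i a) := (Algebra.IsAlgebraic.isAlgebraic a).algHom i
        have h3 : IsAlgebraic K (i a) := h2.extendScalars (algebraMap k K).injective
        exact mem_algebraicClosure_iff.2 h3
      · rintro z ⟨a, rfl⟩
        exact mem_algebraicClosure_iff.2 (isAlgebraic_algebraMap (A := Ω) a)
    rw [htop] at h1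
    exact ⟨fun z => mem_algebraicClosure_iff.1 (h1 (IntermediateField.mem_top (x := z)))⟩
  let u : Ω →ₐ[K] A := IsAlgClosed.lift
  let u' : Ω →ₐ[k] A := u.restrictScalars k
  have hS : ∀ s : inv ρ, j s ∈ t.fieldRange := by
    intro s
    rw [ht]
    intro g
    rw [hj, mem_inv.1 s.2]
  let j' : inv ρ →ₐ[k] t.fieldRange :=
    { toFun := fun s => ⟨j s, hS s⟩
      map_one' := Subtype.ext (by change j _ = 1; simp)
      map_mul' := fun a b => Subtype.ext (by change j _ = j _ * j _; simp)
      map_zero' := Subtype.ext (by change j _ = 0; simp)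
      map_add' := fun a b => Subtype.ext (by change j _ = j _ + j _; simp)
      commutes' := fun c => Subtype.ext (j.commutes c) }
  let ε : T ≃ₐ[k] t.fieldRange := AlgEquiv.ofInjectiveField t
  refine ⟨u'.comp i, u'.comp t, (ε.symm : t.fieldRange →ₐ[k] T).comp j', fun s => ?_, ?_⟩
  · change u (t (ε.symm (j' s))) = _
    have h1 : t (ε.symm (j' s)) = j s := by
      have h2 := congrArg Subtype.val (ε.apply_symm_apply (j' s))
      exact h2
    rw [h1, ← hjK, u.commutes]
  · intro σ g hσ hσ' z
    have h1 : ∀ y : Ω, ((σ : A →ₐ[k] A).comp u') y = (u'.comp (α g : Ω →ₐ[k] Ω)) y := by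
      refine hom_ext_sup htop _ _ ?_ ?_
      · rintro y ⟨a, rfl⟩
        have h2 := hσ' a
        change σ (u (i a)) = u (i (φ g a)) at h2
        change σ (u (i a)) = u (α g (i a))
        rw [h2, hi]
      · rintro y ⟨a, rfl⟩
        change σ (u (j a)) = u (α g (j a))
        rw [hj, ← hjK, ← hjK, u.commutes, u.commutes, hσ]
    have h2 := h1 (t z)
    change σ (u (t z)) = u (α g (t z)) at h2
    have h3 : α g (t z) = t z := (ht (t z)).1 ⟨z, rfl⟩ g
    rw [h3] at h2
    exact h2

/-- the embeddings of a normal extension have the same image -/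
theorem range_eq {A E : Type} [Field A] [Field E] [Algebra k A] [Algebra k E] [Normal k E]
    (e e' : E →ₐ[k] A) : e.fieldRange = e'.fieldRange := by
  have key : ∀ e e' : E →ₐ[k] A, e.fieldRange ≤ e'.fieldRange := by
    rintro e e' _ ⟨a, rfl⟩
    -- `e a` is a root of the minimal polynomial of `a`, which splits over `e' (E)`
    have h1 : ((minpoly k a).map (algebraMap k E)).Splits := Normal.splits inferInstance a
    have h2 : (minpoly k a) ≠ 0 := minpoly.ne_zero (Normal.isIntegral inferInstance a)
    have h3 : aeval (e a) (minpoly k a) = 0 := by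
      have := minpoly.aeval k a
      rw [aeval_algHom_apply, this, map_zero]
    have h4 : ((minpoly k a).map (algebraMap k A)).roots =
        (((minpoly k a).map (algebraMap k E)).roots).map e' := by
      have h5 : (minpoly k a).map (algebraMap k A) =
          ((minpoly k a).map (algebraMap k E)).map (e' : E →+* A) := by
        rw [Polynomial.map_map]
        congr 1
        ext c
        exact (e'.commutes c).symm
      rw [h5]
      exact h1.roots_map (e' : E →+* A)
    have h6 : e a ∈ ((minpoly k a).map (algebraMap k A)).roots := by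
      rw [mem_roots (Polynomial.map_ne_zero h2), IsRoot, eval_map, ← aeval_def, h3]
    rw [h4, Multiset.mem_map] at h6
    obtain ⟨b, -, hb⟩ := h6
    exact ⟨b, hb⟩
  exact le_antisymm (key e e') (key e' e)

/-- from the function field of the twist to the field of invariants -/
theorem hpf_restrict {S T : Type} [Field S] [Field T] [Algebra k S] [Algebra k T]
    (ι : S →ₐ[k] T) (hT : W560.HP.HPF k T) (q : ℕ) (P : Fin q → S[X])
    (hP : ∀ j (x : T), ((P j).map (ι : S →+* T)).eval x ≠ 0) (S₀ : Finset S) :
    ∃ (B : Subalgebra k S) (φ : B →ₐ[k] k) (P' : Fin q → B[X]),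
      (S₀ : Set S) ⊆ B ∧ (∀ j, (P' j).map (algebraMap B S) = P j) ∧
      ∀ (j : Fin q) (x : k), ((P' j).map (φ : B →+* k)).eval x ≠ 0 := by
  classical
  obtain ⟨B, φ, P', h1, h2, h3⟩ := hT q (fun j => (P j).map (ι : S →+* T)) hP (S₀.image ι)
  let B₀ : Subalgebra k S := B.comap ι
  let β : B₀ →ₐ[k] B :=
    { toFun := fun s => ⟨ι s, s.2⟩
      map_one' := Subtype.ext (by change ι _ = 1; simp)
      map_mul' := fun a b => Subtype.ext (by change ι _ = ι _ * ι _; simp)
      map_zero' := Subtype.ext (by change ι _ = 0; simp)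
      map_add' := fun a b => Subtype.ext (by change ι _ = ι _ + ι _; simp)
      commutes' := fun c => Subtype.ext (ι.commutes c) }
  have hlift : ∀ j, ∃ Q : B₀[X], Q.map (algebraMap B₀ S) = P j := by
    intro j
    have h4 : P j ∈ lifts (algebraMap B₀ S) := by
      rw [lifts_iff_coeff_lifts]
      intro n
      have h5 : ι ((P j).coeff n) ∈ B := by
        have h6 : ((P' j).map (algebraMap B T)).coeff n = ι ((P j).coeff n) := by
          rw [h2 j, coeff_map]; rfl
        rw [← h6, coeff_map]
        exact Subtype.mem _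
      exact ⟨⟨_, h5⟩, rfl⟩
    exact (mem_lifts _).1 h4
  choose Q hQ using hlift
  refine ⟨B₀, φ.comp β, Q, fun s hs => ?_, hQ, fun j x => ?_⟩
  · exact h1 (by
      rw [Finset.coe_image]
      exact ⟨s, hs, rfl⟩)
  · have h4 : (Q j).map (β : B₀ →+* B) = P' j := by
      apply Polynomial.map_injective (algebraMap B T) (fun a b h => Subtype.ext h)
      rw [h2 j, ← hQ j, Polynomial.map_map, Polynomial.map_map]
      rfl
    have h5 : (Q j).map ((φ.comp β : B₀ →ₐ[k] k) : B₀ →+* k) = (P' j).map (φ : B →+* k) := by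
      rw [← h4, Polynomial.map_map]
      rfl
    rw [h5]
    exact h3 j x

end

end Pool.Agent.Helper44q.Q
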