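import Pool.Agent.Helper44q.Q.Spc
import Pool.Agent.Helper44q.Q.Gen

/-! The Hilbert property of a quotient gives Galois extensions (the classical direction). -/

set_option autoImplicit false

namespace Pool.Agent.Helper44q.Q

open AlgebraicGeometry CategoryTheory W560.HP
open Pool.Agent.TH178.HI (HasFunctionField)

section

variable {k K G : Type} [Field k] [Field K] [Algebra k K] [Group G] [Finite G]

/-- the Galois group of `K` over the field of invariants -/
theorem exists_autG (ρ : G →* (K ≃ₐ[k] K)) (hinj : Function.Injective ρ) :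
    ∃ θ : (K ≃ₐ[inv ρ] K) ≃* G, ∀ (τ : K ≃ₐ[inv ρ] K) (a : K), ρ (θ τ) a = τ a := by
  have := finite_inv ρ
  have := isGalois_inv ρ
  let f : G →* (K ≃ₐ[inv ρ] K) :=
    { toFun := fun g => { (ρ g : K ≃+* K) with
        commutes' := fun s => mem_inv.1 s.2 g }
      map_one' := by
        apply AlgEquiv.ext
        intro a
        change ρ 1 a = a
        rw [map_one]; rfl
      map_mul' := by
        intro g h
        apply AlgEquiv.ext
        intro a
        change ρ (g * h) a = ρ g (ρ h a)
        rw [map_mul]; rfl }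
  have hf : ∀ g a, f g a = ρ g a := fun _ _ => rfl
  have h1 : Function.Injective f := by
    intro g h hgh
    apply hinj
    apply AlgEquiv.ext
    intro a
    rw [← hf, ← hf, hgh]
  have h2 : IntermediateField.fixedField f.range = ⊥ := by
    rw [eq_bot_iff]
    intro x hx
    have h3 : x ∈ inv ρ := mem_inv.2 fun g =>
      (IntermediateField.mem_fixedField_iff _ _).1 hx (f g) ⟨g, rfl⟩
    rw [IntermediateField.mem_bot]
    exact ⟨⟨x, h3⟩, rfl⟩
  have h3 : f.range = ⊤ := by
    rw [← IntermediateField.fixingSubgroup_fixedField f.range, h2,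
      IntermediateField.fixingSubgroup_bot]
  refine ⟨(MulEquiv.ofBijective f ⟨h1, MonoidHom.range_eq_top.1 h3⟩).symm, fun τ a => ?_⟩
  rw [← hf]
  have h4 := MulEquiv.apply_symm_apply (MulEquiv.ofBijective f ⟨h1, MonoidHom.range_eq_top.1 h3⟩) τ
  exact AlgEquiv.congr_fun h4 a

end

section

/-- the classical direction inside a Galois extension of the field of invariants -/
theorem disj_core {k S K N G : Type} [Field k] [Field S] [Field K] [Field N] [Group G]
    [Algebra k S] [Algebra S K] [Algebra k K] [Algebra K N] [Algebra S N] [Algebra k N]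
    [IsScalarTower k S N] [IsScalarTower k K N] [IsScalarTower S K N] [CharZero k]
    [FiniteDimensional S N] [IsGalois S N] [IsGalois S K] (θ : (K ≃ₐ[S] K) ≃* G)
    (hreg : ∀ a : K, IsAlgebraic k a → a ∈ Set.range (algebraMap k K))
    (hS : ∃ F : Finset S, IntermediateField.adjoin k (F : Set S) = ⊤)
    (HP : ∀ (X : Scheme.{0}) [IsIntegral X] (p : X ⟶ Spec (CommRingCat.of k))
      [LocallyOfFiniteType p], HasFunctionField k X p S → HilbertProperty k X p)
    (L : IntermediateField k (AlgebraicClosure k)) [FiniteDimensional k L] [IsGalois k L]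
    (j : L →ₐ[k] N) :
    ∃ E : IntermediateField k (AlgebraicClosure k), FiniteDimensional k E ∧ IsGalois k E ∧
      Nonempty ((E ≃ₐ[k] E) ≃* G) ∧ E ⊓ L = ⊥ := by
  classical
  obtain ⟨α, hα⟩ := Field.exists_primitive_element k L
  obtain ⟨C, hC, κ, _, _, ψ, Φ, hT, hκ1, hκ2, hΦ⟩ := spec hS HP {j α}
  have hjC : ∀ l : L, j l ∈ C := by
    have h1 : Algebra.adjoin k {α} ≤ C.comap j := by
      rw [Algebra.adjoin_le_iff]
      intro x hx
      rw [Set.mem_singleton_iff.1 hx]
      exact hT _ (Finset.mem_singleton_self _)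
    have h2 : Algebra.adjoin k {α} = ⊤ := by
      rw [← IntermediateField.adjoin_simple_toSubalgebra_of_isAlgebraic
        (Algebra.IsAlgebraic.isAlgebraic α), hα, IntermediateField.top_toSubalgebra]
    intro l
    exact h1 (by rw [h2]; trivial)
  let jC : L →ₐ[k] C := j.codRestrict C hjC
  let lam : L →ₐ[k] κ := ψ.comp jC
  -- the group
  let res : (N ≃ₐ[S] N) →* (K ≃ₐ[S] K) := AlgEquiv.restrictNormalHom K
  have hres : ∀ (σ : N ≃ₐ[S] N) (a : K), algebraMap K N (res σ a) = σ (algebraMap K N a) :=
    fun σ a => AlgEquiv.restrictNormal_commutes σ K a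
  let f : (κ ≃ₐ[k] κ) →* G := ((θ : (K ≃ₐ[S] K) →* G).comp res).comp
    (Φ.symm : (κ ≃ₐ[k] κ) →* (N ≃ₐ[S] N))
  have hf : Function.Surjective f := by
    refine (θ.surjective.comp (AlgEquiv.restrictNormalHom_surjective N)).comp Φ.symm.surjective
  let E' : IntermediateField k κ := IntermediateField.fixedField f.ker
  have hE' : IsGalois k E' := inferInstance
  have hEG : Nonempty ((E' ≃ₐ[k] E') ≃* G) :=
    ⟨((QuotientGroup.quotientKerEquivOfSurjective f hf).symm.trans
      (IsGalois.normalAutEquivQuotient f.ker)).symm⟩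
  -- the intersection
  have hint : ∀ l : L, lam l ∈ E' → lam l ∈ Set.range (algebraMap k κ) := by
    intro l hl
    have h1 : ∀ σ : N ≃ₐ[S] N, res σ = 1 → σ (j l) = j l := by
      intro σ hσ
      have h2 : Φ σ ∈ f.ker := by
        change θ (res (Φ.symm (Φ σ))) = 1
        rw [MulEquiv.symm_apply_apply, hσ, map_one]
      have h3 := (IntermediateField.mem_fixedField_iff _ _).1 hl _ h2
      have h4 : ψ (actE C hC σ (jC l)) = ψ (jC l) := by
        rw [← hΦ]
        exact h3
      let σk : N →ₐ[k] N := ((σ.restrictScalars k : N ≃ₐ[k] N) : N →ₐ[k] N)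
      obtain ⟨l', hl'⟩ : σ (j l) ∈ j.fieldRange := by
        have h5 := range_eq (σk.comp j) j
        rw [← h5]
        exact ⟨l, rfl⟩
      have h6 : actE C hC σ (jC l) = jC l' := Subtype.ext hl'.symm
      rw [h6] at h4
      have h7 : l' = l := lam.injective h4
      rw [← hl', h7]
      rfl
    have h8 : IsGalois K N := IsGalois.tower_top_of_isGalois S K N
    have h9 : FiniteDimensional K N := FiniteDimensional.right S K N
    have h10 : ∀ τ : N ≃ₐ[K] N, τ (j l) = j l := by
      intro τ
      have h11 : res (τ.restrictScalars S) = 1 := by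
        apply AlgEquiv.ext
        intro a
        apply (algebraMap K N).injective
        rw [hres]
        exact τ.commutes a
      exact h1 _ h11
    obtain ⟨a, ha⟩ := (IsGalois.mem_range_algebraMap_iff_fixed _).2 h10
    have h12 : IsAlgebraic k a := by
      have h13 : IsAlgebraic k (j l) := (Algebra.IsAlgebraic.isAlgebraic (R := k) l).algHom j
      rw [← ha] at h13
      exact (isAlgebraic_algebraMap_iff (algebraMap K N).injective).1 h13
    obtain ⟨c, rfl⟩ := hreg a h12
    refine ⟨c, ?_⟩
    have h14 : l = algebraMap k L c := by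
      apply (j : L →+* N).injective
      change j l = j (algebraMap k L c)
      rw [j.commutes, ← ha]
      exact (IsScalarTower.algebraMap_apply k K N c).symm
    rw [h14, AlgHom.commutes]
  -- inside the algebraic closure
  let u : κ →ₐ[k] AlgebraicClosure k := IsAlgClosed.lift
  have huE : E' ≃ₐ[k] (E'.map u) := IntermediateField.equivMap E' u
  refine ⟨E'.map u, huE.toLinearEquiv.finiteDimensional, IsGalois.of_algEquiv huE,
    ⟨(AlgEquiv.autCongr huE).symm.trans hEG.some⟩, ?_⟩
  rw [eq_bot_iff]
  rintro z ⟨⟨x, hx, rfl⟩, hz⟩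
  have h1 : (L.val).fieldRange = L := IntermediateField.fieldRange_val L
  have h2 : u x ∈ (u.comp lam).fieldRange := by
    rw [range_eq (u.comp lam) L.val, h1]
    exact hz
  obtain ⟨l, hl⟩ := h2
  have h3 : lam l = x := u.injective hl
  subst h3
  obtain ⟨c, hc⟩ := hint l hx
  rw [IntermediateField.mem_bot]
  refine ⟨c, ?_⟩
  change algebraMap k (AlgebraicClosure k) c = u (lam l)
  rw [← hc, AlgHom.commutes]

/-- the classical direction -/
theorem disj_abs {k S K G : Type} [Field k] [Field S] [Field K] [Group G]
    [Algebra k S] [Algebra S K] [Algebra k K] [IsScalarTower k S K] [CharZero k]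
    [FiniteDimensional S K] [IsGalois S K] (θ : (K ≃ₐ[S] K) ≃* G)
    (hreg : ∀ a : K, IsAlgebraic k a → a ∈ Set.range (algebraMap k K))
    (hS : ∃ F : Finset S, IntermediateField.adjoin k (F : Set S) = ⊤)
    (HP : ∀ (X : Scheme.{0}) [IsIntegral X] (p : X ⟶ Spec (CommRingCat.of k))
      [LocallyOfFiniteType p], HasFunctionField k X p S → HilbertProperty k X p)
    (L : IntermediateField k (AlgebraicClosure k)) [FiniteDimensional k L] :
    ∃ E : IntermediateField k (AlgebraicClosure k), FiniteDimensional k E ∧ IsGalois k E ∧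
      Nonempty ((E ≃ₐ[k] E) ≃* G) ∧ E ⊓ L = ⊥ := by
  classical
  have : CharZero S := charZero_of_injective_algebraMap (algebraMap k S).injective
  let L' : IntermediateField k (AlgebraicClosure k) :=
    IntermediateField.normalClosure k L (AlgebraicClosure k)
  have hL'1 : FiniteDimensional k L' := normalClosure.is_finiteDimensional k L _
  have hL'2 : Normal k L' := normalClosure.normal k L _
  have hL'3 : IsGalois k L' := { }
  have hLL' : L ≤ L' := IntermediateField.le_normalClosure L
  obtain ⟨α, hα⟩ := Field.exists_primitive_element k L'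
  let A := AlgebraicClosure K
  let J : L' →ₐ[k] A := IsAlgClosed.lift
  let iK : K →ₐ[S] A := IsScalarTower.toAlgHom S K A
  have hJα : IsIntegral S (J α) := ((Algebra.IsIntegral.isIntegral (R := k) α).map J).tower_top
  let N₀ : IntermediateField S A := iK.fieldRange ⊔ IntermediateField.adjoin S {J α}
  have h1 : FiniteDimensional S iK.fieldRange :=
    (AlgEquiv.ofInjectiveField iK).toLinearEquiv.finiteDimensional
  have h2 : FiniteDimensional S (IntermediateField.adjoin S {J α}) :=
    IntermediateField.adjoin.finiteDimensional hJα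
  have h3 : FiniteDimensional S N₀ := IntermediateField.finiteDimensional_sup _ _
  let N : IntermediateField S A := IntermediateField.normalClosure S N₀ A
  have h4 : FiniteDimensional S N := normalClosure.is_finiteDimensional S N₀ A
  have h5 : Normal S N := normalClosure.normal S N₀ A
  have h6 : IsGalois S N := { }
  have h7 : N₀ ≤ N := IntermediateField.le_normalClosure N₀
  let iN : K →ₐ[S] N := iK.codRestrict N.toSubalgebra (fun a => h7 (le_sup_left
    (a := iK.fieldRange) ⟨a, rfl⟩))
  let _ : Algebra K N := (iN : K →+* N).toAlgebra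
  have h8 : IsScalarTower S K N := IsScalarTower.of_algebraMap_eq fun s => (iN.commutes s).symm
  have h9 : IsScalarTower k K N := IsScalarTower.of_algebraMap_eq fun c => by
    apply Subtype.ext
    exact IsScalarTower.algebraMap_apply k K A c
  have hJN : ∀ l : L', J l ∈ N := by
    have h10 : Algebra.adjoin k {α} ≤ (N.restrictScalars k).toSubalgebra.comap J := by
      rw [Algebra.adjoin_le_iff]
      intro x hx
      rw [Set.mem_singleton_iff.1 hx]
      exact h7 (le_sup_right (a := iK.fieldRange) (IntermediateField.mem_adjoin_simple_self S _))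
    have h11 : Algebra.adjoin k {α} = ⊤ := by
      rw [← IntermediateField.adjoin_simple_toSubalgebra_of_isAlgebraic
        (Algebra.IsAlgebraic.isAlgebraic α), hα, IntermediateField.top_toSubalgebra]
    intro l
    exact h10 (by rw [h11]; trivial)
  let j : L' →ₐ[k] N := J.codRestrict (N.restrictScalars k).toSubalgebra hJN
  obtain ⟨E, hE1, hE2, hE3, hE4⟩ := disj_core (N := N) θ hreg hS HP L' j
  exact ⟨E, hE1, hE2, hE3, le_bot_iff.1 ((inf_le_inf_left E hLL').trans hE4.le)⟩

end

end Pool.Agent.Helper44q.Q
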