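import Pool.Agent.Helper44q.Q.Quot
import Pool.Agent.W240.HP.Lift
import Pool.Agent.W790.HP.HPF
import Pool.Agent.W74.HP.HPI

/-! The action of the Galois group of `E` on the coefficients of rational functions over `E`. -/

set_option autoImplicit false

namespace Pool.Agent.Helper44q.Q

open IntermediateField

/-- rational functions in `n` variables -/
abbrev Rat' (E : Type) [Field E] (n : ℕ) : Type := FractionRing (MvPolynomial (Fin n) E)

section

variable {k E G : Type} [Field k] [Field E] [Algebra k E] [Group G]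

theorem alg_hom_ext_adjoin {Ω A : Type} [Field Ω] [Field A] [Algebra k Ω] [Algebra k A]
    {s : Set Ω} (hs : IntermediateField.adjoin k s = ⊤) (f g : Ω →ₐ[k] A)
    (h : ∀ z ∈ s, f z = g z) : f = g := by
  have h1 : IntermediateField.adjoin k s ≤ eqField f g := by
    rw [IntermediateField.adjoin_le_iff]
    exact fun z hz => h z hz
  rw [hs] at h1
  exact AlgHom.ext fun z => h1 (IntermediateField.mem_top (x := z))

/-- the variables -/
noncomputable def yv (E : Type) [Field E] (n : ℕ) (i : Fin n) : Rat' E n :=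
  algebraMap (MvPolynomial (Fin n) E) (Rat' E n) (MvPolynomial.X i)

theorem adjoin_yv (k : Type) [Field k] (n : ℕ) :
    IntermediateField.adjoin k (Set.range (yv k n)) = ⊤ := by
  rw [eq_top_iff]
  intro z _
  have hp : ∀ p : MvPolynomial (Fin n) k, algebraMap (MvPolynomial (Fin n) k) (Rat' k n) p ∈
      IntermediateField.adjoin k (Set.range (yv k n)) := by
    intro p
    induction p using MvPolynomial.induction_on with
    | C c =>
      have : algebraMap (MvPolynomial (Fin n) k) (Rat' k n) (MvPolynomial.C c) =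
          algebraMap k (Rat' k n) c := by
        rw [IsScalarTower.algebraMap_apply k (MvPolynomial (Fin n) k) (Rat' k n)]
        rfl
      rw [this]
      exact IntermediateField.algebraMap_mem _ _
    | add p q hp hq => rw [map_add]; exact add_mem hp hq
    | mul_X p i hp =>
      rw [map_mul]
      exact mul_mem hp (subset_adjoin _ _ ⟨i, rfl⟩)
  obtain ⟨a, b, -, rfl⟩ := IsFractionRing.div_surjective (A := MvPolynomial (Fin n) k) z
  exact div_mem (hp a) (hp b)

theorem algInd_yv (k E : Type) [Field k] [Field E] [Algebra k E] (n : ℕ) :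
    AlgebraicIndependent k (yv E n) := by
  have h1 : AlgebraicIndependent E (yv E n) :=
    (MvPolynomial.algebraicIndependent_X (Fin n) E).map'
      (f := IsScalarTower.toAlgHom E (MvPolynomial (Fin n) E) (Rat' E n))
      (IsFractionRing.injective (MvPolynomial (Fin n) E) (Rat' E n))
  exact h1.restrictScalars (algebraMap k E).injective

/-- the action of one automorphism on the coefficients -/
noncomputable def coef1 (n : ℕ) (σ : E ≃ₐ[k] E) : Rat' E n ≃ₐ[k] Rat' E n :=
  AlgEquiv.ofRingEquiv (f := IsFractionRing.ringEquivOfRingEquiv (K := Rat' E n) (L := Rat' E n)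
    ((MvPolynomial.mapAlgEquiv (Fin n) σ : MvPolynomial (Fin n) E ≃ₐ[k] MvPolynomial (Fin n) E) :
      MvPolynomial (Fin n) E ≃+* MvPolynomial (Fin n) E)) (fun c => by
    rw [IsScalarTower.algebraMap_apply k (MvPolynomial (Fin n) E) (Rat' E n),
      IsFractionRing.ringEquivOfRingEquiv_algebraMap]
    congr 1
    exact (MvPolynomial.mapAlgEquiv (Fin n) σ).commutes c)

theorem coef1_poly (n : ℕ) (σ : E ≃ₐ[k] E) (p : MvPolynomial (Fin n) E) :
    coef1 n σ (algebraMap (MvPolynomial (Fin n) E) (Rat' E n) p) =
      algebraMap (MvPolynomial (Fin n) E) (Rat' E n) (MvPolynomial.map (σ : E →+* E) p) := by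
  change IsFractionRing.ringEquivOfRingEquiv (K := Rat' E n) (L := Rat' E n)
    ((MvPolynomial.mapAlgEquiv (Fin n) σ : MvPolynomial (Fin n) E ≃ₐ[k] MvPolynomial (Fin n) E) :
      MvPolynomial (Fin n) E ≃+* MvPolynomial (Fin n) E) _ = _
  rw [IsFractionRing.ringEquivOfRingEquiv_algebraMap]
  rfl

theorem coef1_C (n : ℕ) (σ : E ≃ₐ[k] E) (a : E) :
    coef1 n σ (algebraMap E (Rat' E n) a) = algebraMap E (Rat' E n) (σ a) := by
  have h : ∀ a : E, algebraMap E (Rat' E n) a =
      algebraMap (MvPolynomial (Fin n) E) (Rat' E n) (MvPolynomial.C a) := by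
    intro a
    rw [IsScalarTower.algebraMap_apply E (MvPolynomial (Fin n) E) (Rat' E n)]
    rfl
  rw [h, coef1_poly, MvPolynomial.map_C, h]
  rfl

theorem coef1_yv (n : ℕ) (σ : E ≃ₐ[k] E) (i : Fin n) : coef1 n σ (yv E n i) = yv E n i := by
  rw [yv, coef1_poly, MvPolynomial.map_X]

theorem gen_E (n : ℕ) : (IsScalarTower.toAlgHom k E (Rat' E n)).fieldRange ⊔
    IntermediateField.adjoin k (Set.range (yv E n)) = ⊤ := by
  rw [eq_top_iff]
  intro z _
  have hp : ∀ p : MvPolynomial (Fin n) E, algebraMap (MvPolynomial (Fin n) E) (Rat' E n) p ∈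
      (IsScalarTower.toAlgHom k E (Rat' E n)).fieldRange ⊔
        IntermediateField.adjoin k (Set.range (yv E n)) := by
    intro p
    induction p using MvPolynomial.induction_on with
    | C c =>
      have : algebraMap (MvPolynomial (Fin n) E) (Rat' E n) (MvPolynomial.C c) =
          algebraMap E (Rat' E n) c := by
        rw [IsScalarTower.algebraMap_apply E (MvPolynomial (Fin n) E) (Rat' E n)]
        rfl
      rw [this]
      exact le_sup_left (a := (IsScalarTower.toAlgHom k E (Rat' E n)).fieldRange) ⟨c, rfl⟩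
    | add p q hp hq => rw [map_add]; exact add_mem hp hq
    | mul_X p i hp =>
      rw [map_mul]
      refine mul_mem hp ?_
      exact le_sup_right (a := (IsScalarTower.toAlgHom k E (Rat' E n)).fieldRange)
        (subset_adjoin _ _ ⟨i, rfl⟩)
  obtain ⟨a, b, -, rfl⟩ := IsFractionRing.div_surjective (A := MvPolynomial (Fin n) E) z
  exact div_mem (hp a) (hp b)

/-- the action of the group -/
noncomputable def coef (n : ℕ) (φ : G ≃* (E ≃ₐ[k] E)) : G →* (Rat' E n ≃ₐ[k] Rat' E n) where
  toFun g := coef1 n (φ g)
  map_one' := by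
    ext z
    refine hom_ext_sup (gen_E (k := k) (E := E) n) (coef1 n (φ 1) : Rat' E n →ₐ[k] Rat' E n)
      (AlgHom.id k _) ?_ ?_ z
    · rintro _ ⟨a, rfl⟩
      change coef1 n (φ 1) (algebraMap E (Rat' E n) a) = algebraMap E (Rat' E n) a
      rw [coef1_C, map_one]
      rfl
    · intro y hy
      have h : (adjoin k (Set.range (yv E n))) ≤
          eqField (coef1 n (φ 1) : Rat' E n →ₐ[k] Rat' E n) (AlgHom.id k _) := by
        rw [adjoin_le_iff]
        rintro _ ⟨i, rfl⟩
        exact coef1_yv n (φ 1) i
      exact h hy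
  map_mul' g g' := by
    ext z
    refine hom_ext_sup (gen_E (k := k) (E := E) n)
      (coef1 n (φ (g * g')) : Rat' E n →ₐ[k] Rat' E n)
      ((coef1 n (φ g) : Rat' E n →ₐ[k] Rat' E n).comp (coef1 n (φ g') : Rat' E n →ₐ[k] Rat' E n))
      ?_ ?_ z
    · rintro _ ⟨a, rfl⟩
      change coef1 n (φ (g * g')) (algebraMap E (Rat' E n) a) =
        coef1 n (φ g) (coef1 n (φ g') (algebraMap E (Rat' E n) a))
      rw [coef1_C, coef1_C, coef1_C, map_mul]
      rfl
    · intro y hy
      have h : (adjoin k (Set.range (yv E n))) ≤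
          eqField (coef1 n (φ (g * g')) : Rat' E n →ₐ[k] Rat' E n)
            ((coef1 n (φ g) : Rat' E n →ₐ[k] Rat' E n).comp
              (coef1 n (φ g') : Rat' E n →ₐ[k] Rat' E n)) := by
        rw [adjoin_le_iff]
        rintro _ ⟨i, rfl⟩
        change coef1 n (φ (g * g')) (yv E n i) = coef1 n (φ g) (coef1 n (φ g') (yv E n i))
        rw [coef1_yv, coef1_yv, coef1_yv]
      exact h hy

/-- the elements fixed by the group are the rational functions over `k` -/
theorem mem_of_fixed [Finite G] [CharZero k] [FiniteDimensional k E] [IsGalois k E] (n : ℕ)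
    (φ : G ≃* (E ≃ₐ[k] E)) (z : Rat' E n) (hz : ∀ g, coef n φ g z = z) :
    z ∈ IntermediateField.adjoin k (Set.range (yv E n)) := by
  classical
  have := Fintype.ofFinite G
  let E' := (IsScalarTower.toAlgHom k E (Rat' E n)).fieldRange
  let F := IntermediateField.adjoin k (Set.range (yv E n))
  have halg : Algebra.IsAlgebraic k E' := by
    let ε : E ≃ₐ[k] E' := AlgEquiv.ofInjectiveField (IsScalarTower.toAlgHom k E (Rat' E n))
    exact ε.isAlgebraic
  have hF : ∀ g, ∀ y ∈ F, coef n φ g y = y := by
    intro g y hy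
    have h : F ≤ eqField (coef n φ g : Rat' E n →ₐ[k] Rat' E n) (AlgHom.id k _) := by
      rw [adjoin_le_iff]
      rintro _ ⟨i, rfl⟩
      exact coef1_yv n (φ g) i
    exact h hy
  have key : ∀ y : Rat' E n, ∑ g, coef n φ g y ∈ F := by
    intro y
    have h1 : y ∈ Subalgebra.toSubmodule E'.toSubalgebra * Subalgebra.toSubmodule F.toSubalgebra := by
      rw [Subalgebra.mul_toSubmodule, ← sup_toSubalgebra_of_isAlgebraic_left, gen_E]
      exact Submodule.mem_top
    refine Submodule.mul_induction_on h1 ?_ ?_
    · rintro _ ⟨a, rfl⟩ f hf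
      have h2 : ∑ g, φ g a ∈ Set.range (algebraMap k E) := by
        rw [IsGalois.mem_range_algebraMap_iff_fixed]
        intro τ
        obtain ⟨h, rfl⟩ := φ.surjective τ
        rw [map_sum]
        refine Fintype.sum_equiv (Equiv.mulLeft h) _ _ fun g => ?_
        change φ h (φ g a) = φ (h * g) a
        rw [map_mul]
        rfl
      obtain ⟨c, hc⟩ := h2
      have h3 : ∑ g, coef n φ g (algebraMap E (Rat' E n) a * f) =
          algebraMap k (Rat' E n) c * f := by
        have h4 : ∀ g, coef n φ g (algebraMap E (Rat' E n) a * f) =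
            algebraMap E (Rat' E n) (φ g a) * f := by
          intro g
          rw [map_mul, hF g f hf]
          congr 1
          exact coef1_C n (φ g) a
        rw [Finset.sum_congr rfl fun g _ => h4 g, ← Finset.sum_mul, ← map_sum, ← hc,
          ← IsScalarTower.algebraMap_apply]
      change ∑ g, coef n φ g (algebraMap E (Rat' E n) a * f) ∈ F
      rw [h3]
      exact mul_mem (IntermediateField.algebraMap_mem _ _) hf
    · intro a b ha hb
      simp only [map_add, Finset.sum_add_distrib]
      exact add_mem ha hb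
  have h5 := key z
  rw [Finset.sum_congr rfl fun g _ => hz g, Finset.sum_const, Finset.card_univ,
    nsmul_eq_mul] at h5
  have hcz : CharZero (Rat' E n) :=
    charZero_of_injective_algebraMap (algebraMap k (Rat' E n)).injective
  have h6 : (Fintype.card G : Rat' E n) ≠ 0 := by
    exact_mod_cast Fintype.card_ne_zero
  have h7 : z = (Fintype.card G : Rat' E n)⁻¹ * ((Fintype.card G : Rat' E n) * z) := by
    rw [inv_mul_cancel_left₀ h6]
  rw [h7]
  exact mul_mem (inv_mem (IntermediateField.natCast_mem _ _)) h5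

end

end Pool.Agent.Helper44q.Q
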