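import Pool.Agent.Helper44q.Q.Reg2

/-! The two forms of the Hilbert property of a finitely generated field extension. -/

set_option autoImplicit false

namespace Pool.Agent.Helper44q.Q

open AlgebraicGeometry CategoryTheory W560.HP Polynomial
open Pool.Agent.TH178.HI (HasFunctionField)

section

variable {k T : Type} [Field k] [Field T] [Algebra k T]

/-- irreducible monic polynomials suffice -/
theorem hpf_of_irr
    (H : ∀ (L : Finset T[X]), (∀ Q ∈ L, Irreducible Q ∧ Q.Monic ∧ ∀ a : T, Q.eval a ≠ 0) →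
      ∀ S : Finset T, ∃ (B : Subalgebra k T) (φ : B →ₐ[k] k), (S : Set T) ⊆ B ∧
        ∀ Q ∈ L, ∃ Q' : B[X], Q'.map (algebraMap B T) = Q ∧
          ∀ x : k, (Q'.map (φ : B →+* k)).eval x ≠ 0) : HPF k T := by
  classical
  intro q P hP S
  have hP0 : ∀ j, P j ≠ 0 := fun j h => hP j 0 (by rw [h, eval_zero])
  obtain ⟨L, hL⟩ : ∃ L : Finset T[X], ∀ Q, Q ∈ L ↔
      ∃ j, Q ∈ UniqueFactorizationMonoid.normalizedFactors (P j) := by
    refine ⟨Finset.univ.biUnion fun j : Fin q =>
      (UniqueFactorizationMonoid.normalizedFactors (P j)).toFinset, fun Q => ?_⟩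
    rw [Finset.mem_biUnion]
    simp only [Finset.mem_univ, true_and, Multiset.mem_toFinset]
  have hLi : ∀ Q ∈ L, Irreducible Q ∧ Q.Monic ∧ ∀ a : T, Q.eval a ≠ 0 := by
    intro Q hQ
    obtain ⟨j, hj⟩ := (hL Q).1 hQ
    have h1 := UniqueFactorizationMonoid.irreducible_of_normalized_factor Q hj
    refine ⟨h1, ?_, fun a ha => ?_⟩
    · have h2 := UniqueFactorizationMonoid.normalize_normalized_factor Q hj
      rw [← h2]
      exact monic_normalize h1.ne_zero
    · obtain ⟨R, hR⟩ := UniqueFactorizationMonoid.dvd_of_mem_normalizedFactors hj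
      exact hP j a (by rw [hR, eval_mul, ha, zero_mul])
  obtain ⟨B, φ, hS, hB⟩ := H L hLi (S ∪ Finset.univ.image (fun j => (P j).leadingCoeff) ∪
    Finset.univ.image (fun j => (P j).leadingCoeff⁻¹))
  have hc : ∀ j, (P j).leadingCoeff ∈ B := fun j => hS (by
    simp only [Finset.coe_union, Set.mem_union, Finset.mem_coe]
    exact Or.inl (Or.inr (Finset.mem_image_of_mem _ (Finset.mem_univ j))))
  have hc' : ∀ j, (P j).leadingCoeff⁻¹ ∈ B := fun j => hS (by
    simp only [Finset.coe_union, Set.mem_union, Finset.mem_coe]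
    exact Or.inr (Finset.mem_image_of_mem (fun j => (P j).leadingCoeff⁻¹) (Finset.mem_univ j)))
  have hφ : ∀ j, φ ⟨_, hc j⟩ ≠ 0 := by
    intro j h
    have h1 : (⟨_, hc j⟩ : B) * ⟨_, hc' j⟩ = 1 :=
      Subtype.ext (mul_inv_cancel₀ (leadingCoeff_ne_zero.2 (hP0 j)))
    have h2 := congrArg φ h1
    rw [map_mul, h, zero_mul, map_one] at h2
    exact zero_ne_one h2
  have hB' : ∀ Q : T[X], ∃ Q' : B[X], Q ∈ L → Q'.map (algebraMap B T) = Q ∧
      ∀ x : k, (Q'.map (φ : B →+* k)).eval x ≠ 0 := by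
    intro Q
    by_cases hQ : Q ∈ L
    · obtain ⟨Q', h⟩ := hB Q hQ
      exact ⟨Q', fun _ => h⟩
    · exact ⟨0, fun h => absurd h hQ⟩
  choose g hg using hB'
  refine ⟨B, φ, fun j => C ⟨_, hc j⟩ *
    ((UniqueFactorizationMonoid.normalizedFactors (P j)).map g).prod, fun s hs => hS ?_,
    fun j => ?_, fun j x => ?_⟩
  · simp only [Finset.coe_union, Set.mem_union, Finset.mem_coe]
    exact Or.inl (Or.inl hs)
  · rw [Polynomial.map_mul, map_C, ← coe_mapRingHom, map_multiset_prod, Multiset.map_map]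
    have h1 : (UniqueFactorizationMonoid.normalizedFactors (P j)).map
        ((mapRingHom (algebraMap B T)) ∘ g) = UniqueFactorizationMonoid.normalizedFactors (P j) := by
      conv_rhs => rw [← Multiset.map_id (UniqueFactorizationMonoid.normalizedFactors (P j))]
      refine Multiset.map_congr rfl fun Q hQ => ?_
      exact (hg Q ((hL Q).2 ⟨j, hQ⟩)).1
    rw [h1]
    exact leadingCoeff_mul_prod_normalizedFactors (P j)
  · rw [Polynomial.map_mul, map_C, eval_mul, eval_C]
    refine mul_ne_zero (hφ j) ?_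
    rw [← coe_mapRingHom, map_multiset_prod, ← coe_evalRingHom, map_multiset_prod,
      Multiset.map_map, Multiset.map_map]
    intro h
    rw [Multiset.prod_eq_zero_iff, Multiset.mem_map] at h
    obtain ⟨Q, hQ, hQ'⟩ := h
    exact (hg Q ((hL Q).2 ⟨j, hQ⟩)).2 x hQ'

/-- the cover defined by a monic polynomial -/
theorem adjoin_data {B : Subalgebra k T}
    (Q : T[X]) (hQ : Irreducible Q) (hQ1 : ∀ a : T, Q.eval a ≠ 0) (Q' : B[X]) (hm : Q'.Monic)
    (hmap : Q'.map (algebraMap B T) = Q) :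
    IsDomain (AdjoinRoot Q') ∧ (AdjoinRoot.of Q').Finite ∧
      Function.Injective (AdjoinRoot.of Q') ∧
      ∀ a b : B, b ≠ 0 → AdjoinRoot.of Q' b * AdjoinRoot.root Q' ≠ AdjoinRoot.of Q' a := by
  have hinj : Function.Injective (algebraMap B T) := fun a b h => Subtype.ext h
  have hdvd : ∀ f : B[X], Q' ∣ f ↔ Q ∣ f.map (algebraMap B T) := by
    intro f
    rw [← hmap]
    exact (map_dvd_map (algebraMap B T) hinj hm).symm
  have hprime : Prime Q' := by
    refine ⟨hm.ne_zero, fun hu => ?_, fun f g hfg => ?_⟩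
    · exact hQ.not_isUnit (by rw [← hmap]; exact hu.map (mapRingHom (algebraMap B T)))
    · rw [hdvd, Polynomial.map_mul] at hfg
      rw [hdvd, hdvd]
      exact hQ.prime.2.2 _ _ hfg
  have hdeg : Q'.degree ≠ 0 := by
    intro h
    have h1 : Q.degree = 0 := by rw [← hmap, hm.degree_map, h]
    exact hQ.not_isUnit (isUnit_iff_degree_eq_zero.2 h1)
  refine ⟨AdjoinRoot.isDomain_of_prime hprime, ?_,
    AdjoinRoot.of.injective_of_degree_ne_zero hdeg, fun a b hb h => ?_⟩
  · have h1 : Module.Finite B (AdjoinRoot Q') := hm.finite_adjoinRoot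
    have h2 : (algebraMap B (AdjoinRoot Q')).Finite := RingHom.finite_algebraMap.2 h1
    exact h2
  · have h1 : AdjoinRoot.mk Q' (C b * X) = AdjoinRoot.mk Q' (C a) := by
      rw [map_mul, AdjoinRoot.mk_C, AdjoinRoot.mk_C, AdjoinRoot.mk_X]
      exact h
    rw [AdjoinRoot.mk_eq_mk, hdvd] at h1
    have hb' : (b : T) ≠ 0 := fun h => hb (Subtype.ext h)
    have h2 : Q.degree ≤ 1 := by
      refine (degree_le_of_dvd h1 ?_).trans ?_
      · intro h3
        have h4 := congrArg (fun f => f.coeff 1) h3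
        simp at h4
        exact hb h4
      · rw [Polynomial.map_sub, Polynomial.map_mul, map_C, map_X, map_C]
        refine (degree_sub_le _ _).trans (max_le ?_ ?_)
        · exact degree_C_mul_X_le _
        · exact degree_C_le.trans zero_le_one
    have h3 : 0 < Q.degree := by
      refine lt_of_le_of_ne (zero_le_degree_iff.2 hQ.ne_zero) (fun h => ?_)
      exact hQ.not_isUnit (isUnit_iff_degree_eq_zero.2 h.symm)
    have h4 : Q.degree = 1 := by
      rw [degree_eq_natDegree hQ.ne_zero] at h2 h3 ⊢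
      have h5 : 0 < Q.natDegree := by exact_mod_cast h3
      have h6 : Q.natDegree ≤ 1 := by exact_mod_cast h2
      have h7 : Q.natDegree = 1 := by omega
      rw [h7]; rfl
    obtain ⟨x, hx⟩ := exists_root_of_degree_eq_one h4
    exact hQ1 x hx

/-- from schemes to the function field -/
theorem hpf_of_hilbertType (hT : FinGen k T) (h : HilbertType k T) : HPF k T := by
  classical
  refine hpf_of_irr fun L hL S => ?_
  obtain ⟨F, hF⟩ := hT
  let W : Finset T := F ∪ S ∪ L.biUnion fun Q => Q.coeffs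
  let B : Subalgebra k T := Algebra.adjoin k (W : Set T)
  have hWB : ∀ w ∈ W, w ∈ B := fun w hw => Algebra.subset_adjoin (Finset.mem_coe.2 hw)
  have hfrac : ∀ z : T, ∃ a b : B, b ≠ 0 ∧ z * b = a := by
    intro z
    have h1 : z ∈ IntermediateField.adjoin k (W : Set T) := by
      have h2 : z ∈ IntermediateField.adjoin k (F : Set T) := by
        rw [hF]; exact IntermediateField.mem_top
      refine IntermediateField.adjoin.mono k _ _ ?_ h2
      intro x hx
      simp only [W, Finset.coe_union, Set.mem_union, Finset.mem_coe]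
      exact Or.inl (Or.inl hx)
    obtain ⟨r, hr, s, hs, rfl⟩ := IntermediateField.mem_adjoin_iff_div.1 h1
    by_cases h0 : s = 0
    · exact ⟨0, 1, one_ne_zero, by rw [h0, div_zero, zero_mul]; rfl⟩
    · exact ⟨⟨r, hr⟩, ⟨s, hs⟩, fun h => h0 (congrArg Subtype.val h), div_mul_cancel₀ _ h0⟩
  have hFR : IsFractionRing B T := by
    refine IsFractionRing.of_field _ _ fun z => ?_
    obtain ⟨a, b, hb, hab⟩ := hfrac z
    refine ⟨a, b, ?_⟩
    have hb' : (b : T) ≠ 0 := fun h => hb (Subtype.ext h)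
    exact (eq_div_iff hb').2 hab
  have hft : LocallyOfFiniteType (fB k B) := by
    rw [HasRingHomProperty.Spec_iff (P := @LocallyOfFiniteType)]
    have h0 : (algebraMap k B).FiniteType := RingHom.finiteType_algebraMap.2
      ((Subalgebra.fg_iff_finiteType _).1 (Subalgebra.fg_adjoin_finset W))
    exact h0
  have h1 := (h (XB B) (fB k B) (hasFF_spec k B T)).1
  have hlift : ∀ Q : L, ∃ Q' : B[X], Q'.Monic ∧ Q'.map (algebraMap B T) = Q := by
    intro Q
    have h4 : (Q : T[X]) ∈ lifts (algebraMap B T) := by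
      rw [lifts_iff_coeff_lifts]
      intro n
      by_cases h0 : (Q : T[X]).coeff n = 0
      · exact ⟨0, by rw [map_zero, h0]⟩
      · have h5 : (Q : T[X]).coeff n ∈ B := by
          refine hWB _ ?_
          simp only [W, Finset.mem_union]
          exact Or.inr (Finset.mem_biUnion.2 ⟨Q, Q.2, coeff_mem_coeffs h0⟩)
        exact ⟨⟨_, h5⟩, rfl⟩
    obtain ⟨Q', hQ'⟩ := (mem_lifts _).1 h4
    refine ⟨Q', ?_, hQ'⟩
    refine monic_of_injective (f := algebraMap B T) (fun a b h => Subtype.ext h) ?_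
    rw [hQ']
    exact (hL Q Q.2).2.1
  choose Q' hQm hQ' using hlift
  obtain ⟨q, ⟨e⟩⟩ := Finite.exists_equiv_fin L
  have hdata := fun j : Fin q => adjoin_data (e.symm j : T[X]) (hL _ (e.symm j).2).1
    (hL _ (e.symm j).2).2.2 (Q' (e.symm j)) (hQm _) (hQ' _)
  have hdom : ∀ j : Fin q, IsDomain (AdjoinRoot (Q' (e.symm j))) := fun j => (hdata j).1
  obtain ⟨y, hy⟩ := exists_point k B h1 q (fun j => AdjoinRoot (Q' (e.symm j)))
    (fun j => AdjoinRoot.of (Q' (e.symm j))) (fun j => (hdata j).2.1) (fun j => (hdata j).2.2.1)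
    (fun j => ⟨AdjoinRoot.root _, (hdata j).2.2.2⟩)
  refine ⟨B, y, fun s hs => hWB s ?_, fun Q hQ => ⟨Q' ⟨Q, hQ⟩, hQ' _, fun x hx => ?_⟩⟩
  · simp only [W, Finset.mem_union]
    exact Or.inl (Or.inr hs)
  · have h2 := hy (e ⟨Q, hQ⟩)
    rw [Equiv.symm_apply_apply] at h2
    refine h2 (AdjoinRoot.lift (y : B →+* k) x ?_) (AdjoinRoot.lift_comp_of _)
    rw [← Polynomial.eval_map]
    exact hx

end

end Pool.Agent.Helper44q.Q
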