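import Mathlib

/-! Subalgebras of a Galois extension stable under the Galois group, and their invariants. -/

set_option autoImplicit false

namespace Pool.Agent.Helper44q.Q

section

variable {k S N : Type} [Field k] [Field S] [Field N] [Algebra k S] [Algebra S N] [Algebra k N]
  [IsScalarTower k S N]

/-- the elements of `C` fixed by `H` -/
def fx (C : Subalgebra k N) (H : Subgroup (N ≃ₐ[S] N)) : Subalgebra k N where
  carrier := {c | c ∈ C ∧ ∀ σ ∈ H, σ c = c}
  mul_mem' := fun {a b} ha hb => ⟨C.mul_mem ha.1 hb.1, fun σ hσ => by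
    rw [map_mul, ha.2 σ hσ, hb.2 σ hσ]⟩
  add_mem' := fun {a b} ha hb => ⟨C.add_mem ha.1 hb.1, fun σ hσ => by
    rw [map_add, ha.2 σ hσ, hb.2 σ hσ]⟩
  algebraMap_mem' := fun r => ⟨C.algebraMap_mem r, fun σ _ => by
    rw [IsScalarTower.algebraMap_apply k S N, σ.commutes]⟩

theorem mem_fx {C : Subalgebra k N} {H : Subgroup (N ≃ₐ[S] N)} {c : N} :
    c ∈ fx C H ↔ c ∈ C ∧ ∀ σ ∈ H, σ c = c := Iff.rfl

variable (S) in
/-- the elements of `S` in `C` -/
def bs (C : Subalgebra k N) : Subalgebra k S := C.comap (IsScalarTower.toAlgHom k S N)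

theorem mem_bs {C : Subalgebra k N} {s : S} : s ∈ bs S C ↔ algebraMap S N s ∈ C := Iff.rfl

/-- the inclusion -/
def bsTo (C : Subalgebra k N) (H : Subgroup (N ≃ₐ[S] N)) : bs S C →+* fx C H where
  toFun s := ⟨algebraMap S N s, s.2, fun σ _ => σ.commutes _⟩
  map_one' := Subtype.ext (by simp)
  map_mul' a b := Subtype.ext (by simp)
  map_zero' := Subtype.ext (by simp)
  map_add' a b := Subtype.ext (by simp)

/-- the inclusion -/
def bsC (C : Subalgebra k N) : bs S C →+* C where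
  toFun s := ⟨algebraMap S N s, s.2⟩
  map_one' := Subtype.ext (by simp)
  map_mul' a b := Subtype.ext (by simp)
  map_zero' := Subtype.ext (by simp)
  map_add' a b := Subtype.ext (by simp)

/-- the action on a stable subalgebra -/
@[reducible] def act (C : Subalgebra k N) (hC : ∀ (σ : N ≃ₐ[S] N), ∀ c ∈ C, σ c ∈ C) :
    MulSemiringAction (N ≃ₐ[S] N) C where
  smul σ c := ⟨σ c, hC σ c c.2⟩
  one_smul _ := rfl
  mul_smul _ _ _ := rfl
  smul_zero σ := Subtype.ext (map_zero σ)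
  smul_add σ _ _ := Subtype.ext (map_add σ _ _)
  smul_one σ := Subtype.ext (map_one σ)
  smul_mul σ _ _ := Subtype.ext (map_mul σ _ _)

variable [FiniteDimensional S N] [IsGalois S N]

theorem finite_C (C : Subalgebra k N) (hfg : Algebra.FiniteType k C)
    (hC : ∀ (σ : N ≃ₐ[S] N), ∀ c ∈ C, σ c ∈ C) : (bsC (S := S) C).Finite := by
  let _ : Algebra (bs S C) C := (bsC C).toAlgebra
  let _ := act C hC
  have hinv : Algebra.IsInvariant (bs S C) C (N ≃ₐ[S] N) := by
    refine ⟨fun c hc => ?_⟩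
    have h1 : ∀ σ : N ≃ₐ[S] N, σ (c : N) = c := fun σ => congrArg Subtype.val (hc σ)
    obtain ⟨s, hs⟩ := (IsGalois.mem_range_algebraMap_iff_fixed _).2 h1
    refine ⟨⟨s, mem_bs.2 (by rw [hs]; exact c.2)⟩, Subtype.ext hs⟩
  have hint : Algebra.IsIntegral (bs S C) C := Algebra.IsInvariant.isIntegral _ _ (N ≃ₐ[S] N)
  have hst : IsScalarTower k (bs S C) C := IsScalarTower.of_algebraMap_eq fun r => by
    apply Subtype.ext
    exact IsScalarTower.algebraMap_apply k S N r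
  have hft : Algebra.FiniteType (bs S C) C := Algebra.FiniteType.of_restrictScalars_finiteType k _ _
  exact Algebra.IsIntegral.finite

theorem fg_bs (C : Subalgebra k N) (hfg : Algebra.FiniteType k C)
    (hC : ∀ (σ : N ≃ₐ[S] N), ∀ c ∈ C, σ c ∈ C) : Algebra.FiniteType k (bs S C) := by
  let _ : Algebra (bs S C) C := (bsC C).toAlgebra
  have hst : IsScalarTower k (bs S C) C := IsScalarTower.of_algebraMap_eq fun r => by
    apply Subtype.ext
    exact IsScalarTower.algebraMap_apply k S N r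
  have hfin : Module.Finite (bs S C) C := finite_C C hfg hC
  refine ⟨fg_of_fg_of_fg k (bs S C) C hfg.out hfin.fg_top ?_⟩
  intro a b h
  apply Subtype.ext
  exact (algebraMap S N).injective (congrArg Subtype.val h)

theorem finite_fx (C : Subalgebra k N) (hfg : Algebra.FiniteType k C)
    (hC : ∀ (σ : N ≃ₐ[S] N), ∀ c ∈ C, σ c ∈ C) (H : Subgroup (N ≃ₐ[S] N)) :
    (bsTo C H).Finite := by
  let _ : Algebra (bs S C) C := (bsC C).toAlgebra
  let _ : Algebra (bs S C) (fx C H) := (bsTo C H).toAlgebra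
  have hfin : Module.Finite (bs S C) C := finite_C C hfg hC
  have hft := fg_bs C hfg hC
  have hno : IsNoetherianRing (bs S C) := Algebra.FiniteType.isNoetherianRing k _
  have hno' : IsNoetherian (bs S C) C := isNoetherian_of_isNoetherianRing_of_finite _ _
  let f : fx C H →ₗ[bs S C] C :=
    { toFun := fun c => ⟨c, c.2.1⟩
      map_add' := fun a b => rfl
      map_smul' := fun a b => rfl }
  have hf : Function.Injective f := fun a b h =>
    Subtype.ext (congrArg (fun c : C => (c : N)) h)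
  exact Module.Finite.of_injective f hf


theorem norm_mem (C : Subalgebra k N) (hC : ∀ (σ : N ≃ₐ[S] N), ∀ c ∈ C, σ c ∈ C)
    (hN : ∀ z : N, ∃ b ∈ C, b ≠ 0 ∧ z * b ∈ C) (z : N) :
    ∃ b : S, b ∈ bs S C ∧ b ≠ 0 ∧ z * algebraMap S N b ∈ C := by
  classical
  obtain ⟨b, hb, hb0, hzb⟩ := hN z
  have h1 : ∀ τ : N ≃ₐ[S] N, τ (∏ σ : N ≃ₐ[S] N, σ b) = ∏ σ : N ≃ₐ[S] N, σ b := by
    intro τ
    rw [map_prod]
    exact Fintype.prod_equiv (Equiv.mulLeft τ) _ _ (fun σ => rfl)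
  obtain ⟨s, hs⟩ := (IsGalois.mem_range_algebraMap_iff_fixed _).2 h1
  have h2 : ∏ σ : N ≃ₐ[S] N, σ b ∈ C := prod_mem fun σ _ => hC σ b hb
  refine ⟨s, mem_bs.2 (by rw [hs]; exact h2), ?_, ?_⟩
  · rintro rfl
    rw [map_zero] at hs
    obtain ⟨σ, -, hσ⟩ := Finset.prod_eq_zero_iff.1 hs.symm
    exact hb0 ((map_eq_zero σ).1 hσ)
  · rw [hs, ← Finset.mul_prod_erase Finset.univ _ (Finset.mem_univ (1 : N ≃ₐ[S] N)),
      AlgEquiv.one_apply, ← mul_assoc]
    exact C.mul_mem hzb (prod_mem fun σ _ => hC σ b hb)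

theorem frac_bs (C : Subalgebra k N) (hC : ∀ (σ : N ≃ₐ[S] N), ∀ c ∈ C, σ c ∈ C)
    (hN : ∀ z : N, ∃ b ∈ C, b ≠ 0 ∧ z * b ∈ C) : IsFractionRing (bs S C) S := by
  refine IsFractionRing.of_field _ _ fun z => ?_
  obtain ⟨b, hb, hb0, hzb⟩ := norm_mem C hC hN (algebraMap S N z)
  refine ⟨⟨z * b, mem_bs.2 (by rw [map_mul]; exact hzb)⟩, ⟨b, hb⟩, ?_⟩
  change z = z * b / b
  rw [mul_div_cancel_right₀ _ hb0]

theorem exists_fx (C : Subalgebra k N) (hC : ∀ (σ : N ≃ₐ[S] N), ∀ c ∈ C, σ c ∈ C)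
    (hN : ∀ z : N, ∃ b ∈ C, b ≠ 0 ∧ z * b ∈ C) (H : Subgroup (N ≃ₐ[S] N)) (hH : H ≠ ⊤) :
    ∃ c : fx C H, (c : N) ∉ Set.range (algebraMap S N) := by
  have h1 : IntermediateField.fixedField H ≠ ⊥ := by
    intro h
    apply hH
    rw [← IntermediateField.fixingSubgroup_fixedField H, h, IntermediateField.fixingSubgroup_bot]
  obtain ⟨x, hx, hx'⟩ := SetLike.not_le_iff_exists.1 (fun h => h1 (le_bot_iff.1 h))
  obtain ⟨b, hb, hb0, hzb⟩ := norm_mem C hC hN x
  refine ⟨⟨x * algebraMap S N b, hzb, fun σ hσ => ?_⟩, ?_⟩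
  · rw [map_mul, σ.commutes, (IntermediateField.mem_fixedField_iff _ _).1 hx σ hσ]
  · rintro ⟨s, hs⟩
    apply hx'
    rw [IntermediateField.mem_bot]
    refine ⟨s / b, ?_⟩
    change algebraMap S N s = x * algebraMap S N b at hs
    rw [map_div₀, hs, mul_div_cancel_right₀]
    exact (map_ne_zero _).2 hb0

end

end Pool.Agent.Helper44q.Q
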