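import Mathlib

/-! Restriction of automorphisms to finite Galois subextensions; lifts of automorphisms. -/

set_option autoImplicit false

namespace Pool.Agent.Helper44q.Q

open IntermediateField

section lifts

variable {k A : Type} [Field k] [Field A] [Algebra k A]

/-- a subgroup of automorphisms of `A` with no new fixed elements in the finite Galois extension `E`
induces all automorphisms of `E` -/
theorem exists_restrict (E : IntermediateField k A) [FiniteDimensional k E] [IsGalois k E]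
    (D : Subgroup (A ≃ₐ[k] A))
    (hD : ∀ z ∈ E, (∀ σ ∈ D, σ z = z) → z ∈ Set.range (algebraMap k A)) (a : E ≃ₐ[k] E) :
    ∃ σ ∈ D, ∀ z : E, σ (z : A) = (a z : A) := by
  have hcom : ∀ (σ : A ≃ₐ[k] A) (z : E), ((AlgEquiv.restrictNormalHom E σ z : E) : A) = σ z :=
    fun σ z => AlgEquiv.restrictNormal_commutes σ E z
  let H : Subgroup (E ≃ₐ[k] E) := D.map (AlgEquiv.restrictNormalHom E)
  have h1 : fixedField H = ⊥ := by
    rw [eq_bot_iff]
    intro z hz
    rw [mem_fixedField_iff] at hz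
    obtain ⟨c, hc⟩ := hD z z.2 (fun σ hσ => by
      have := hz _ ⟨σ, hσ, rfl⟩
      rw [← hcom, this])
    rw [mem_bot]
    exact ⟨c, Subtype.ext hc⟩
  have h2 : H = ⊤ := by
    rw [← fixingSubgroup_fixedField H, h1, fixingSubgroup_bot]
  have h3 : a ∈ H := by rw [h2]; trivial
  obtain ⟨σ, hσ, rfl⟩ := h3
  exact ⟨σ, hσ, fun z => (hcom σ z).symm⟩

end lifts

section main

variable {k K A G : Type} [Field k] [Field K] [Field A] [Algebra k K] [Algebra K A] [Algebra k A]
  [IsScalarTower k K A]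

/-- the automorphisms of `A` over `K` as automorphisms over `k` -/
def overK (k K A : Type) [Field k] [Field K] [Field A] [Algebra k K] [Algebra K A] [Algebra k A]
    [IsScalarTower k K A] : Subgroup (A ≃ₐ[k] A) where
  carrier := {σ | ∀ a : K, σ (algebraMap K A a) = algebraMap K A a}
  mul_mem' := by
    intro σ τ hσ hτ a
    rw [AlgEquiv.mul_apply, hτ, hσ]
  one_mem' := fun a => rfl
  inv_mem' := by
    intro σ hσ a
    exact (AlgEquiv.symm_apply_eq σ).2 (hσ a).symm

theorem mem_overK {σ : A ≃ₐ[k] A} :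
    σ ∈ overK k K A ↔ ∀ a : K, σ (algebraMap K A a) = algebraMap K A a := Iff.rfl

/-- an element fixed by the automorphisms over `K` is in `K` -/
theorem mem_range_of_fixed [IsGalois K A] {z : A} (h : ∀ σ ∈ overK k K A, σ z = z) :
    z ∈ Set.range (algebraMap K A) := by
  rw [InfiniteGalois.mem_range_algebraMap_iff_fixed]
  intro f
  exact h (f.restrictScalars k) (fun a => f.commutes a)

/-- restriction to one finite Galois extension of `k` -/
theorem exists_over_one [IsGalois K A]
    (hreg : ∀ a : K, IsAlgebraic k a → a ∈ Set.range (algebraMap k K))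
    (E : IntermediateField k A) [FiniteDimensional k E] [IsGalois k E] (a : E ≃ₐ[k] E) :
    ∃ σ ∈ overK k K A, ∀ z : E, σ (z : A) = (a z : A) := by
  refine exists_restrict E _ (fun z hz h => ?_) a
  obtain ⟨y, rfl⟩ := mem_range_of_fixed h
  have h1 : IsAlgebraic k (algebraMap K A y) := by
    have : IsAlgebraic k (⟨_, hz⟩ : E) := Algebra.IsAlgebraic.isAlgebraic _
    exact this.algHom E.val
  have h2 : IsAlgebraic k y := (isAlgebraic_algebraMap_iff (algebraMap K A).injective).1 h1
  obtain ⟨c, rfl⟩ := hreg y h2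
  exact ⟨c, (IsScalarTower.algebraMap_apply k K A c)⟩

/-- restriction to two linearly disjoint finite Galois extensions of `k` -/
theorem exists_over_two [IsGalois K A]
    (hreg : ∀ a : K, IsAlgebraic k a → a ∈ Set.range (algebraMap k K))
    (E₁ E₂ : IntermediateField k A) [FiniteDimensional k E₁] [IsGalois k E₁]
    [FiniteDimensional k E₂] [IsGalois k E₂] (hE : E₁ ⊓ E₂ = ⊥) (a : E₁ ≃ₐ[k] E₁) :
    ∃ σ ∈ overK k K A, (∀ z : E₁, σ (z : A) = (a z : A)) ∧ ∀ z ∈ E₂, σ z = z := by
  let D : Subgroup (A ≃ₐ[k] A) := overK k K A ⊓ E₂.fixingSubgroup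
  have hD : ∀ z ∈ E₁, (∀ σ ∈ D, σ z = z) → z ∈ Set.range (algebraMap k A) := by
    intro z hz h
    have hz' : z ∈ E₁ ⊔ E₂ := le_sup_left (a := E₁) hz
    -- `z` is fixed by the automorphisms of `E₁ E₂` over `E₂`
    let E₂' : IntermediateField k ↥(E₁ ⊔ E₂) := IntermediateField.restrict
      (le_sup_right : E₂ ≤ E₁ ⊔ E₂)
    have h1 : (⟨z, hz'⟩ : ↥(E₁ ⊔ E₂)) ∈ E₂' := by
      rw [← IsGalois.fixedField_fixingSubgroup E₂', mem_fixedField_iff]
      intro b hb
      obtain ⟨σ, hσ, hσ'⟩ := exists_over_one (K := K) hreg (E₁ ⊔ E₂) b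
      have h2 : σ z = z := by
        refine h σ ⟨hσ, (IntermediateField.mem_fixingSubgroup_iff _ _).2 ?_⟩
        intro x hx
        have hx' : x ∈ E₁ ⊔ E₂ := le_sup_right (a := E₁) hx
        have h3 := hσ' ⟨x, hx'⟩
        have h4 : b ⟨x, hx'⟩ = ⟨x, hx'⟩ := by
          exact (IntermediateField.mem_fixingSubgroup_iff _ _).1 hb _
            ((IntermediateField.mem_restrict _ _).2 hx)
        rw [h4] at h3
        exact h3
      have h5 := hσ' ⟨z, hz'⟩
      exact Subtype.ext (h5.symm.trans h2)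
    have h6 : z ∈ E₂ := (IntermediateField.mem_restrict _ _).1 h1
    have h7 : z ∈ E₁ ⊓ E₂ := ⟨hz, h6⟩
    rw [hE] at h7
    exact IntermediateField.mem_bot.1 h7
  obtain ⟨σ, hσ, h⟩ := exists_restrict E₁ D hD a
  exact ⟨σ, hσ.1, h, fun z hz => (IntermediateField.mem_fixingSubgroup_iff _ _).1 hσ.2 z hz⟩

end main

end Pool.Agent.Helper44q.Q
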