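import Pool.Agent.Helper44q.Q.Gal

/-! Powers of a group as Galois groups, and linearly disjoint extensions. -/

set_option autoImplicit false

namespace Pool.Agent.Helper44q.Q

open IntermediateField

/-- `H` is the Galois group of a finite Galois extension of `k` -/
def IsGaloisGroupOver (k H : Type) [Field k] [Group H] : Prop :=
  ∃ (F : Type) (_ : Field F) (_ : Algebra k F), FiniteDimensional k F ∧ IsGalois k F ∧
    Nonempty ((F ≃ₐ[k] F) ≃* H)

section

variable {k G : Type} [Field k] [Group G]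

/-- inside the algebraic closure -/
theorem IsGaloisGroupOver.inside {H : Type} [Group H] (h : IsGaloisGroupOver k H) :
    ∃ F : IntermediateField k (AlgebraicClosure k), FiniteDimensional k F ∧ IsGalois k F ∧
      Nonempty ((F ≃ₐ[k] F) ≃* H) := by
  obtain ⟨F, _, _, hfin, hgal, ⟨ψ⟩⟩ := h
  let j : F →ₐ[k] AlgebraicClosure k := IsAlgClosed.lift
  let ε : F ≃ₐ[k] j.fieldRange := AlgEquiv.ofInjectiveField j
  exact ⟨j.fieldRange, ε.toLinearEquiv.finiteDimensional, IsGalois.of_algEquiv ε,
    ⟨(AlgEquiv.autCongr ε).symm.trans ψ⟩⟩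

/-- a power of `G` as Galois group gives linearly disjoint extensions with group `G` -/
theorem disjoint_of_pow {r : ℕ} (F : IntermediateField k (AlgebraicClosure k))
    [FiniteDimensional k F] [IsGalois k F] (ψ : (F ≃ₐ[k] F) ≃* (Fin r → G)) :
    ∃ (E : Fin r → IntermediateField k (AlgebraicClosure k))
      (_ : ∀ i, G ≃* (E i ≃ₐ[k] E i)), (∀ i, FiniteDimensional k (E i)) ∧
      (∀ i, IsGalois k (E i)) ∧ (∀ i j, i ≠ j → E i ⊓ E j = ⊥) := by
  classical
  let f : Fin r → (F ≃ₐ[k] F) →* G := fun i =>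
    (Pi.evalMonoidHom (fun _ : Fin r => G) i).comp (ψ : (F ≃ₐ[k] F) →* (Fin r → G))
  have hf : ∀ i, Function.Surjective (f i) := fun i g => by
    refine ⟨ψ.symm (fun _ => g), ?_⟩
    change (ψ (ψ.symm fun _ => g)) i = g
    rw [MulEquiv.apply_symm_apply]
  let N : Fin r → Subgroup (F ≃ₐ[k] F) := fun i => (f i).ker
  have hN : ∀ i, (N i).Normal := fun i => MonoidHom.normal_ker _
  let E' : Fin r → IntermediateField k F := fun i => fixedField (N i)
  have hε : ∀ i, Nonempty (G ≃* (E' i ≃ₐ[k] E' i)) := by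
    intro i
    have := hN i
    exact ⟨(QuotientGroup.quotientKerEquivOfSurjective (f i) (hf i)).symm.trans
      (IsGalois.normalAutEquivQuotient (N i))⟩
  let ε : ∀ i, G ≃* (E' i ≃ₐ[k] E' i) := fun i => (hε i).some
  have hlift : ∀ i, E' i ≃ₐ[k] (IntermediateField.lift (E' i)) := fun i =>
    IntermediateField.liftAlgEquiv (E' i)
  refine ⟨fun i => IntermediateField.lift (E' i), fun i => (ε i).trans (AlgEquiv.autCongr (hlift i)),
    fun i => (hlift i).toLinearEquiv.finiteDimensional, fun i => ?_, fun i j hij => ?_⟩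
  · have := hN i
    have : IsGalois k (E' i) := inferInstance
    exact IsGalois.of_algEquiv (hlift i)
  · rw [eq_bot_iff]
    rintro z ⟨⟨a, ha, rfl⟩, ⟨b, hb, hab⟩⟩
    have hab' : b = a := Subtype.ext hab
    subst hab'
    have h1 : b ∈ (⊥ : IntermediateField k F) := by
      rw [IsGalois.mem_bot_iff_fixed]
      intro τ
      let τ₁ : F ≃ₐ[k] F := ψ.symm (Pi.mulSingle i (ψ τ i))
      have h2 : τ₁ ∈ N j := by
        change (ψ (ψ.symm (Pi.mulSingle i (ψ τ i)))) j = 1
        rw [MulEquiv.apply_symm_apply, Pi.mulSingle_eq_of_ne (Ne.symm hij)]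
      have h3 : τ₁⁻¹ * τ ∈ N i := by
        change (ψ (τ₁⁻¹ * τ)) i = 1
        rw [map_mul, map_inv]
        change (ψ (ψ.symm (Pi.mulSingle i (ψ τ i))))⁻¹ i * ψ τ i = 1
        rw [MulEquiv.apply_symm_apply, Pi.inv_apply, Pi.mulSingle_eq_same, inv_mul_cancel]
      have h4 : (τ₁⁻¹ * τ) b = b := (mem_fixedField_iff _ _).1 ha _ h3
      have h5 : τ₁ b = b := (mem_fixedField_iff _ _).1 hb _ h2
      change τ₁.symm (τ b) = b at h4
      rw [AlgEquiv.symm_apply_eq, h5] at h4
      exact h4
    rw [IntermediateField.mem_bot] at h1 ⊢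
    obtain ⟨c, hc⟩ := h1
    exact ⟨c, by rw [← hc]; rfl⟩

/-- the Galois group of a compositum of linearly disjoint extensions -/
theorem group_sup (E F : IntermediateField k (AlgebraicClosure k)) [CharZero k]
    [FiniteDimensional k E] [IsGalois k E] [FiniteDimensional k F] [IsGalois k F]
    (hEF : E ⊓ F = ⊥) :
    Nonempty ((↥(E ⊔ F) ≃ₐ[k] ↥(E ⊔ F)) ≃* (E ≃ₐ[k] E) × (F ≃ₐ[k] F)) := by
  let A := AlgebraicClosure k
  have : IsGalois k A := { }
  let Θ : (A ≃ₐ[k] A) →* (E ≃ₐ[k] E) × (F ≃ₐ[k] F) :=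
    (AlgEquiv.restrictNormalHom E).prod (AlgEquiv.restrictNormalHom F)
  have hE : ∀ (σ : A ≃ₐ[k] A) (z : E), ((AlgEquiv.restrictNormalHom E σ z : E) : A) = σ z :=
    fun σ z => AlgEquiv.restrictNormal_commutes σ E z
  have hF : ∀ (σ : A ≃ₐ[k] A) (z : F), ((AlgEquiv.restrictNormalHom F σ z : F) : A) = σ z :=
    fun σ z => AlgEquiv.restrictNormal_commutes σ F z
  have hreg : ∀ a : k, IsAlgebraic k a → a ∈ Set.range (algebraMap k k) := fun a _ => ⟨a, rfl⟩
  have hsurj : Function.Surjective Θ := by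
    rintro ⟨a, b⟩
    obtain ⟨σ, -, h1, h2⟩ := exists_over_two (K := k) (A := A) hreg E F hEF a
    have hFE : F ⊓ E = ⊥ := by rw [inf_comm, hEF]
    obtain ⟨τ, -, h3, h4⟩ := exists_over_two (K := k) (A := A) hreg F E hFE b
    refine ⟨σ * τ, Prod.ext ?_ ?_⟩
    · apply AlgEquiv.ext
      intro z
      apply Subtype.ext
      change ((AlgEquiv.restrictNormalHom E (σ * τ) z : E) : A) = a z
      rw [hE, AlgEquiv.mul_apply, h4 z z.2, h1]
    · apply AlgEquiv.ext
      intro z
      apply Subtype.ext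
      change ((AlgEquiv.restrictNormalHom F (σ * τ) z : F) : A) = b z
      rw [hF, AlgEquiv.mul_apply, h3, h2 _ (b z).2]
  have hker : Θ.ker = (AlgEquiv.restrictNormalHom (↥(E ⊔ F)) : (A ≃ₐ[k] A) →* _).ker := by
    rw [IntermediateField.restrictNormalHom_ker, fixingSubgroup_sup,
      ← IntermediateField.restrictNormalHom_ker, ← IntermediateField.restrictNormalHom_ker]
    exact MonoidHom.ker_prod _ _
  exact ⟨(QuotientGroup.quotientKerEquivOfSurjective _
    (AlgEquiv.restrictNormalHom_surjective (F := k) (K₁ := ↥(E ⊔ F)) A)).symm.trans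
      ((QuotientGroup.quotientMulEquivOfEq hker.symm).trans
        (QuotientGroup.quotientKerEquivOfSurjective Θ hsurj))⟩

/-- all powers of `G` are Galois groups if `G` has extensions disjoint from any given one -/
theorem pow_of_disjoint [CharZero k]
    (H : ∀ L : IntermediateField k (AlgebraicClosure k), FiniteDimensional k L →
      ∃ E : IntermediateField k (AlgebraicClosure k), FiniteDimensional k E ∧ IsGalois k E ∧
        Nonempty ((E ≃ₐ[k] E) ≃* G) ∧ E ⊓ L = ⊥) (m : ℕ) :
    IsGaloisGroupOver k (Fin m → G) := by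
  have key : ∀ m : ℕ, ∃ F : IntermediateField k (AlgebraicClosure k), FiniteDimensional k F ∧
      IsGalois k F ∧ Nonempty ((F ≃ₐ[k] F) ≃* (Fin m → G)) := by
    intro m
    induction m with
    | zero =>
      refine ⟨⊥, inferInstance, inferInstance, ⟨?_⟩⟩
      have h1 : Subsingleton ((⊥ : IntermediateField k (AlgebraicClosure k)) ≃ₐ[k]
          (⊥ : IntermediateField k (AlgebraicClosure k))) := by
        refine ⟨fun σ τ => AlgEquiv.ext fun z => ?_⟩
        obtain ⟨c, hc⟩ := IntermediateField.mem_bot.1 z.2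
        have h2 : z = algebraMap k _ c := Subtype.ext hc.symm
        rw [h2, σ.commutes, τ.commutes]
      have h2 : Subsingleton (Fin 0 → G) := inferInstance
      exact { toFun := fun _ => 1, invFun := fun _ => 1, left_inv := fun x => Subsingleton.elim _ _,
              right_inv := fun x => Subsingleton.elim _ _,
              map_mul' := fun x y => Subsingleton.elim _ _ }
    | succ m ih =>
      obtain ⟨F, hF1, hF2, ⟨ψ⟩⟩ := ih
      obtain ⟨E, hE1, hE2, ⟨χ⟩, hEF⟩ := H F hF1
      obtain ⟨ω⟩ := group_sup E F hEF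
      refine ⟨E ⊔ F, inferInstance, inferInstance, ⟨ω.trans ((MulEquiv.prodCongr χ ψ).trans ?_)⟩⟩
      exact { toFun := fun p => Fin.cons p.1 p.2
              invFun := fun f => (f 0, Fin.tail f)
              left_inv := fun p => by simp
              right_inv := fun f => by simp
              map_mul' := fun p q => by
                funext i
                refine Fin.cases ?_ (fun j => ?_) i
                · simp
                · simp }
  obtain ⟨F, h1, h2, h3⟩ := key m
  exact ⟨F, inferInstance, inferInstance, h1, h2, h3⟩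

end

end Pool.Agent.Helper44q.Q
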