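import Pool.Agent.Helper44q.Q.Lin
import Pool.Agent.Helper44q.Q.Quot
import Pool.Agent.Helper44q.Q.Pow
import Pool.Agent.Helper44q.Q.Cls
import Pool.Agent.N136.IS.FG

/-! Function fields with the Hilbert property. -/

set_option autoImplicit false

namespace Pool.Agent.Helper44q.Q

open AlgebraicGeometry CategoryTheory W560.HP
open Pool.Agent.TH178.HI (HasFunctionField)

section

variable {k K : Type} [Field k] [Field K] [Algebra k K]

/-- the Hilbert property makes `k` algebraically closed in `K` -/
theorem reg_of_hpf (h : HPF k K) (a : K) (ha : IsAlgebraic k a) :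
    a ∈ Set.range (algebraMap k K) := by
  obtain ⟨B, φ, -, h1, -, -⟩ := h 0 Fin.elim0 (fun j => j.elim0) {a}
  have haB : a ∈ B := h1 (by simp)
  have hmin : (minpoly k a).degree = 1 := by
    have h2 : (minpoly k a).eval (φ ⟨a, haB⟩) = 0 := by
      have h3 : Polynomial.aeval (⟨a, haB⟩ : B) (minpoly k a) = 0 := by
        apply Subtype.ext
        have h4 := Polynomial.aeval_algHom_apply B.val (⟨a, haB⟩ : B) (minpoly k a)
        have h5 : Polynomial.aeval (B.val ⟨a, haB⟩) (minpoly k a) = 0 := minpoly.aeval k a
        rw [h5] at h4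
        exact h4.symm
      have h6 := Polynomial.aeval_algHom_apply φ (⟨a, haB⟩ : B) (minpoly k a)
      rw [h3, map_zero] at h6
      rw [← h6]
      rfl
    exact Polynomial.degree_eq_one_of_irreducible_of_root
      (minpoly.irreducible ha.isIntegral) h2
  exact (minpoly.mem_range_of_degree_eq_one k a hmin)

end

end Pool.Agent.Helper44q.Q
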