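import Pool.Agent.Helper44q.Q.Main
import Pool.Agent.N600.UK.Main
import Pool.Agent.TH444.TW.Cls

/-! Embedding problems and the Hilbert property of quotients. -/

set_option autoImplicit false

namespace Pool.Agent.Helper44q.Q

open AlgebraicGeometry CategoryTheory W560.HP
open Pool.Agent.TH178.HI (HasFunctionField)
open Pool.Agent.H391R2.T4 (RegSol)

section

/-- specialisation of a Galois extension `K / S`, disjoint from a given extension `L` -/
theorem disj_core2 {k S K N G : Type} [Field k] [Field S] [Field K] [Field N] [Group G]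
    [Algebra k S] [Algebra S K] [Algebra k K] [Algebra K N] [Algebra S N] [Algebra k N]
    [IsScalarTower k S N] [IsScalarTower k K N] [IsScalarTower S K N] [CharZero k]
    [FiniteDimensional S N] [IsGalois S N] [IsGalois S K] (θ : (K ≃ₐ[S] K) ≃* G)
    (hS : ∃ F : Finset S, IntermediateField.adjoin k (F : Set S) = ⊤)
    (HP : ∀ (X : Scheme.{0}) [IsIntegral X] (p : X ⟶ Spec (CommRingCat.of k))
      [LocallyOfFiniteType p], HasFunctionField k X p S → HilbertProperty k X p)
    (L : IntermediateField k (AlgebraicClosure k)) [FiniteDimensional k L] [IsGalois k L]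
    (j : L →ₐ[k] N)
    (hreg : ∀ (l : L) (a : K), algebraMap K N a = j l → l ∈ Set.range (algebraMap k L)) :
    ∃ E : IntermediateField k (AlgebraicClosure k), FiniteDimensional k E ∧ IsGalois k E ∧
      Nonempty ((E ≃ₐ[k] E) ≃* G) ∧ E ⊓ L = ⊥ := by
  classical
  obtain ⟨α, hα⟩ := Field.exists_primitive_element k L
  obtain ⟨C, hC, κ, _, _, ψ, Φ, hT, hκ1, hκ2, hΦ⟩ := spec hS HP {j α}
  have hjC : ∀ l : L, j l ∈ C := by
    have h1 : Algebra.adjoin k {α} ≤ C.comap j := by
      rw [Algebra.adjoin_le_iff]
      intro x hx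
      rw [Set.mem_singleton_iff.1 hx]
      exact hT _ (Finset.mem_singleton_self _)
    have h2 : Algebra.adjoin k {α} = ⊤ := by
      rw [← IntermediateField.adjoin_simple_toSubalgebra_of_isAlgebraic
        (Algebra.IsAlgebraic.isAlgebraic α), hα, IntermediateField.top_toSubalgebra]
    intro l
    exact h1 (by rw [h2]; trivial)
  let jC : L →ₐ[k] C := j.codRestrict C hjC
  let lam : L →ₐ[k] κ := ψ.comp jC
  -- the group
  let res : (N ≃ₐ[S] N) →* (K ≃ₐ[S] K) := AlgEquiv.restrictNormalHom K
  have hres : ∀ (σ : N ≃ₐ[S] N) (a : K), algebraMap K N (res σ a) = σ (algebraMap K N a) :=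
    fun σ a => AlgEquiv.restrictNormal_commutes σ K a
  let f : (κ ≃ₐ[k] κ) →* G := ((θ : (K ≃ₐ[S] K) →* G).comp res).comp
    (Φ.symm : (κ ≃ₐ[k] κ) →* (N ≃ₐ[S] N))
  have hf : Function.Surjective f := by
    refine (θ.surjective.comp (AlgEquiv.restrictNormalHom_surjective N)).comp Φ.symm.surjective
  let E' : IntermediateField k κ := IntermediateField.fixedField f.ker
  have hE' : IsGalois k E' := inferInstance
  have hEG : Nonempty ((E' ≃ₐ[k] E') ≃* G) :=
    ⟨((QuotientGroup.quotientKerEquivOfSurjective f hf).symm.trans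
      (IsGalois.normalAutEquivQuotient f.ker)).symm⟩
  -- the intersection
  have hint : ∀ l : L, lam l ∈ E' → lam l ∈ Set.range (algebraMap k κ) := by
    intro l hl
    have h1 : ∀ σ : N ≃ₐ[S] N, res σ = 1 → σ (j l) = j l := by
      intro σ hσ
      have h2 : Φ σ ∈ f.ker := by
        change θ (res (Φ.symm (Φ σ))) = 1
        rw [MulEquiv.symm_apply_apply, hσ, map_one]
      have h3 := (IntermediateField.mem_fixedField_iff _ _).1 hl _ h2
      have h4 : ψ (actE C hC σ (jC l)) = ψ (jC l) := by
        rw [← hΦ]
        exact h3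
      let σk : N →ₐ[k] N := ((σ.restrictScalars k : N ≃ₐ[k] N) : N →ₐ[k] N)
      obtain ⟨l', hl'⟩ : σ (j l) ∈ j.fieldRange := by
        have h5 := range_eq (σk.comp j) j
        rw [← h5]
        exact ⟨l, rfl⟩
      have h6 : actE C hC σ (jC l) = jC l' := Subtype.ext hl'.symm
      rw [h6] at h4
      have h7 : l' = l := lam.injective h4
      rw [← hl', h7]
      rfl
    have h8 : IsGalois K N := IsGalois.tower_top_of_isGalois S K N
    have h9 : FiniteDimensional K N := FiniteDimensional.right S K N
    have h10 : ∀ τ : N ≃ₐ[K] N, τ (j l) = j l := by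
      intro τ
      have h11 : res (τ.restrictScalars S) = 1 := by
        apply AlgEquiv.ext
        intro a
        apply (algebraMap K N).injective
        rw [hres]
        exact τ.commutes a
      exact h1 _ h11
    obtain ⟨a, ha⟩ := (IsGalois.mem_range_algebraMap_iff_fixed _).2 h10
    obtain ⟨c, h14⟩ := hreg l a ha
    refine ⟨c, ?_⟩
    rw [← h14]
    exact (AlgHom.commutes lam c).symm
  -- inside the algebraic closure
  let u : κ →ₐ[k] AlgebraicClosure k := IsAlgClosed.lift
  have huE : E' ≃ₐ[k] (E'.map u) := IntermediateField.equivMap E' u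
  refine ⟨E'.map u, huE.toLinearEquiv.finiteDimensional, IsGalois.of_algEquiv huE,
    ⟨(AlgEquiv.autCongr huE).symm.trans hEG.some⟩, ?_⟩
  rw [eq_bot_iff]
  rintro z ⟨⟨x, hx, rfl⟩, hz⟩
  have h1 : (L.val).fieldRange = L := IntermediateField.fieldRange_val L
  have h2 : u x ∈ (u.comp lam).fieldRange := by
    rw [range_eq (u.comp lam) L.val, h1]
    exact hz
  obtain ⟨l, hl⟩ := h2
  have h3 : lam l = x := u.injective hl
  subst h3
  obtain ⟨c, hc⟩ := hint l hx
  rw [IntermediateField.mem_bot]
  refine ⟨c, ?_⟩
  change algebraMap k (AlgebraicClosure k) c = u (lam l)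
  rw [← hc, AlgHom.commutes]

/-- specialisation of a regular solution of an embedding problem: `E` is the field of the elements
of `K` which are algebraic over `k` -/
theorem disj_rel {k S K G : Type} [Field k] [Field S] [Field K] [Group G]
    [Algebra k S] [Algebra S K] [Algebra k K] [IsScalarTower k S K] [CharZero k]
    [FiniteDimensional S K] [IsGalois S K] (θ : (K ≃ₐ[S] K) ≃* G)
    (E : IntermediateField k (AlgebraicClosure k)) [FiniteDimensional k E] [IsGalois k E]
    [Algebra E K] [IsScalarTower k E K]
    (hreg : ∀ a : K, IsAlgebraic k a → a ∈ Set.range (algebraMap E K))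
    (hS : ∃ F : Finset S, IntermediateField.adjoin k (F : Set S) = ⊤)
    (HP : ∀ (X : Scheme.{0}) [IsIntegral X] (p : X ⟶ Spec (CommRingCat.of k))
      [LocallyOfFiniteType p], HasFunctionField k X p S → HilbertProperty k X p)
    (L : IntermediateField k (AlgebraicClosure k)) [FiniteDimensional k L] [IsGalois k L]
    (hEL : E ⊓ L = ⊥) :
    ∃ E : IntermediateField k (AlgebraicClosure k), FiniteDimensional k E ∧ IsGalois k E ∧
      Nonempty ((E ≃ₐ[k] E) ≃* G) ∧ E ⊓ L = ⊥ := by
  classical
  have : CharZero S := charZero_of_injective_algebraMap (algebraMap k S).injective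
  obtain ⟨α, hα⟩ := Field.exists_primitive_element k L
  let A := AlgebraicClosure K
  let J' : AlgebraicClosure k →ₐ[k] A := IsAlgClosed.lift
  let J : L →ₐ[k] A := J'.comp L.val
  let iK : K →ₐ[S] A := IsScalarTower.toAlgHom S K A
  have hJα : IsIntegral S (J α) := ((Algebra.IsIntegral.isIntegral (R := k) α).map J).tower_top
  let N₀ : IntermediateField S A := iK.fieldRange ⊔ IntermediateField.adjoin S {J α}
  have h1 : FiniteDimensional S iK.fieldRange :=
    (AlgEquiv.ofInjectiveField iK).toLinearEquiv.finiteDimensional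
  have h2 : FiniteDimensional S (IntermediateField.adjoin S {J α}) :=
    IntermediateField.adjoin.finiteDimensional hJα
  have h3 : FiniteDimensional S N₀ := IntermediateField.finiteDimensional_sup _ _
  let N : IntermediateField S A := IntermediateField.normalClosure S N₀ A
  have h4 : FiniteDimensional S N := normalClosure.is_finiteDimensional S N₀ A
  have h5 : Normal S N := normalClosure.normal S N₀ A
  have h6 : IsGalois S N := { }
  have h7 : N₀ ≤ N := IntermediateField.le_normalClosure N₀
  let iN : K →ₐ[S] N := iK.codRestrict N.toSubalgebra (fun a => h7 (le_sup_left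
    (a := iK.fieldRange) ⟨a, rfl⟩))
  let _ : Algebra K N := (iN : K →+* N).toAlgebra
  have h8 : IsScalarTower S K N := IsScalarTower.of_algebraMap_eq fun s => (iN.commutes s).symm
  have h9 : IsScalarTower k K N := IsScalarTower.of_algebraMap_eq fun c => by
    apply Subtype.ext
    exact IsScalarTower.algebraMap_apply k K A c
  have hJN : ∀ l : L, J l ∈ N := by
    have h10 : Algebra.adjoin k {α} ≤ (N.restrictScalars k).toSubalgebra.comap J := by
      rw [Algebra.adjoin_le_iff]
      intro x hx
      rw [Set.mem_singleton_iff.1 hx]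
      exact h7 (le_sup_right (a := iK.fieldRange) (IntermediateField.mem_adjoin_simple_self S _))
    have h11 : Algebra.adjoin k {α} = ⊤ := by
      rw [← IntermediateField.adjoin_simple_toSubalgebra_of_isAlgebraic
        (Algebra.IsAlgebraic.isAlgebraic α), hα, IntermediateField.top_toSubalgebra]
    intro l
    exact h10 (by rw [h11]; trivial)
  let j : L →ₐ[k] N := J.codRestrict (N.restrictScalars k).toSubalgebra hJN
  refine disj_core2 (N := N) θ hS HP L j fun l a ha => ?_
  have h12 : algebraMap K A a = J l := congrArg Subtype.val ha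
  have h13 : IsAlgebraic k a := by
    have h14 : IsAlgebraic k (J l) := (Algebra.IsAlgebraic.isAlgebraic (R := k) l).algHom J
    rw [← h12] at h14
    exact (isAlgebraic_algebraMap_iff (algebraMap K A).injective).1 h14
  obtain ⟨e, rfl⟩ := hreg a h13
  let u : E →ₐ[k] A := (IsScalarTower.toAlgHom k K A).comp (IsScalarTower.toAlgHom k E K)
  have h15 : u e = J l := h12
  obtain ⟨e', he'⟩ : u e ∈ (J'.comp E.val).fieldRange := by
    rw [← range_eq u (J'.comp E.val)]
    exact ⟨e, rfl⟩
  have h16 : J' (e' : AlgebraicClosure k) = J' (l : AlgebraicClosure k) := he'.trans h15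
  have h17 : (e' : AlgebraicClosure k) = l := J'.injective h16
  have h18 : (l : AlgebraicClosure k) ∈ E ⊓ L := ⟨by rw [← h17]; exact e'.2, l.2⟩
  rw [hEL, IntermediateField.mem_bot] at h18
  obtain ⟨c, hc⟩ := h18
  exact ⟨c, Subtype.ext hc⟩

end

end Pool.Agent.Helper44q.Q
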