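import Pool.Agent.Helper44q.Q.Eqv

/-! Twists are finitely generated; permutation actions. -/

set_option autoImplicit false

namespace Pool.Agent.Helper44q.Q

open IntermediateField

theorem finGen_twist {k K E G : Type} [Field k] [Field K] [Field E] [Algebra k K] [Algebra k E]
    [Group G] [FiniteDimensional k E] (ρ : G →* (K ≃ₐ[k] K)) (φ : G ≃* (E ≃ₐ[k] E)) (T : Type)
    [Field T] [Algebra k T] (hK : FinGen k K) (h : IsTwist ρ φ T) : FinGen k T := by
  classical
  obtain ⟨Ω, _, _, i, j, t, α, htop, -, -, -⟩ := h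
  obtain ⟨F, hF⟩ := hK
  obtain ⟨F', hF'⟩ : FinGen k E := finGen_iff.2 inferInstance
  have h1 : FinGen k Ω := by
    refine ⟨F'.image i ∪ F.image j, ?_⟩
    rw [eq_top_iff, ← htop, Finset.coe_union, Finset.coe_image, Finset.coe_image]
    refine sup_le ?_ ?_
    · rw [AlgHom.fieldRange_eq_map, ← hF', adjoin_map]
      exact adjoin.mono k _ _ Set.subset_union_left
    · rw [AlgHom.fieldRange_eq_map, ← hF, adjoin_map]
      exact adjoin.mono k _ _ Set.subset_union_right
  have h2 : FinGen k t.fieldRange := finGen_sub h1 _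
  rw [finGen_iff] at h2 ⊢
  exact (Algebra.EssFiniteType.iff_of_algEquiv (AlgEquiv.ofInjectiveField t)).2 h2

section

variable (k : Type) [Field k] (n : ℕ)

/-- permutation of the variables -/
noncomputable def perm1 (σ : Equiv.Perm (Fin n)) : Rat' k n ≃ₐ[k] Rat' k n :=
  AlgEquiv.ofRingEquiv (f := IsFractionRing.ringEquivOfRingEquiv (K := Rat' k n) (L := Rat' k n)
    ((MvPolynomial.renameEquiv k σ : MvPolynomial (Fin n) k ≃ₐ[k] MvPolynomial (Fin n) k) :
      MvPolynomial (Fin n) k ≃+* MvPolynomial (Fin n) k)) (fun c => by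
    rw [IsScalarTower.algebraMap_apply k (MvPolynomial (Fin n) k) (Rat' k n),
      IsFractionRing.ringEquivOfRingEquiv_algebraMap]
    congr 1
    exact (MvPolynomial.renameEquiv k σ).commutes c)

theorem perm1_yv (σ : Equiv.Perm (Fin n)) (i : Fin n) : perm1 k n σ (yv k n i) = yv k n (σ i) := by
  change IsFractionRing.ringEquivOfRingEquiv (K := Rat' k n) (L := Rat' k n)
    ((MvPolynomial.renameEquiv k σ : MvPolynomial (Fin n) k ≃ₐ[k] MvPolynomial (Fin n) k) :
      MvPolynomial (Fin n) k ≃+* MvPolynomial (Fin n) k) _ = _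
  rw [yv, IsFractionRing.ringEquivOfRingEquiv_algebraMap]
  change algebraMap _ _ (MvPolynomial.rename σ (MvPolynomial.X i)) = _
  rw [MvPolynomial.rename_X]
  rfl

theorem perm_ext (f g : Rat' k n ≃ₐ[k] Rat' k n) (h : ∀ i, f (yv k n i) = g (yv k n i)) : f = g := by
  have h1 := alg_hom_ext_adjoin (adjoin_yv k n) (f : Rat' k n →ₐ[k] Rat' k n)
    (g : Rat' k n →ₐ[k] Rat' k n) (by
      rintro _ ⟨i, rfl⟩
      exact h i)
  exact AlgEquiv.ext fun z => AlgHom.congr_fun h1 z

/-- the action by permutations -/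
noncomputable def perm : Equiv.Perm (Fin n) →* (Rat' k n ≃ₐ[k] Rat' k n) where
  toFun := perm1 k n
  map_one' := perm_ext k n _ _ fun i => by rw [perm1_yv]; rfl
  map_mul' σ τ := perm_ext k n _ _ fun i => by
    rw [perm1_yv, AlgEquiv.mul_apply, perm1_yv, perm1_yv]; rfl

end

/-- every finite group has a faithful linear action -/
theorem exists_linear (k : Type) [Field k] (G : Type) [Group G] [Finite G] :
    ∃ (n : ℕ) (ρ : G →* (Rat' k n ≃ₐ[k] Rat' k n)), IsLinear ρ := by
  obtain ⟨n, ⟨e⟩⟩ := Finite.exists_equiv_fin G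
  let π : G →* Equiv.Perm (Fin n) := (e.permCongrHom : Equiv.Perm G →* Equiv.Perm (Fin n)).comp
    (MulAction.toPermHom G G)
  have hπ : Function.Injective π :=
    (e.permCongrHom.injective).comp MulAction.toPerm_injective
  refine ⟨n, (perm k n).comp π, ?_, n, yv k n, algInd_yv k k n, adjoin_yv k n, fun g j => ?_⟩
  · intro g h hgh
    apply hπ
    apply Equiv.ext
    intro i
    have h1 : perm k n (π g) (yv k n i) = perm k n (π h) (yv k n i) := AlgEquiv.congr_fun hgh _
    have h2 : yv k n (π g i) = yv k n (π h i) := by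
      rw [← perm1_yv, ← perm1_yv]
      exact h1
    exact (algInd_yv k k n).injective h2
  · have h1 : (perm k n).comp π g (yv k n j) = yv k n (π g j) := perm1_yv k n _ _
    rw [h1]
    exact Submodule.subset_span ⟨_, rfl⟩

end Pool.Agent.Helper44q.Q
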