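import Pool.Agent.Helper44q.Q.Fix

/-! Residue fields at points which do not lift. -/

set_option autoImplicit false

namespace Pool.Agent.Helper44q.Q

section

variable {k S N : Type} [Field k] [Field S] [Field N] [Algebra k S] [Algebra S N] [Algebra k N]
  [IsScalarTower k S N] [FiniteDimensional S N] [IsGalois S N]

/-- an automorphism of a stable subalgebra -/
def actE (C : Subalgebra k N) (hC : ∀ (σ : N ≃ₐ[S] N), ∀ c ∈ C, σ c ∈ C) (σ : N ≃ₐ[S] N) :
    C ≃ₐ[k] C where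
  toFun c := ⟨σ c, hC σ c c.2⟩
  invFun c := ⟨σ⁻¹ c, hC σ⁻¹ c c.2⟩
  left_inv c := Subtype.ext (σ.symm_apply_apply _)
  right_inv c := Subtype.ext (σ.apply_symm_apply _)
  map_mul' _ _ := Subtype.ext (map_mul σ _ _)
  map_add' _ _ := Subtype.ext (map_add σ _ _)
  commutes' r := Subtype.ext (by
    change σ (algebraMap k N r) = algebraMap k N r
    rw [IsScalarTower.algebraMap_apply k S N, σ.commutes])

variable (C : Subalgebra k N) (hC : ∀ (σ : N ≃ₐ[S] N), ∀ c ∈ C, σ c ∈ C)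

omit [FiniteDimensional S N] [IsGalois S N] in
theorem actE_mul (σ τ : N ≃ₐ[S] N) (c : C) : actE C hC (σ * τ) c = actE C hC σ (actE C hC τ c) :=
  rfl

omit [FiniteDimensional S N] [IsGalois S N] in
theorem actE_one (c : C) : actE C hC 1 c = c := rfl

/-- the decomposition group -/
def dec (Q : Ideal C) : Subgroup (N ≃ₐ[S] N) where
  carrier := {σ | ∀ c : C, actE C hC σ c ∈ Q ↔ c ∈ Q}
  mul_mem' := by
    intro σ τ hσ hτ c
    rw [actE_mul, hσ, hτ]
  one_mem' := fun c => Iff.rfl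
  inv_mem' := by
    intro σ hσ c
    rw [← hσ, ← actE_mul, mul_inv_cancel, actE_one]

omit [FiniteDimensional S N] [IsGalois S N] in
theorem mem_dec (Q : Ideal C) (σ : N ≃ₐ[S] N) :
    σ ∈ dec C hC Q ↔ ∀ c : C, actE C hC σ c ∈ Q ↔ c ∈ Q := Iff.rfl

omit [IsGalois S N] in
/-- an idempotent at the prime ideal -/
theorem exists_idem (Q : Ideal C) [Q.IsMaximal] :
    ∃ e : C, e - 1 ∈ Q ∧ ∀ σ : N ≃ₐ[S] N, σ ∉ dec C hC Q → actE C hC σ e ∈ Q := by
  classical
  have h1 : ∀ σ : N ≃ₐ[S] N, ∃ e : C, e ∉ Q ∧ (σ ∉ dec C hC Q → actE C hC σ e ∈ Q) := by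
    intro σ
    by_cases hσ : σ ∈ dec C hC Q
    · exact ⟨1, fun h => Ideal.IsPrime.ne_top' ((Ideal.eq_top_iff_one _).2 h),
        fun h => absurd hσ h⟩
    · -- otherwise `σ⁻¹ Q` is another maximal ideal
      by_contra hcon
      push Not at hcon
      have h2 : Ideal.comap (actE C hC σ) Q ≤ Q := by
        intro c hc
        by_contra hcQ
        exact (hcon c hcQ).2 hc
      have h3 : (Ideal.comap (actE C hC σ) Q).IsMaximal :=
        Ideal.comap_isMaximal_of_surjective (actE C hC σ) (actE C hC σ).surjective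
      have h4 : Ideal.comap (actE C hC σ) Q = Q :=
        h3.eq_of_le Ideal.IsPrime.ne_top' h2
      apply hσ
      intro c
      rw [← Ideal.mem_comap, h4]
  choose e he1 he2 using h1
  have h2 : ∏ σ : N ≃ₐ[S] N, e σ ∉ Q := by
    intro h
    obtain ⟨σ, -, hσ⟩ := (Ideal.IsPrime.prod_mem_iff (p := Q)).1 h
    exact he1 σ hσ
  obtain ⟨d, hd⟩ := Ideal.IsMaximal.exists_inv (inferInstanceAs Q.IsMaximal) h2
  obtain ⟨i, hi, hi'⟩ := hd
  refine ⟨d * ∏ σ : N ≃ₐ[S] N, e σ, ?_, fun σ hσ => ?_⟩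
  · have h3 : d * ∏ σ : N ≃ₐ[S] N, e σ - 1 = -i := by rw [← hi']; ring
    rw [h3]
    exact neg_mem hi
  · rw [map_mul, map_prod]
    refine Ideal.mul_mem_left _ _ ?_
    rw [← Finset.mul_prod_erase Finset.univ _ (Finset.mem_univ σ)]
    exact Ideal.mul_mem_right _ _ (he2 σ hσ)

include hC in
/-- the elements whose classes are fixed by the decomposition group have rational classes -/
theorem rational_class [CharZero k] (Q : Ideal C) [Q.IsMaximal] (y : bs S C →ₐ[k] k)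
    (hy : ∀ b : bs S C, bsC C b - algebraMap k C (y b) ∈ Q) (c : C)
    (hc : ∀ σ ∈ dec C hC Q, actE C hC σ c - c ∈ Q) : ∃ a : k, c - algebraMap k C a ∈ Q := by
  classical
  obtain ⟨e, he1, he2⟩ := exists_idem C hC Q
  let T : C := ∑ σ : N ≃ₐ[S] N, actE C hC σ (e * c)
  have hT : ∀ τ : N ≃ₐ[S] N, τ (T : N) = T := by
    intro τ
    have h1 : actE C hC τ T = T := by
      change actE C hC τ (∑ σ : N ≃ₐ[S] N, actE C hC σ (e * c)) = _
      rw [map_sum]
      exact Fintype.sum_equiv (Equiv.mulLeft τ) _ _ (fun σ => rfl)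
    exact congrArg Subtype.val h1
  obtain ⟨s, hs⟩ := (IsGalois.mem_range_algebraMap_iff_fixed _).2 hT
  let b : bs S C := ⟨s, mem_bs.2 (by rw [hs]; exact T.2)⟩
  have hb : bsC C b = T := Subtype.ext hs
  have h1 := hy b
  rw [hb] at h1
  -- the sum modulo `Q`
  let n : ℕ := (Finset.univ.filter fun σ : N ≃ₐ[S] N => σ ∈ dec C hC Q).card
  have h2 : T - (n : C) * c ∈ Q := by
    have h3 : (n : C) * c = ∑ σ : N ≃ₐ[S] N, if σ ∈ dec C hC Q then c else 0 := by
      rw [← Finset.sum_filter, Finset.sum_const, nsmul_eq_mul]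
    rw [h3]
    change (∑ σ : N ≃ₐ[S] N, actE C hC σ (e * c)) - _ ∈ Q
    rw [← Finset.sum_sub_distrib]
    refine Ideal.sum_mem _ fun σ _ => ?_
    split_ifs with hσ
    · have h4 : actE C hC σ (e * c) - c =
          actE C hC σ (e - 1) * actE C hC σ c + (actE C hC σ c - c) := by
        rw [map_mul, map_sub, map_one]; ring
      rw [h4]
      exact add_mem (Ideal.mul_mem_right _ _ ((hσ _).2 he1)) (hc σ hσ)
    · rw [sub_zero, map_mul]
      exact Ideal.mul_mem_right _ _ (he2 σ hσ)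
  have hn : n ≠ 0 := by
    refine Finset.card_ne_zero_of_mem (a := (1 : N ≃ₐ[S] N)) ?_
    rw [Finset.mem_filter]
    exact ⟨Finset.mem_univ _, Subgroup.one_mem _⟩
  have hn' : (n : k) ≠ 0 := Nat.cast_ne_zero.2 hn
  refine ⟨(n : k)⁻¹ * y b, ?_⟩
  have h5 : algebraMap k C (n : k)⁻¹ * (n : C) = 1 := by
    rw [← map_natCast (algebraMap k C) n, ← map_mul, inv_mul_cancel₀ hn', map_one]
  have h6 : c - algebraMap k C ((n : k)⁻¹ * y b) = algebraMap k C (n : k)⁻¹ *
      ((T - algebraMap k C (y b)) - (T - (n : C) * c)) := by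
    rw [map_mul]
    linear_combination (-c) * h5
  rw [h6]
  exact Ideal.mul_mem_left _ _ (sub_mem h1 h2)

include hC in
/-- if the point does not lift to the proper quotients the decomposition group is everything -/
theorem dec_top [CharZero k] (Q : Ideal C) [Q.IsMaximal] (y : bs S C →ₐ[k] k)
    (hy : ∀ b : bs S C, bsC C b - algebraMap k C (y b) ∈ Q)
    (hz : ∀ H : Subgroup (N ≃ₐ[S] N), H ≠ ⊤ → ∀ z : fx C H →+* k,
      z.comp (bsTo C H) ≠ (y : bs S C →+* k)) : dec C hC Q = ⊤ := by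
  by_contra hD
  let ι : k →+* C ⧸ Q := algebraMap k (C ⧸ Q)
  have hι : Function.Injective ι := by
    have : Nontrivial (C ⧸ Q) := Ideal.Quotient.nontrivial_iff.2 Ideal.IsPrime.ne_top'
    exact ι.injective
  let j : fx C (dec C hC Q) →+* C ⧸ Q := (Ideal.Quotient.mk Q).comp
    { toFun := fun c => (⟨c, c.2.1⟩ : C)
      map_one' := rfl
      map_mul' := fun _ _ => rfl
      map_zero' := rfl
      map_add' := fun _ _ => rfl }
  have hj : ∀ c, ∃ a : k, ι a = j c := by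
    intro c
    obtain ⟨a, ha⟩ := rational_class C hC Q y hy (⟨c, c.2.1⟩ : C) (fun σ hσ => by
      have h1 : actE C hC σ (⟨c, c.2.1⟩ : C) = ⟨c, c.2.1⟩ := Subtype.ext (c.2.2 σ hσ)
      rw [h1, sub_self]
      exact Ideal.zero_mem _)
    exact ⟨a, (Ideal.Quotient.eq.2 ha).symm⟩
  choose z hzj using hj
  refine hz (dec C hC Q) hD
    { toFun := z
      map_one' := hι (by rw [hzj, map_one, map_one])
      map_mul' := fun a b => hι (by rw [hzj, map_mul, map_mul, hzj, hzj])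
      map_zero' := hι (by rw [hzj, map_zero, map_zero])
      map_add' := fun a b => hι (by rw [hzj, map_add, map_add, hzj, hzj]) } ?_
  ext b
  apply hι
  change ι (z (bsTo C (dec C hC Q) b)) = ι (y b)
  rw [hzj]
  exact Ideal.Quotient.eq.2 (hy b)

/-- the action on the residue field -/
noncomputable def resE (Q : Ideal C) (hQ : dec C hC Q = ⊤) (σ : N ≃ₐ[S] N) :
    (C ⧸ Q) ≃ₐ[k] (C ⧸ Q) :=
  Ideal.quotientEquivAlg Q Q (actE C hC σ) (by
    have h1 : ∀ c : C, actE C hC σ c ∈ Q ↔ c ∈ Q := by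
      have : σ ∈ dec C hC Q := by rw [hQ]; trivial
      exact this
    ext c
    have h2 := Ideal.mem_map_iff_of_surjective (I := Q) (y := c) ((actE C hC σ : C ≃+* C) : C →+* C)
      (actE C hC σ).surjective
    refine Iff.trans ?_ h2.symm
    constructor
    · intro hc
      refine ⟨(actE C hC σ).symm c, (h1 _).1 ?_, AlgEquiv.apply_symm_apply _ _⟩
      rw [AlgEquiv.apply_symm_apply]
      exact hc
    · rintro ⟨x, hx, rfl⟩
      exact (h1 x).2 hx)

omit [FiniteDimensional S N] [IsGalois S N] in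
theorem resE_mk (Q : Ideal C) (hQ : dec C hC Q = ⊤) (σ : N ≃ₐ[S] N) (c : C) :
    resE C hC Q hQ σ (Ideal.Quotient.mk Q c) = Ideal.Quotient.mk Q (actE C hC σ c) := rfl

attribute [local instance] Ideal.Quotient.field in
include hC in
/-- the residue field is a Galois extension with the same Galois group -/
theorem residue [CharZero k] (hfg : Algebra.FiniteType k C) (Q : Ideal C) [Q.IsMaximal]
    (y : bs S C →ₐ[k] k)
    (hy : ∀ b : bs S C, bsC C b - algebraMap k C (y b) ∈ Q)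
    (hz : ∀ H : Subgroup (N ≃ₐ[S] N), H ≠ ⊤ → ∀ z : fx C H →+* k,
      z.comp (bsTo C H) ≠ (y : bs S C →+* k))
    (hu : ∀ σ : N ≃ₐ[S] N, σ ≠ 1 → ∃ c ∈ C, ∃ d ∈ C, (σ c - c) * d = 1) :
    FiniteDimensional k (C ⧸ Q) ∧ IsGalois k (C ⧸ Q) ∧
      ∃ Φ : (N ≃ₐ[S] N) ≃* ((C ⧸ Q) ≃ₐ[k] (C ⧸ Q)), ∀ (σ : N ≃ₐ[S] N) (c : C),
        Φ σ (Ideal.Quotient.mk Q c) = Ideal.Quotient.mk Q (actE C hC σ c) := by
  have hD := dec_top C hC Q y hy hz
  have h1 : Algebra.FiniteType k (C ⧸ Q) :=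
    Algebra.FiniteType.of_surjective (Ideal.Quotient.mkₐ k Q) (Ideal.Quotient.mkₐ_surjective k Q)
  have h2 : FiniteDimensional k (C ⧸ Q) := finite_of_finite_type_of_isJacobsonRing k (C ⧸ Q)
  let Φ : (N ≃ₐ[S] N) →* ((C ⧸ Q) ≃ₐ[k] (C ⧸ Q)) :=
    { toFun := resE C hC Q hD
      map_one' := by
        apply AlgEquiv.ext
        intro x
        obtain ⟨c, rfl⟩ := Ideal.Quotient.mk_surjective x
        rfl
      map_mul' := by
        intro σ τ
        apply AlgEquiv.ext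
        intro x
        obtain ⟨c, rfl⟩ := Ideal.Quotient.mk_surjective x
        rfl }
  have hΦ : ∀ (σ : N ≃ₐ[S] N) (c : C),
        Φ σ (Ideal.Quotient.mk Q c) = Ideal.Quotient.mk Q (actE C hC σ c) := fun _ _ => rfl
  have h3 : IntermediateField.fixedField Φ.range = ⊥ := by
    rw [eq_bot_iff]
    intro x hx
    obtain ⟨c, rfl⟩ := Ideal.Quotient.mk_surjective x
    obtain ⟨a, ha⟩ := rational_class C hC Q y hy c (fun σ _ => by
      have h4 := (IntermediateField.mem_fixedField_iff _ _).1 hx (Φ σ) ⟨σ, rfl⟩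
      rw [hΦ] at h4
      exact Ideal.Quotient.eq.1 h4)
    rw [IntermediateField.mem_bot]
    exact ⟨a, (Ideal.Quotient.eq.2 ha).symm⟩
  have h4 : Φ.range = ⊤ := by
    rw [← IntermediateField.fixingSubgroup_fixedField Φ.range, h3,
      IntermediateField.fixingSubgroup_bot]
  have h5 : IsGalois k (C ⧸ Q) := by
    refine IsGalois.of_fixedField_eq_bot k (C ⧸ Q) ?_
    rw [← h4, h3]
  have h6 : Function.Injective Φ := by
    rw [injective_iff_map_eq_one]
    intro σ hσ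
    by_contra hne
    obtain ⟨c, hc, d, hd, hcd⟩ := hu σ hne
    have h7 := hΦ σ ⟨c, hc⟩
    rw [hσ, AlgEquiv.one_apply] at h7
    have h8 := Ideal.Quotient.eq.1 h7.symm
    have h9 : (actE C hC σ ⟨c, hc⟩ - ⟨c, hc⟩) * (⟨d, hd⟩ : C) = 1 := Subtype.ext hcd
    have h10 : (1 : C) ∈ Q := by
      rw [← h9]
      exact Ideal.mul_mem_right _ _ h8
    exact Ideal.IsPrime.ne_top' ((Ideal.eq_top_iff_one _).2 h10)
  exact ⟨h2, h5, MulEquiv.ofBijective Φ ⟨h6, MonoidHom.range_eq_top.1 h4⟩, hΦ⟩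

end

end Pool.Agent.Helper44q.Q
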